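import Pool.Agent.H924.Daff.Flas

/-!
Vanishing of the cohomology of abelian sheaves from the vanishing of Čech cohomology.
-/

set_option autoImplicit false

open CategoryTheory TopologicalSpace Opposite Limits Abelian

namespace Pool.Agent.H924.Daff

section basic

variable {X : TopCat.{0}}

/-- The category of abelian sheaves. -/
abbrev AbSh (X : TopCat.{0}) := Sheaf (Opens.grothendieckTopology X) AddCommGrpCat.{0}

/-- A sheaf, in elementary terms. -/
noncomputable def toLSh (F : AbSh X) : LSh X where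
  obj U := F.obj.obj (op U)
  grp U := inferInstance
  res h := (F.obj.map (homOfLE h).op).hom
  res_self h s := by
    have : (homOfLE h).op = 𝟙 (op _) := rfl
    rw [this, F.obj.map_id]
    rfl
  res_res h h' s := by
    have : (homOfLE (h'.trans h)).op = (homOfLE h).op ≫ (homOfLE h').op := rfl
    rw [this, F.obj.map_comp]
    rfl
  sep V Y hY s t h := by
    refine TopCat.Sheaf.eq_of_locally_eq' (C := AddCommGrpCat.{0}) (X := X) F V Y
      (fun i => homOfLE (by rw [hY]; exact le_iSup V i)) (le_of_eq hY) s t ?_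
    intro i
    exact h i _
  glue V Y hY s h := by
    obtain ⟨t, ht, -⟩ := TopCat.Sheaf.existsUnique_gluing' (C := AddCommGrpCat.{0}) (X := X) F V Y
      (fun i => homOfLE (by rw [hY]; exact le_iSup V i)) (le_of_eq hY) s (fun i j => h i j _ _)
    exact ⟨t, fun i _ => ht i⟩

/-- A morphism of sheaves, in elementary terms. -/
noncomputable def toHom {F G : AbSh X} (f : F ⟶ G) : (toLSh F).Hom (toLSh G) where
  app U := (f.hom.app (op U)).hom
  nat h s := (NatTrans.naturality_apply f.hom (homOfLE h).op s).symm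

lemma toHom_inj {F G : AbSh X} (f : F ⟶ G) [Mono f] (U : Opens X)
    (s t : (toLSh F).obj U) (h : (toHom f).app U s = (toHom f).app U t) : s = t := by
  have hm : Mono ((sheafToPresheaf _ _ ⋙ (evaluation _ _).obj (op U)).map f) := inferInstance
  exact (AddCommGrpCat.mono_iff_injective _).1 hm h

lemma cokernel_exact {F G : AbSh X} (f : F ⟶ G) [Mono f] (U : Opens X)
    (s : (toLSh G).obj U) (hs : (toHom (cokernel.π f)).app U s = 0) :
    ∃ a : (toLSh F).obj U, (toHom f).app U a = s := by
  let S : ShortComplex (AbSh X) :=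
    ShortComplex.mk f (cokernel.π f) (cokernel.condition f)
  have hS : S.Exact := ShortComplex.exact_cokernel f
  let E : AbSh X ⥤ AddCommGrpCat.{0} :=
    sheafToPresheaf _ _ ⋙ (evaluation _ _).obj (op U)
  have hmono : Mono S.f := ‹Mono f›
  have h2 : (S.map E).Exact := hS.map_of_mono_of_preservesKernel E hmono inferInstance
  rw [ShortComplex.ab_exact_iff] at h2
  exact h2 s hs

lemma cokernel_zero {F G : AbSh X} (f : F ⟶ G) (U : Opens X)
    (s : (toLSh F).obj U) : (toHom (cokernel.π f)).app U ((toHom f).app U s) = 0 := by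
  have h1 : f ≫ cokernel.π f = 0 := cokernel.condition f
  have h2 : (f ≫ cokernel.π f).hom.app (op U) s = (0 : F ⟶ cokernel f).hom.app (op U) s := by
    rw [h1]
  exact h2

lemma cokernel_local {F G : AbSh X} (f : F ⟶ G) (U : Opens X)
    (t : (toLSh (cokernel f)).obj U) (x : X) (hx : x ∈ U) :
    ∃ (V : Opens X) (hV : V ≤ U) (_ : x ∈ V) (s : (toLSh G).obj V),
      (toHom (cokernel.π f)).app V s = (toLSh (cokernel f)).res hV t := by
  have h1 : Sheaf.IsLocallySurjective (cokernel.π f) :=
    (Sheaf.isLocallySurjective_iff_epi' AddCommGrpCat.{0} (cokernel.π f)).mpr inferInstance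
  obtain ⟨V, hV, ⟨s, hs⟩, hxV⟩ := (TopCat.Presheaf.isLocallySurjective_iff _).mp h1 U t x hx
  exact ⟨V, hV, hxV, s, hs⟩

/-- the free abelian presheaf on an open subset -/
noncomputable def ZP (X : TopCat.{0}) (W : Opens X) : (Opens X)ᵒᵖ ⥤ AddCommGrpCat.{0} :=
  ((Functor.whiskeringRight _ _ _).obj AddCommGrpCat.free).obj (yoneda.obj W)

/-- functoriality of `ZP` -/
noncomputable def ZPmap {X : TopCat.{0}} {V W : Opens X} (i : V ⟶ W) : ZP X V ⟶ ZP X W :=
  ((Functor.whiskeringRight _ _ _).obj AddCommGrpCat.free).map (yoneda.map i)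

/-- the free abelian sheaf on an open subset -/
noncomputable def ZS (X : TopCat.{0}) (W : Opens X) : AbSh X :=
  (presheafToSheaf (Opens.grothendieckTopology X) AddCommGrpCat.{0}).obj (ZP X W)

/-- functoriality of `ZS` -/
noncomputable def ZSmap {X : TopCat.{0}} {V W : Opens X} (i : V ⟶ W) : ZS X V ⟶ ZS X W :=
  (presheafToSheaf (Opens.grothendieckTopology X) AddCommGrpCat.{0}).map (ZPmap i)

instance {X : TopCat.{0}} {V W : Opens X} (i : V ⟶ W) : Mono (ZSmap i) := by
  have : Mono i := ⟨fun _ _ _ => Subsingleton.elim _ _⟩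
  have h : Mono ((presheafToSheaf (Opens.grothendieckTopology X) AddCommGrpCat.{0}).map
    (Functor.whiskerRight (yoneda.map i) (AddCommGrpCat.free.{0}))) := inferInstance
  exact h

/-- first step -/
noncomputable def e1 (I : AbSh X) (W : Opens X) : (ZS X W ⟶ I) ≃ (ZP X W ⟶ I.obj) :=
  (sheafificationAdjunction (Opens.grothendieckTopology X) AddCommGrpCat.{0}).homEquiv _ I

lemma e1_nat (I : AbSh X) {V W : Opens X} (i : V ⟶ W) (g : ZS X W ⟶ I) :
    e1 I V (ZSmap i ≫ g) = ZPmap i ≫ e1 I W g :=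
  Adjunction.homEquiv_naturality_left _ _ _

/-- second step -/
noncomputable def e2 (P : (Opens X)ᵒᵖ ⥤ AddCommGrpCat.{0}) (W : Opens X) :
    (ZP X W ⟶ P) ≃ (yoneda.obj W ⟶ P ⋙ forget AddCommGrpCat.{0}) :=
  (AddCommGrpCat.adj.whiskerRight _).homEquiv (yoneda.obj W) P

lemma e2_nat (P : (Opens X)ᵒᵖ ⥤ AddCommGrpCat.{0}) {V W : Opens X} (i : V ⟶ W)
    (g : ZP X W ⟶ P) : e2 P V (ZPmap i ≫ g) = yoneda.map i ≫ e2 P W g :=
  Adjunction.homEquiv_naturality_left _ _ _

/-- homomorphisms from the free abelian sheaf are sections -/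
noncomputable def homZZ (I : AbSh X) (W : Opens X) : (ZS X W ⟶ I) ≃ I.obj.obj (op W) :=
  (e1 I W).trans ((e2 I.obj W).trans yonedaEquiv)

lemma homZZ_nat (I : AbSh X) {V W : Opens X} (i : V ⟶ W) (g : ZS X W ⟶ I) :
    homZZ I V (ZSmap i ≫ g) = I.obj.map i.op (homZZ I W g) := by
  unfold homZZ
  rw [Equiv.trans_apply, Equiv.trans_apply, Equiv.trans_apply, Equiv.trans_apply, e1_nat, e2_nat]
  exact (yonedaEquiv_naturality _ i).symm

/-- Injective abelian sheaves are flasque. -/
lemma flasque_of_injective (I : AbSh X) [Injective I] : (toLSh I).Flasque := by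
  intro U V h s
  let f : ZS X V ⟶ I := (homZZ I V).symm s
  refine ⟨homZZ I U (Injective.factorThru f (ZSmap (homOfLE h))), ?_⟩
  have h1 := homZZ_nat I (homOfLE h) (Injective.factorThru f (ZSmap (homOfLE h)))
  rw [Injective.comp_factorThru] at h1
  refine Eq.trans h1.symm ?_
  exact (homZZ I V).apply_symm_apply s

end basic

end Pool.Agent.H924.Daff
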