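import Pool.Agent.H924.Daff.Acyc

/-!
Vanishing of the cohomology of abelian sheaves from the vanishing of Čech cohomology, continued.
-/

set_option autoImplicit false

open CategoryTheory TopologicalSpace Opposite Limits Abelian

namespace Pool.Agent.H924.Daff

section coch

variable {X : Type} [TopologicalSpace X] {τ : Type} {U : τ → Opens X}

/-- a section as a cochain with no index -/
def Coch.ofSec {F : LSh X} {Y : Opens X} (t : F.obj Y) : Coch U F 0 Y :=
  fun _ => F.res inf_le_left t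

lemma inter_empty (s : Fin 0 → τ) : inter U s = ⊤ := by
  unfold inter
  rw [iInf_of_empty]

/-- the section defined by a cochain with no index -/
def Coch.toSec {F : LSh X} {Y : Opens X} (c : Coch U F 0 Y) : F.obj Y :=
  F.res (by rw [inter_empty, inf_top_eq]) (c Fin.elim0)

lemma Coch.toSec_ofSec {F : LSh X} {Y : Opens X} (t : F.obj Y) :
    (Coch.ofSec t : Coch U F 0 Y).toSec = t := by
  unfold Coch.toSec Coch.ofSec
  rw [F.res_res, F.res_self]

lemma Coch.map_toSec {F G : LSh X} (φ : F.Hom G) {Y : Opens X} (c : Coch U F 0 Y) :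
    (c.map φ).toSec = φ.app _ c.toSec := by
  unfold Coch.toSec Coch.map
  rw [φ.nat]

lemma Coch.map_ofSec {F G : LSh X} (φ : F.Hom G) {Y : Opens X} (t : F.obj Y) :
    (Coch.ofSec t : Coch U F 0 Y).map φ = Coch.ofSec (φ.app _ t) := by
  apply Coch.ext
  intro s
  exact (φ.nat _ _).symm

lemma Coch.eq_zero_of_d {F : LSh X} {V : Opens X} (hV : V ≤ iSup U) (f : Coch U F 0 V)
    (hf : f.d = 0) : f = 0 := by
  apply Coch.ext
  intro s
  rw [Coch.zero_apply]
  refine F.sep (fun a => V ⊓ U a) (V ⊓ inter U s) ?_ (f s) 0 ?_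
  · rw [inter_empty, inf_top_eq, ← inf_iSup_eq]
    exact (inf_eq_left.2 hV).symm
  · intro a ha
    rw [map_zero]
    have h1 := congrFun hf (fun _ => a)
    rw [Coch.zero_apply] at h1
    unfold Coch.d at h1
    rw [Fin.sum_univ_one, Fin.val_zero, pow_zero, one_smul] at h1
    have h2 := congrArg (F.res (show V ⊓ U a ≤ V ⊓ inter U (fun _ : Fin (0 + 1) => a) from
      inf_le_inf_left _ (le_iInf fun _ => le_rfl))) h1
    rw [map_zero] at h2
    unfold Coch.val at h2
    rw [F.res_res] at h2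
    have h3 : ((fun _ : Fin (0 + 1) => a) ∘ Fin.succAbove 0) = s := Subsingleton.elim _ _
    rw [← h2]
    exact Coch.val_congr f h3.symm _ _

lemma Coch.d_ofSec {F : LSh X} {Y : Opens X} (t : F.obj Y) (s : Fin 1 → τ) :
    (Coch.ofSec t : Coch U F 0 Y).d s = F.res inf_le_left t := by
  unfold Coch.d Coch.ofSec Coch.val
  rw [Fin.sum_univ_one, Fin.val_zero, pow_zero, one_smul, F.res_res]

end coch

variable {X : TopCat.{0}}

/-- Admissible opens and coverings. -/
structure CovData (X : TopCat.{0}) where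
  B : Set (Opens X)
  K : ∀ (n : ℕ), (Fin n → Opens X) → Prop
  h1 : ∀ {n : ℕ} {U : Fin n → Opens X}, K n U → ∀ {m : ℕ} (s : Fin (m + 1) → Fin n),
    inter U s ∈ B
  h2 : ∀ W ∈ B, ∀ (P : Opens X → Prop), (∀ V V', V' ≤ V → P V → P V') →
    (∀ x ∈ W, ∃ V : Opens X, x ∈ V ∧ P V) →
    ∃ (n : ℕ) (U : Fin n → Opens X), K n U ∧ iSup U = W ∧ ∀ a, P (U a)

/-- The positive Čech cohomology of the sheaf vanishes for the admissible coverings. -/
def CovData.Good (D : CovData X) (F : AbSh X) : Prop :=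
  ∀ (n : ℕ) (U : Fin n → Opens X), D.K n U → ∀ m : ℕ, CechExact U (toLSh F) (m + 1) (iSup U)

section one

variable {F I : AbSh X} (ι : F ⟶ I) [Mono ι]

lemma coch_exact {τ : Type} {U : τ → Opens X} {n : ℕ} {Y : Opens X} (f : Coch U (toLSh I) n Y)
    (hf : f.map (toHom (cokernel.π ι)) = 0) : ∃ g : Coch U (toLSh F) n Y, g.map (toHom ι) = f := by
  have h1 : ∀ s, ∃ a : (toLSh F).obj (Y ⊓ inter U s), (toHom ι).app _ a = f s := fun s =>
    cokernel_exact ι _ (f s) (congrFun hf s)
  choose g hg using h1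
  exact ⟨g, Coch.ext hg⟩

lemma coch_inj {τ : Type} {U : τ → Opens X} {n : ℕ} {Y : Opens X} (f g : Coch U (toLSh F) n Y)
    (h : f.map (toHom ι) = g.map (toHom ι)) : f = g := by
  apply Coch.ext
  intro s
  exact toHom_inj ι _ _ _ (congrFun h s)

omit [Mono ι] in
lemma coch_pi_map {τ : Type} {U : τ → Opens X} {n : ℕ} {Y : Opens X} (f : Coch U (toLSh F) n Y) :
    (f.map (toHom ι)).map (toHom (cokernel.π ι)) = 0 := by
  apply Coch.ext
  intro s
  exact cokernel_zero ι _ _

lemma coch_map_zero {τ : Type} {U : τ → Opens X} {F G : AbSh X} (φ : (toLSh F).Hom (toLSh G))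
    {n : ℕ} {Y : Opens X} : (0 : Coch U (toLSh F) n Y).map φ = 0 := by
  apply Coch.ext
  intro s
  exact map_zero _

/-- Lifting of a section of the quotient which lifts over the members of a covering. -/
lemma lift_section {τ : Type} {U : τ → Opens X} {Y : Opens X} (hY : Y = iSup U)
    (hF : CechExact U (toLSh F) 1 Y)
    (t : (toLSh (cokernel ι)).obj Y)
    (ht : ∀ (a : τ) (V : Opens X) (_ : V ≤ U a) (h : V ≤ Y), ∃ s : (toLSh I).obj V,
      (toHom (cokernel.π ι)).app V s = (toLSh (cokernel ι)).res h t) :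
    ∃ s : (toLSh I).obj Y, (toHom (cokernel.π ι)).app Y s = t := by
  have h1 : ∀ s : Fin 1 → τ, ∃ f : (toLSh I).obj (Y ⊓ inter U s),
      (toHom (cokernel.π ι)).app _ f = (Coch.ofSec t : Coch U (toLSh (cokernel ι)) 0 Y).d s := by
    intro s
    obtain ⟨f, hf⟩ := ht (s 0) (Y ⊓ inter U s) (inf_le_right.trans (inter_le U s 0)) inf_le_left
    exact ⟨f, by rw [hf, Coch.d_ofSec]⟩
  choose f' hf' using h1
  obtain ⟨f, hf⟩ : ∃ f : Coch U (toLSh I) 1 Y, f.map (toHom (cokernel.π ι)) =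
    (Coch.ofSec t : Coch U (toLSh (cokernel ι)) 0 Y).d := ⟨f', Coch.ext hf'⟩
  obtain ⟨g, hg⟩ := coch_exact ι f.d (by rw [← Coch.map_d, hf, Coch.d_d])
  have hgd : g.d = 0 := by
    apply coch_inj ι
    rw [← Coch.map_d, hg, Coch.d_d, coch_map_zero]
  obtain ⟨h, hh⟩ := hF g hgd
  obtain ⟨c, hc⟩ := cechExact_zero (U := U) (toLSh I) Y (le_of_eq hY) (f - h.map (toHom ι)) (by
    rw [Coch.d_sub, Coch.map_d, hh, hg, sub_self])
  have h3 : c.map (toHom (cokernel.π ι)) = Coch.ofSec t := by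
    rw [← sub_eq_zero]
    refine Coch.eq_zero_of_d (le_of_eq hY) _ ?_
    rw [Coch.d_sub, Coch.map_d, hc, Coch.map_sub, coch_pi_map, sub_zero, hf, sub_self]
  refine ⟨c.toSec, ?_⟩
  rw [← Coch.map_toSec, h3, Coch.toSec_ofSec]

variable [Injective I]

omit [Injective I] in
/-- surjectivity over admissible opens -/
lemma surj_of_good (D : CovData X) (hF : D.Good F) (W : Opens X) (hW : W ∈ D.B)
    (t : (toLSh (cokernel ι)).obj W) :
    ∃ s : (toLSh I).obj W, (toHom (cokernel.π ι)).app W s = t := by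
  obtain ⟨n, U, hK, hU, hP⟩ := D.h2 W hW
    (fun V => ∃ (h : V ≤ W), ∃ s : (toLSh I).obj V,
      (toHom (cokernel.π ι)).app V s = (toLSh (cokernel ι)).res h t) (by
    rintro V V' hV' ⟨hV, s, hs⟩
    refine ⟨hV'.trans hV, (toLSh I).res hV' s, ?_⟩
    rw [← (toHom (cokernel.π ι)).nat, hs, (toLSh (cokernel ι)).res_res]) (by
    intro x hx
    obtain ⟨V, hV, hxV, s, hs⟩ := cokernel_local ι W t x hx
    exact ⟨V, hxV, hV, s, hs⟩)
  refine lift_section ι hU.symm (by rw [← hU]; exact hF n U hK 0) t ?_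
  intro a V hVa hV
  obtain ⟨hUW, s, hs⟩ := hP a
  refine ⟨(toLSh I).res hVa s, ?_⟩
  rw [← (toHom (cokernel.π ι)).nat, hs, (toLSh (cokernel ι)).res_res]

/-- the quotient is good -/
lemma good_cokernel (D : CovData X) (hF : D.Good F) : D.Good (cokernel ι) := by
  intro n U hK m f hf
  have h1 : ∀ s : Fin (m + 1 + 1) → Fin n, ∃ f' : (toLSh I).obj (iSup U ⊓ inter U s),
      (toHom (cokernel.π ι)).app _ f' = f s := by
    intro s
    apply surj_of_good ι D hF
    have h2 : iSup U ⊓ inter U s = inter U s :=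
      inf_eq_right.2 ((inter_le U s 0).trans (le_iSup U _))
    rw [h2]
    exact D.h1 hK s
  choose f'' hf'' using h1
  obtain ⟨f', hf'⟩ : ∃ f' : Coch U (toLSh I) (m + 1 + 1) (iSup U),
    f'.map (toHom (cokernel.π ι)) = f := ⟨f'', Coch.ext hf''⟩
  obtain ⟨g, hg⟩ := coch_exact ι f'.d (by rw [← Coch.map_d, hf', hf])
  have hgd : g.d = 0 := by
    apply coch_inj ι
    rw [← Coch.map_d, hg, Coch.d_d, coch_map_zero]
  obtain ⟨h, hh⟩ := hF n U hK (m + 1) g hgd
  obtain ⟨c, hc⟩ := cechExact_of_flasque (toLSh I) (flasque_of_injective I) (m + 1) (iSup U) le_rfl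
    (f' - h.map (toHom ι)) (by rw [Coch.d_sub, Coch.map_d, hh, hg, sub_self])
  refine ⟨c.map (toHom (cokernel.π ι)), ?_⟩
  rw [Coch.map_d, hc, Coch.map_sub, coch_pi_map, sub_zero, hf']

end one

/-- The vanishing theorem. -/
theorem H_subsingleton_of_good (D : CovData X) (n : ℕ) (U : Fin n → Opens X) (hK : D.K n U)
    (hU : iSup U = ⊤) (hUB : ∀ a, U a ∈ D.B) (F : AbSh X) (hF : D.Good F) (i : ℕ) :
    Subsingleton (Sheaf.H F (i + 1)) := by
  induction i generalizing F with
  | zero =>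
    let ι : F ⟶ Injective.under F := Injective.ι F
    let S : ShortComplex (AbSh X) := ShortComplex.mk ι (cokernel.π ι) (cokernel.condition ι)
    have hS : S.ShortExact :=
      { exact := ShortComplex.exact_cokernel ι
        mono_f := inferInstance
        epi_g := by dsimp [S]; infer_instance }
    have hT : IsTerminal (⊤ : Opens X) := isTerminalTop
    refine subsingleton_of_forall_eq 0 fun x => ?_
    have h1 : Ext.comp x (Ext.mk₀ S.f) (add_zero 1) = 0 := Ext.eq_zero_of_injective _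
    obtain ⟨y, hy⟩ := Ext.covariant_sequence_exact₁ _ hS x h1 (zero_add 1)
    -- lift y
    obtain ⟨s, hs⟩ := lift_section ι (U := U) (Y := ⊤) hU.symm
      (by have := hF n U hK 0; rwa [hU] at this) (Sheaf.H.equiv₀ (cokernel ι) hT y) (by
        intro a V hV hVt
        obtain ⟨s, hs⟩ := surj_of_good ι D hF (U a) (hUB a)
          ((toLSh (cokernel ι)).res le_top (Sheaf.H.equiv₀ (cokernel ι) hT y))
        refine ⟨(toLSh _).res hV s, ?_⟩
        rw [← (toHom (cokernel.π ι)).nat, hs, (toLSh (cokernel ι)).res_res])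
    have h2 : Sheaf.H.map (cokernel.π ι) 0 ((Sheaf.H.equiv₀ _ hT).symm s) = y := by
      rw [Sheaf.H.equiv₀_symm_naturality, AddEquiv.symm_apply_eq]
      exact hs
    rw [← hy, ← h2]
    have h3 : Sheaf.H.map (cokernel.π ι) 0 ((Sheaf.H.equiv₀ _ hT).symm s) =
      Ext.comp ((Sheaf.H.equiv₀ _ hT).symm s) (Ext.mk₀ S.g) (add_zero 0) := rfl
    rw [h3, Ext.comp_assoc_of_second_deg_zero, hS.comp_extClass, Ext.comp_zero]
  | succ i ih =>
    let ι : F ⟶ Injective.under F := Injective.ι F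
    let S : ShortComplex (AbSh X) := ShortComplex.mk ι (cokernel.π ι) (cokernel.condition ι)
    have hS : S.ShortExact :=
      { exact := ShortComplex.exact_cokernel ι
        mono_f := inferInstance
        epi_g := by dsimp [S]; infer_instance }
    refine subsingleton_of_forall_eq 0 fun x => ?_
    have h1 : Ext.comp x (Ext.mk₀ S.f) (add_zero (i + 1 + 1)) = 0 := Ext.eq_zero_of_injective _
    obtain ⟨y, hy⟩ := Ext.covariant_sequence_exact₁ _ hS x h1 (show i + 1 + 1 = i + 1 + 1 from rfl)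
    have := ih (cokernel ι) (good_cokernel ι D hF)
    have h2 : y = 0 := Subsingleton.elim (α := Sheaf.H (cokernel ι) (i + 1)) y 0
    rw [← hy, h2, Ext.zero_comp]

/-- If `H¹(X, F) = 0` then Čech one-cocycles are coboundaries. -/
theorem cech_one_of_H {τ : Type} [Finite τ] {U : τ → Opens X} (hU : iSup U = ⊤) (F : AbSh X)
    [Subsingleton (Sheaf.H F 1)] : CechExact U (toLSh F) 1 ⊤ := by
  let ι : F ⟶ Injective.under F := Injective.ι F
  let S : ShortComplex (AbSh X) := ShortComplex.mk ι (cokernel.π ι) (cokernel.condition ι)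
  have hS : S.ShortExact :=
    { exact := ShortComplex.exact_cokernel ι
      mono_f := inferInstance
      epi_g := by dsimp [S]; infer_instance }
  have hT : IsTerminal (⊤ : Opens X) := isTerminalTop
  intro c hc
  obtain ⟨t, ht⟩ := cechExact_of_flasque (toLSh (Injective.under F)) (flasque_of_injective _)
    (U := U) 1 ⊤ (le_of_eq hU.symm) (c.map (toHom ι)) (by
      rw [Coch.map_d, hc, coch_map_zero])
  obtain ⟨q, hq⟩ := cechExact_zero (U := U) (toLSh (cokernel ι)) ⊤ (le_of_eq hU.symm)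
    (t.map (toHom (cokernel.π ι))) (by
      rw [Coch.map_d, ht, coch_pi_map])
  -- lift q
  let x : Sheaf.H (cokernel ι) 0 := (Sheaf.H.equiv₀ _ hT).symm q.toSec
  have h1 : Ext.comp x hS.extClass (zero_add 1) = 0 :=
    Subsingleton.elim (α := Sheaf.H F 1) _ _
  obtain ⟨y, hy⟩ := Ext.covariant_sequence_exact₃ _ hS x (zero_add 1) h1
  let b : (toLSh (Injective.under F)).obj ⊤ := Sheaf.H.equiv₀ _ hT y
  have hb : (toHom (cokernel.π ι)).app ⊤ b = q.toSec := by
    have h2 : (toHom (cokernel.π ι)).app ⊤ b = Sheaf.H.equiv₀ _ hT (Sheaf.H.map (cokernel.π ι) 0 y) :=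
      Sheaf.H.equiv₀_naturality hT _ y
    rw [h2, Sheaf.H.map_apply]
    have h4 : Ext.comp y (Ext.mk₀ (cokernel.π ι)) (add_zero 0) = x := hy
    rw [h4]
    exact (Sheaf.H.equiv₀ _ hT).apply_symm_apply _
  have hq2 : q = Coch.ofSec q.toSec := by
    apply Coch.ext
    intro s
    rw [Subsingleton.elim s Fin.elim0]
    unfold Coch.ofSec Coch.toSec
    rw [(toLSh (cokernel ι)).res_res, (toLSh (cokernel ι)).res_self]
  obtain ⟨g, hg⟩ := coch_exact ι (t - (Coch.ofSec b : Coch U _ 0 ⊤).d) (by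
    rw [Coch.map_sub, ← hq, ← Coch.map_d, Coch.map_ofSec, hb, ← hq2, sub_self])
  refine ⟨g, ?_⟩
  apply coch_inj ι
  rw [← Coch.map_d, hg, Coch.d_sub, Coch.d_d, sub_zero, ht]

end Pool.Agent.H924.Daff
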