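import Mathlib

/-!
Abelian sheaves in elementary terms and their (augmented) Čech complexes.
-/

set_option autoImplicit false

open TopologicalSpace

namespace Pool.Agent.H924.Daff

/-- An abelian sheaf, in elementary terms. -/
structure LSh (X : Type) [TopologicalSpace X] where
  obj : Opens X → Type
  grp : ∀ U, AddCommGroup (obj U)
  res : ∀ {U V : Opens X}, V ≤ U → obj U →+ obj V
  res_self : ∀ {U : Opens X} (h : U ≤ U) (s : obj U), res h s = s
  res_res : ∀ {U V W : Opens X} (h : V ≤ U) (h' : W ≤ V) (s : obj U),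
    res h' (res h s) = res (h'.trans h) s
  sep : ∀ {ι : Type} (V : ι → Opens X) (Y : Opens X) (_ : Y = iSup V) (s t : obj Y),
    (∀ (i : ι) (h : V i ≤ Y), res h s = res h t) → s = t
  glue : ∀ {ι : Type} (V : ι → Opens X) (Y : Opens X) (_ : Y = iSup V) (s : ∀ i, obj (V i)),
    (∀ (i j : ι) (h : V i ⊓ V j ≤ V i) (h' : V i ⊓ V j ≤ V j), res h (s i) = res h' (s j)) →
    ∃ t : obj Y, ∀ (i : ι) (h : V i ≤ Y), res h t = s i

attribute [instance] LSh.grp

variable {X : Type} [TopologicalSpace X]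

/-- A morphism of sheaves. -/
structure LSh.Hom (F G : LSh X) where
  app : ∀ U, F.obj U →+ G.obj U
  nat : ∀ {U V : Opens X} (h : V ≤ U) (s : F.obj U), G.res h (app U s) = app V (F.res h s)

/-- Restriction maps are surjective. -/
def LSh.Flasque (F : LSh X) : Prop :=
  ∀ {U V : Opens X} (h : V ≤ U) (s : F.obj V), ∃ t : F.obj U, F.res h t = s

lemma LSh.sep2 (F : LSh X) {U V Y : Opens X} (hY : Y = U ⊔ V) (s t : F.obj Y)
    (hU : U ≤ Y) (hV : V ≤ Y)
    (h1 : F.res hU s = F.res hU t) (h2 : F.res hV s = F.res hV t) : s = t := by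
  refine F.sep (fun b : Bool => cond b U V) Y (by rw [hY, iSup_bool_eq]; rfl) s t ?_
  intro b h
  cases b
  · exact h2
  · exact h1

lemma LSh.glue2 (F : LSh X) {U V Y : Opens X} (hY : Y = U ⊔ V) (s : F.obj U) (t : F.obj V)
    (hU : U ≤ Y) (hV : V ≤ Y)
    (h : F.res (inf_le_left : U ⊓ V ≤ U) s = F.res (inf_le_right : U ⊓ V ≤ V) t) :
    ∃ c : F.obj Y, F.res hU c = s ∧ F.res hV c = t := by
  let sf : ∀ b : Bool, F.obj (cond b U V) := fun b =>
    match b with
    | true => s
    | false => t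
  obtain ⟨c, hc⟩ := F.glue (fun b : Bool => cond b U V) Y (by rw [hY, iSup_bool_eq]; rfl) sf (by
    intro i j h1 h2
    match i, j, h1, h2 with
    | true, true, _, _ => rfl
    | true, false, _, _ => exact h
    | false, true, h1, h2 =>
      have h3 := congrArg (F.res (le_inf inf_le_right inf_le_left : V ⊓ U ≤ U ⊓ V)) h
      rw [F.res_res, F.res_res] at h3
      exact h3.symm
    | false, false, _, _ => rfl)
  exact ⟨c, hc true hU, hc false hV⟩

variable {τ : Type} (U : τ → Opens X)

/-- the intersection of the members of the covering listed by `s` -/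
def inter {n : ℕ} (s : Fin n → τ) : Opens X := ⨅ i, U (s i)

lemma inter_le {n : ℕ} (s : Fin n → τ) (i : Fin n) : inter U s ≤ U (s i) := iInf_le _ i

lemma inter_le_comp {n m : ℕ} (s : Fin n → τ) (θ : Fin m → Fin n) :
    inter U s ≤ inter U (s ∘ θ) :=
  le_iInf fun i => iInf_le (fun j => U (s j)) (θ i)

lemma inf_inter_le {n m : ℕ} (Y : Opens X) (s : Fin n → τ) (θ : Fin m → Fin n) :
    Y ⊓ inter U s ≤ Y ⊓ inter U (s ∘ θ) := inf_le_inf_left _ (inter_le_comp U s θ)

/-- Cochains with `n` indices on `Y` -/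
def Coch (F : LSh X) (n : ℕ) (Y : Opens X) : Type := ∀ s : Fin n → τ, F.obj (Y ⊓ inter U s)

instance (F : LSh X) (n : ℕ) (Y : Opens X) : AddCommGroup (Coch U F n Y) :=
  Pi.addCommGroup

variable {U}

/-- restriction of cochains -/
def Coch.rs {F : LSh X} {n : ℕ} {Y Y' : Opens X} (h : Y' ≤ Y) (f : Coch U F n Y) :
    Coch U F n Y' := fun s => F.res (inf_le_inf_right _ h) (f s)

/-- the value of a cochain on a larger intersection -/
def Coch.val {F : LSh X} {n : ℕ} {Y : Opens X} (f : Coch U F n Y) (s : Fin n → τ)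
    {V : Opens X} (h : V ≤ Y ⊓ inter U s) : F.obj V := F.res h (f s)

lemma Coch.val_congr {F : LSh X} {n : ℕ} {Y : Opens X} (f : Coch U F n Y) {s s' : Fin n → τ}
    (hs : s = s') {V : Opens X} (h : V ≤ Y ⊓ inter U s) (h' : V ≤ Y ⊓ inter U s') :
    f.val s h = f.val s' h' := by
  subst hs
  rfl

/-- the differential -/
def Coch.d {F : LSh X} {n : ℕ} {Y : Opens X} (f : Coch U F n Y) : Coch U F (n + 1) Y :=
  fun s => ∑ i : Fin (n + 1), (-1 : ℤ) ^ (i : ℕ) • f.val (s ∘ i.succAbove)
    (inf_inter_le U Y s i.succAbove)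

lemma Coch.ext {F : LSh X} {n : ℕ} {Y : Opens X} {f g : Coch U F n Y}
    (h : ∀ s, f s = g s) : f = g := funext h

lemma Coch.add_apply {F : LSh X} {n : ℕ} {Y : Opens X} (f g : Coch U F n Y) (s) :
    (f + g) s = f s + g s := rfl

lemma Coch.sub_apply {F : LSh X} {n : ℕ} {Y : Opens X} (f g : Coch U F n Y) (s) :
    (f - g) s = f s - g s := rfl

lemma Coch.zero_apply {F : LSh X} {n : ℕ} {Y : Opens X} (s) :
    (0 : Coch U F n Y) s = 0 := rfl

lemma Coch.d_add {F : LSh X} {n : ℕ} {Y : Opens X} (f g : Coch U F n Y) :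
    (f + g).d = f.d + g.d := by
  apply Coch.ext
  intro s
  rw [Coch.add_apply]
  unfold Coch.d
  rw [← Finset.sum_add_distrib]
  refine Finset.sum_congr rfl fun i _ => ?_
  rw [← smul_add]
  unfold Coch.val
  rw [← map_add]
  rfl

lemma Coch.d_sub {F : LSh X} {n : ℕ} {Y : Opens X} (f g : Coch U F n Y) :
    (f - g).d = f.d - g.d := by
  apply Coch.ext
  intro s
  rw [Coch.sub_apply]
  unfold Coch.d
  rw [← Finset.sum_sub_distrib]
  refine Finset.sum_congr rfl fun i _ => ?_
  rw [← smul_sub]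
  unfold Coch.val
  rw [← map_sub]
  rfl

lemma Coch.rs_d {F : LSh X} {n : ℕ} {Y Y' : Opens X} (h : Y' ≤ Y) (f : Coch U F n Y) :
    (f.rs h).d = f.d.rs h := by
  apply Coch.ext
  intro s
  unfold Coch.d Coch.rs Coch.val
  simp only []
  rw [map_sum]
  refine Finset.sum_congr rfl fun i _ => ?_
  rw [map_zsmul]
  congr 1
  rw [F.res_res, F.res_res]

lemma Coch.rs_sub {F : LSh X} {n : ℕ} {Y Y' : Opens X} (h : Y' ≤ Y) (f g : Coch U F n Y) :
    (f - g).rs h = f.rs h - g.rs h := by
  apply Coch.ext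
  intro s
  exact map_sub _ _ _

lemma Coch.rs_add {F : LSh X} {n : ℕ} {Y Y' : Opens X} (h : Y' ≤ Y) (f g : Coch U F n Y) :
    (f + g).rs h = f.rs h + g.rs h := by
  apply Coch.ext
  intro s
  exact map_add _ _ _

lemma Coch.rs_rs {F : LSh X} {n : ℕ} {Y Y' Y'' : Opens X} (h : Y' ≤ Y) (h' : Y'' ≤ Y')
    (f : Coch U F n Y) : (f.rs h).rs h' = f.rs (h'.trans h) := by
  apply Coch.ext
  intro s
  exact F.res_res _ _ _

lemma Coch.rs_self {F : LSh X} {n : ℕ} {Y : Opens X} (h : Y ≤ Y)
    (f : Coch U F n Y) : f.rs h = f := by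
  apply Coch.ext
  intro s
  exact F.res_self _ _

/-- the image of a cochain -/
def Coch.map {F G : LSh X} (φ : F.Hom G) {n : ℕ} {Y : Opens X} (f : Coch U F n Y) :
    Coch U G n Y := fun s => φ.app _ (f s)

lemma Coch.map_d {F G : LSh X} (φ : F.Hom G) {n : ℕ} {Y : Opens X} (f : Coch U F n Y) :
    (f.map φ).d = f.d.map φ := by
  apply Coch.ext
  intro s
  unfold Coch.d Coch.map Coch.val
  simp only []
  rw [map_sum]
  refine Finset.sum_congr rfl fun i _ => ?_
  rw [map_zsmul, φ.nat]

lemma Coch.map_sub {F G : LSh X} (φ : F.Hom G) {n : ℕ} {Y : Opens X} (f g : Coch U F n Y) :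
    (f - g).map φ = f.map φ - g.map φ := by
  apply Coch.ext
  intro s
  exact _root_.map_sub _ _ _

lemma Coch.rs_map {F G : LSh X} (φ : F.Hom G) {n : ℕ} {Y Y' : Opens X} (h : Y' ≤ Y)
    (f : Coch U F n Y) : (f.map φ).rs h = (f.rs h).map φ := by
  apply Coch.ext
  intro s
  exact φ.nat _ _

/-- the square of the differential is zero -/
lemma Coch.d_d {F : LSh X} {n : ℕ} {Y : Opens X} (f : Coch U F n Y) : f.d.d = 0 := by
  apply Coch.ext
  intro s
  rw [Coch.zero_apply]
  have h1 : f.d.d s = ∑ i : Fin (n + 2), ∑ j : Fin (n + 1), (-1 : ℤ) ^ ((i : ℕ) + (j : ℕ)) •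
      f.val ((s ∘ i.succAbove) ∘ j.succAbove)
        ((inf_inter_le U Y s i.succAbove).trans (inf_inter_le U Y (s ∘ i.succAbove) j.succAbove)) := by
    unfold Coch.d Coch.val
    refine Finset.sum_congr rfl fun i _ => ?_
    rw [map_sum, Finset.smul_sum]
    refine Finset.sum_congr rfl fun j _ => ?_
    rw [map_zsmul, F.res_res, smul_smul, ← pow_add]
  rw [h1, ← Finset.sum_product']
  refine Finset.sum_involution (fun x _ => if h : (x.2 : ℕ) < (x.1 : ℕ) then
      (⟨x.2.castSucc, ⟨(x.1 : ℕ) - 1, by have := x.1.2; omega⟩⟩ : Fin (n + 2) × Fin (n + 1)) else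
      (⟨x.2.succ, ⟨(x.1 : ℕ), by have := x.2.2; omega⟩⟩ : Fin (n + 2) × Fin (n + 1))) ?_ ?_ ?_ ?_
  · rintro ⟨i, j⟩ _
    by_cases h : (j : ℕ) < (i : ℕ)
    · simp only [h, dite_true]
      have hij : ((s ∘ (j.castSucc).succAbove) ∘
          (⟨(i : ℕ) - 1, by have := i.2; omega⟩ : Fin (n + 1)).succAbove) =
          ((s ∘ i.succAbove) ∘ j.succAbove) := by
        funext l
        simp only [Function.comp_apply]
        congr 1
        apply Fin.ext
        simp only [Fin.succAbove, Fin.lt_def, Fin.val_castSucc]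
        split_ifs <;> simp_all <;> omega
      rw [Coch.val_congr f hij.symm _ (by
        rw [hij]
        exact ((inf_inter_le U Y s i.succAbove).trans
          (inf_inter_le U Y (s ∘ i.succAbove) j.succAbove)))]
      rw [← add_smul]
      have : (-1 : ℤ) ^ ((i : ℕ) + (j : ℕ)) + (-1) ^ (((j.castSucc : Fin (n + 2)) : ℕ) + ((i : ℕ) - 1)) = 0 := by
        obtain ⟨i', hi'⟩ : ∃ i', (i : ℕ) = i' + 1 := ⟨(i : ℕ) - 1, by omega⟩
        rw [hi', Fin.val_castSucc]
        simp only [Nat.add_sub_cancel]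
        ring
      simp only [this, zero_smul]
    · simp only [h, dite_false]
      have hij : ((s ∘ (j.succ).succAbove) ∘
          (⟨(i : ℕ), by have := j.2; omega⟩ : Fin (n + 1)).succAbove) =
          ((s ∘ i.succAbove) ∘ j.succAbove) := by
        funext l
        simp only [Function.comp_apply]
        congr 1
        apply Fin.ext
        simp only [Fin.succAbove, Fin.lt_def, Fin.val_castSucc]
        split_ifs <;> simp_all <;> omega
      rw [Coch.val_congr f hij.symm _ (by
        rw [hij]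
        exact ((inf_inter_le U Y s i.succAbove).trans
          (inf_inter_le U Y (s ∘ i.succAbove) j.succAbove)))]
      rw [← add_smul]
      have : (-1 : ℤ) ^ ((i : ℕ) + (j : ℕ)) + (-1) ^ (((j.succ : Fin (n + 2)) : ℕ) + (i : ℕ)) = 0 := by
        rw [Fin.val_succ]
        ring
      simp only [this, zero_smul]
  · rintro ⟨i, j⟩ _ _
    by_cases h : (j : ℕ) < (i : ℕ)
    · simp only [h, dite_true]
      intro h'
      have := congrArg (fun x : Fin (n + 2) × Fin (n + 1) => (x.1 : ℕ)) h'
      simp at this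
      omega
    · simp only [h, dite_false]
      intro h'
      have := congrArg (fun x : Fin (n + 2) × Fin (n + 1) => (x.1 : ℕ)) h'
      simp at this
      omega
  · intro _ _
    exact Finset.mem_univ _
  · rintro ⟨i, j⟩ _
    by_cases h : (j : ℕ) < (i : ℕ)
    · simp only [h, dite_true]
      have h2 : ¬ ((i : ℕ) - 1 < ((j.castSucc : Fin (n + 2)) : ℕ)) := by
        rw [Fin.val_castSucc]; omega
      simp only [h2, dite_false, Prod.mk.injEq]
      refine ⟨?_, ?_⟩
      · apply Fin.ext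
        simp only [Fin.val_succ]
        omega
      · apply Fin.ext
        simp
    · simp only [h, dite_false]
      have h2 : ((i : ℕ) < ((j.succ : Fin (n + 2)) : ℕ)) := by
        rw [Fin.val_succ]; omega
      simp only [h2, dite_true, Prod.mk.injEq]
      refine ⟨?_, ?_⟩
      · apply Fin.ext
        simp
      · apply Fin.ext
        simp

/-- the contraction of the complex on an open contained in a member of the covering -/
lemma Coch.contract {F : LSh X} {n : ℕ} {Y : Opens X} (a : τ) (hY : Y ≤ U a)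
    (f : Coch U F (n + 1) Y) (hf : f.d = 0) : ∃ g : Coch U F n Y, g.d = f := by
  have hle : ∀ s : Fin n → τ, Y ⊓ inter U s ≤ Y ⊓ inter U (Fin.cons a s : Fin (n + 1) → τ) := by
    intro s
    refine le_inf inf_le_left (le_iInf fun i => ?_)
    refine Fin.cases ?_ (fun j => ?_) i
    · rw [Fin.cons_zero]
      exact inf_le_left.trans hY
    · rw [Fin.cons_succ]
      exact inf_le_right.trans (inter_le U s j)
  refine ⟨fun s => f.val (Fin.cons a s) (hle s), ?_⟩
  apply Coch.ext
  intro s
  have h1 := congrFun hf (Fin.cons a s : Fin (n + 2) → τ)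
  have h2 := congrArg (F.res (show Y ⊓ inter U s ≤ Y ⊓ inter U (Fin.cons a s : Fin (n + 2) → τ) by
    refine le_inf inf_le_left (le_iInf fun i => ?_)
    refine Fin.cases ?_ (fun j => ?_) i
    · rw [Fin.cons_zero]
      exact inf_le_left.trans hY
    · rw [Fin.cons_succ]
      exact inf_le_right.trans (inter_le U s j))) h1
  rw [Coch.zero_apply, map_zero] at h2
  unfold Coch.d at h2
  rw [map_sum, Fin.sum_univ_succ] at h2
  unfold Coch.d
  have h3 : F.res (show Y ⊓ inter U s ≤ Y ⊓ inter U (Fin.cons a s : Fin (n + 2) → τ) by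
    refine le_inf inf_le_left (le_iInf fun i => ?_)
    refine Fin.cases ?_ (fun j => ?_) i
    · rw [Fin.cons_zero]
      exact inf_le_left.trans hY
    · rw [Fin.cons_succ]
      exact inf_le_right.trans (inter_le U s j)) ((-1 : ℤ) ^ ((0 : Fin (n + 2)) : ℕ) •
        f.val ((Fin.cons a s : Fin (n + 2) → τ) ∘ (0 : Fin (n + 2)).succAbove)
        (inf_inter_le U Y _ _)) = f s := by
    rw [Fin.val_zero, pow_zero, one_smul]
    unfold Coch.val
    rw [F.res_res]
    have h4 : ((Fin.cons a s : Fin (n + 2) → τ) ∘ (0 : Fin (n + 2)).succAbove) = s := by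
      funext i
      simp
    exact (Coch.val_congr f h4 _ le_rfl).trans (F.res_self _ _)
  rw [h3] at h2
  rw [eq_comm, ← sub_eq_zero, sub_eq_add_neg, ← h2, ← Finset.sum_neg_distrib]
  congr 1
  refine Finset.sum_congr rfl fun i _ => ?_
  rw [map_zsmul, Fin.val_succ, pow_succ, mul_neg_one, neg_smul]
  congr 2
  unfold Coch.val
  rw [F.res_res, F.res_res]
  refine Coch.val_congr f ?_ _ _
  funext j
  refine Fin.cases ?_ (fun l => ?_) j
  · simp
  · simp

end Pool.Agent.H924.Daff
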