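import Pool.Agent.H924.Daff.DVan

/-!
`D`-affinity from global differential operators: generation by global sections.
-/

set_option autoImplicit false

open CategoryTheory TopologicalSpace Opposite Limits AlgebraicGeometry

namespace Pool.Agent.H924.Daff

open Pool.Agent.H835R3.Stmt Stmt

variable {X : Scheme.{0}} {p : ℕ} (M : DMod X p)

lemma restr_restr {U V W : X.Opens} (h : V ≤ U) (h' : W ≤ V) (s : Sections M.sh U) :
    restr M.sh h' (restr M.sh h s) = restr M.sh (h'.trans h) s :=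
  (toLSh M.sh).res_res h h' s

lemma restr_self {U : X.Opens} (h : U ≤ U) (s : Sections M.sh U) :
    restr M.sh h s = s := (toLSh M.sh).res_self h s

lemma smul_add' {U : X.Opens} (f : Sec U) (s t : Sections M.sh U) :
    M.smul f (s + t) = M.smul f s + M.smul f t := M.act_add _ _ _ _ _

lemma smul_sub' {U : X.Opens} (f : Sec U) (s t : Sections M.sh U) :
    M.smul f (s - t) = M.smul f s - M.smul f t :=
  map_sub (AddMonoidHom.mk' (fun s => M.smul f s) (smul_add' M f)) s t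

lemma smul_mul' {U : X.Opens} (f g : Sec U) (s : Sections M.sh U) :
    M.smul (f * g) s = M.smul f (M.smul g s) := by
  unfold DMod.smul
  rw [← M.comp_act, ← mulEnd_mul]

lemma smul_zero' {U : X.Opens} (f : Sec U) : M.smul f (0 : Sections M.sh U) = 0 :=
  map_zero (AddMonoidHom.mk' (fun s => M.smul f s) (smul_add' M f))

lemma smul_one' {U : X.Opens} (s : Sections M.sh U) : M.smul (1 : Sec U) s = s := by
  unfold DMod.smul
  rw [mulEnd_one, M.one_act]

lemma restr_smul {U V : X.Opens} (h : V ≤ U) (f : Sec U) (s : Sections M.sh U) :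
    restr M.sh h (M.smul f s) = M.smul (rho h f) (restr M.sh h s) := by
  unfold DMod.smul
  rw [M.restr_act, powRes_mulEnd]

variable {τ : Type} [Fintype τ] (D : DPart X p τ)

lemma DPart.rho_ml (a b c : τ) {V : X.Opens} (ha : V ≤ D.U a) (hb : V ≤ D.U b) :
    rho ha (D.m a c) = rho (le_inf ha hb) (D.l a b) * rho hb (D.m b c) := by
  have h1 := congrArg (rho (le_inf ha hb)) (D.hml a b c)
  have h2 : rho (le_inf ha hb) (D.l a b * rho inf_le_right (D.m b c)) =
    rho (le_inf ha hb) (D.l a b) * rho (le_inf ha hb) (rho inf_le_right (D.m b c)) := map_mul _ _ _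
  rw [rho_rho, h2, rho_rho] at h1
  exact h1

/-- the members of the covering are affine -/
lemma DPart.aff1 (a : τ) : IsAffineOpen (D.U a) := by
  have h1 := D.haff (fun _ : Fin (0 + 1) => a)
  have h2 : (inter D.U (fun _ : Fin (0 + 1) => a) : X.Opens) = D.U a := by
    unfold inter
    rw [iInf_const]
  rwa [h2] at h1

lemma DPart.aff2 (a b : τ) : IsAffineOpen (D.U a ⊓ D.U b) := by
  have h1 := D.haff (![a, b] : Fin (1 + 1) → τ)
  have h2 : (inter D.U (![a, b] : Fin (1 + 1) → τ) : X.Opens) = D.U a ⊓ D.U b := by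
    unfold inter
    apply le_antisymm
    · exact le_inf (iInf_le _ (0 : Fin 2)) (iInf_le _ (1 : Fin 2))
    · refine le_iInf fun i => ?_
      fin_cases i
      · exact inf_le_left
      · exact inf_le_right
  rwa [h2] at h1

/-- extension of a section over `U a₀` to a section of a twist -/
lemma DPart.extend (hM : M.IsQuasiCoherent) (a₀ : τ) (t : Sections M.sh (D.U a₀)) :
    ∃ (N : ℕ) (s : ∀ b, Sections M.sh (D.U b)), s a₀ = t ∧
      ∀ a b, restr M.sh (inf_le_left : D.U a ⊓ D.U b ≤ D.U a) (s a) =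
        M.smul (D.l a b ^ (N + 1))
          (restr M.sh (inf_le_right : D.U a ⊓ D.U b ≤ D.U b) (s b)) := by
  let Q := toQMod M hM
  -- first step
  have h1 : ∃ N : ℕ, ∀ b, ∃ s : Sections M.sh (D.U b),
      restr M.sh (inf_le_left : D.U b ⊓ D.U a₀ ≤ D.U b) s =
        M.smul (rho inf_le_left (D.m b a₀) ^ N) (restr M.sh inf_le_right t) := by
    apply PartData.exists_uniform
    · rintro b N N' hN ⟨s, hs⟩
      refine ⟨M.smul (D.m b a₀ ^ (N' - N)) s, ?_⟩
      rw [restr_smul, hs, rho_pow, ← smul_mul', ← pow_add, Nat.sub_add_cancel hN]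
    · intro b
      have h2 : (D.U b ⊓ D.U a₀ : X.Opens) = X.basicOpen (D.m b a₀) := by
        rw [D.hm b a₀ (D.U b) le_rfl, rho_self]
      obtain ⟨N, s, hs⟩ := Q.qc2 (D.aff1 b) (D.m b a₀) (D.U b ⊓ D.U a₀) h2 inf_le_left
        (restr M.sh inf_le_right t)
      exact ⟨N, s, hs⟩
  obtain ⟨N, hN⟩ := h1
  choose s hs using hN
  -- second step
  have h2 : ∃ N' : ℕ, ∀ q : τ × τ, M.smul (rho inf_le_left (D.m q.1 a₀) ^ N')
      (restr M.sh (inf_le_left : D.U q.1 ⊓ D.U q.2 ≤ D.U q.1) (s q.1) -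
        M.smul (D.l q.1 q.2 ^ N) (restr M.sh (inf_le_right : D.U q.1 ⊓ D.U q.2 ≤ D.U q.2) (s q.2))) =
        0 := by
    apply PartData.exists_uniform
    · rintro ⟨a, b⟩ N₁ N₂ hN h
      simp only at h ⊢
      rw [← Nat.sub_add_cancel hN, pow_add, smul_mul', h, smul_zero']
    · rintro ⟨a, b⟩
      have h3 : ((D.U a ⊓ D.U b) ⊓ D.U a₀ : X.Opens) = X.basicOpen (rho inf_le_left (D.m a a₀) :
          Sec (D.U a ⊓ D.U b)) := D.hm a a₀ (D.U a ⊓ D.U b) inf_le_left
      obtain ⟨N', hN'⟩ := Q.qc1 (D.aff2 a b) (rho inf_le_left (D.m a a₀) : Sec (D.U a ⊓ D.U b))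
        ((D.U a ⊓ D.U b) ⊓ D.U a₀) h3 inf_le_left
        (restr M.sh (inf_le_left : D.U a ⊓ D.U b ≤ D.U a) (s a) -
        M.smul (D.l a b ^ N) (restr M.sh (inf_le_right : D.U a ⊓ D.U b ≤ D.U b) (s b))) (by
          have h4 : ∀ (c : τ) (V : X.Opens) (hc : V ≤ D.U c) (h0 : V ≤ D.U a₀),
              restr M.sh hc (s c) = M.smul (rho hc (D.m c a₀) ^ N) (restr M.sh h0 t) := by
            intro c V hc h0
            have h5 := congrArg (restr M.sh (le_inf hc h0)) (hs c)
            rw [restr_restr, restr_smul, rho_pow, rho_rho, restr_restr] at h5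
            exact h5
          show restr M.sh inf_le_left _ = 0
          rw [map_sub, sub_eq_zero, restr_smul, restr_restr, restr_restr,
            h4 a _ _ inf_le_right, h4 b _ _ inf_le_right, ← smul_mul', rho_pow, ← mul_pow]
          congr 2
          exact D.rho_ml a b a₀ _ _)
      exact ⟨N', hN'⟩
  obtain ⟨N₀, hN₀⟩ := h2
  obtain ⟨N', hN'eq⟩ : ∃ N' : ℕ, N' = N₀ + 1 := ⟨_, rfl⟩
  have hN' : ∀ q : τ × τ, M.smul (rho inf_le_left (D.m q.1 a₀) ^ N')
      (restr M.sh (inf_le_left : D.U q.1 ⊓ D.U q.2 ≤ D.U q.1) (s q.1) -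
        M.smul (D.l q.1 q.2 ^ N) (restr M.sh (inf_le_right : D.U q.1 ⊓ D.U q.2 ≤ D.U q.2) (s q.2))) =
        0 := by
    intro q
    rw [hN'eq, pow_succ', smul_mul', hN₀, smul_zero']
  refine ⟨N + N₀, fun b => M.smul (D.m b a₀ ^ N') (s b), ?_, ?_⟩
  · show M.smul (D.m a₀ a₀ ^ N') (s a₀) = t
    rw [D.hm1, one_pow, smul_one']
    have h3 := congrArg (restr M.sh (le_inf le_rfl le_rfl : D.U a₀ ≤ D.U a₀ ⊓ D.U a₀)) (hs a₀)
    rw [restr_restr, restr_self, restr_smul, restr_restr, restr_self, D.hm1] at h3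
    rw [h3]
    have h4 : rho (le_inf le_rfl le_rfl : D.U a₀ ≤ D.U a₀ ⊓ D.U a₀)
        ((rho inf_le_left (1 : Sec (D.U a₀))) ^ N) = 1 := by
      rw [rho_pow, rho_rho, rho_self, one_pow]
    rw [h4, smul_one']
  · intro a b
    show restr M.sh _ (M.smul (D.m a a₀ ^ N') (s a)) =
      M.smul _ (restr M.sh _ (M.smul (D.m b a₀ ^ N') (s b)))
    have h3 := hN' (a, b)
    simp only at h3
    rw [smul_sub', sub_eq_zero] at h3
    rw [restr_smul, rho_pow, h3, restr_smul, rho_pow, ← smul_mul', ← smul_mul']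
    congr 1
    have h4 := D.rho_ml a b a₀ (V := D.U a ⊓ D.U b) inf_le_left inf_le_right
    have h5 : rho (le_inf inf_le_left inf_le_right) (D.l a b) = D.l a b := rho_self _ _
    rw [h5] at h4
    rw [h4, show N + N₀ + 1 = N + N' by rw [hN'eq]; ring]
    ring

/-- The generation part of `D`-affinity. -/
theorem DPart.generated (hD : iSup D.U = ⊤) (hM : M.IsQuasiCoherent) :
    M.IsGloballyGenerated := by
  -- sections over the charts
  have key : ∀ (a₀ : τ) (t : Sections M.sh (D.U a₀)), ∃ (e n : ℕ)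
      (φ : Fin n → PowEnd (p ^ e) (D.U a₀)) (g : Fin n → Sections M.sh ⊤),
      t = ∑ i, M.act e (D.U a₀) (φ i) (restr M.sh le_top (g i)) := by
    intro a₀ t
    obtain ⟨N, s, hs0, hs⟩ := D.extend M hM a₀ t
    have h1 : ∀ j : Fin (D.J N), ∃ g : Sections M.sh ⊤, ∀ b,
        restr M.sh le_top g = M.act (D.e' N) (D.U b) (D.A N j b) (s b) := by
      intro j
      obtain ⟨g, hg⟩ := (toLSh M.sh).glue D.U ⊤ hD.symm
        (fun b => M.act (D.e' N) (D.U b) (D.A N j b) (s b)) (by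
          intro a b h h'
          show restr M.sh _ _ = restr M.sh _ _
          rw [M.restr_act, M.restr_act, D.hAl N j a b, M.comp_act, ← smul_eq, ← hs a b])
      exact ⟨g, fun b => hg b le_top⟩
    choose g hg using h1
    refine ⟨D.e' N, D.J N, fun j => D.B N j a₀, g, ?_⟩
    have h2 : ∀ j, M.act (D.e' N) (D.U a₀) (D.B N j a₀) (restr M.sh le_top (g j)) =
        M.act (D.e' N) (D.U a₀) (compEnd (D.B N j a₀) (D.A N j a₀)) t := by
      intro j
      rw [hg j a₀, hs0, M.comp_act]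
    rw [Finset.sum_congr rfl (fun j _ => h2 j), ← act_sum, D.hAB, M.one_act]
  intro U m x hx
  have hxa : x ∈ iSup D.U := by rw [hD]; trivial
  obtain ⟨a₀, ha₀⟩ := Opens.mem_iSup.1 hxa
  obtain ⟨f, hf1, hf2⟩ := IsAffineOpen.exists_basicOpen_le (D.aff1 a₀) (V := U) ⟨x, hx⟩ ha₀
  obtain ⟨n, t, ht⟩ := (hM _ (D.aff1 a₀) f).2 (restr M.sh hf1 m)
  obtain ⟨e, k, φ, g, hg⟩ := key a₀ t
  have hu : IsUnit (rho (X.basicOpen_le f) f) := X.toRingedSpace.isUnit_res_basicOpen f
  obtain ⟨v, hv⟩ := hu.exists_right_inv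
  refine ⟨X.basicOpen f, hf1, hf2, e, k,
    fun i => compEnd (mulEnd (p ^ e) (v ^ n)) (powRes (p ^ e) (X.basicOpen_le f) (φ i)), g, ?_⟩
  have h1 : restr M.sh hf1 m = M.smul (v ^ n) (restr M.sh (X.basicOpen_le f) t) := by
    rw [ht, ← smul_mul', ← mul_pow, mul_comm v, hv, one_pow, smul_one']
  rw [h1, hg, map_sum]
  have h2 : ∀ (u : Finset (Fin k)) (y : Fin k → Sections M.sh (X.basicOpen f)),
      M.smul (v ^ n) (∑ i ∈ u, y i) = ∑ i ∈ u, M.smul (v ^ n) (y i) := fun u y =>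
    map_sum (AddMonoidHom.mk' (fun s => M.smul (v ^ n) s) (smul_add' M (v ^ n))) y u
  rw [h2]
  refine Finset.sum_congr rfl fun i _ => ?_
  rw [smul_eq (e := e), M.comp_act, M.restr_act, restr_restr]

/-- `D`-affinity from the data of global differential operators. -/
theorem DPart.isDAffine {n : ℕ} (D : DPart X p (Fin n)) (hD : iSup D.U = ⊤) : IsDAffine X p :=
  fun M hM => ⟨D.generated M hD hM, fun i => D.vanish M hD hM i⟩

end Pool.Agent.H924.Daff
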