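import Pool.Graph.R_seed8.H835R3.Stmt

/-!
# `D`-modules and `D`-affine schemes in characteristic `p`

Definitions used in the statement of the result on `MP_5ac764_ag`, question Q2. The groups
`PowEnd (p ^ e) U` of sections of `D_X^{(e)} = End_{O_X^{p^e}}(O_X)` over an open `U`, the
inclusions `powIncl` and the restrictions `powRes` are those of
`Pool.Graph.R_seed8.H835R3.Stmt`.
-/

set_option autoImplicit false

open CategoryTheory AlgebraicGeometry TopologicalSpace Opposite

namespace Pool.Agent.H924.Daff.Stmt

open Pool.Agent.H835R3.Stmt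

/-- The identity of `O_X|_U`, as a section of `End_{O_X^q}(O_X)` over `U`. -/
noncomputable def oneEnd {X : Scheme.{0}} (q : ℕ) (U : X.Opens) : PowEnd q U :=
  PowEnd.mk (fun V => (1 : AddMonoid.End (Sec V.op))) ⟨fun _ _ _ _ => rfl, fun _ _ _ => rfl⟩

/-- The composition `φ ∘ ψ` of two sections of `End_{O_X^q}(O_X)` over `U`. -/
noncomputable def compEnd {X : Scheme.{0}} {q : ℕ} {U : X.Opens} (φ ψ : PowEnd q U) :
    PowEnd q U :=
  PowEnd.mk (fun V => ((show AddMonoid.End (Sec V.op) from φ.fam V) *
      (show AddMonoid.End (Sec V.op) from ψ.fam V) : AddMonoid.End (Sec V.op)))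
    ⟨fun V W h s => (φ.prop.1 V W h ((ψ.fam V).ap s)).trans
        (congrArg (fun t => (φ.fam W).ap t) (ψ.prop.1 V W h s)),
      fun V a s => (congrArg (fun t => (φ.fam V).ap t) (ψ.prop.2 V a s)).trans
        (φ.prop.2 V a ((ψ.fam V).ap s))⟩

lemma below_le {X : Scheme.{0}} {U : X.Opens} (V : Below U) : V.op ≤ U := V.2

/-- The multiplication by a function `f ∈ O_X(U)`, as a section of `End_{O_X^q}(O_X)` over `U`. -/
noncomputable def mulEnd {X : Scheme.{0}} (q : ℕ) {U : X.Opens} (f : Sec U) : PowEnd q U :=
  PowEnd.mk (fun V => (AddMonoidHom.mulLeft (rho (below_le V) f : Sec V.op) : AddMonoid.End (Sec V.op)))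
    ⟨fun V W h s => by
        have h1 : rho h (rho (below_le V) f * s) = rho h (rho (below_le V) f) * rho h s := map_mul _ _ _
        have h2 : rho h (rho (below_le V) f : Sec V.op) = (rho (below_le W) f : Sec W.op) := by
          unfold rho
          rw [← CommRingCat.comp_apply, ← X.presheaf.map_comp]
          rfl
        exact h1.trans (congrArg (fun t => t * rho h s) h2),
      fun V a s => mul_left_comm (rho (below_le V) f : Sec V.op) (a ^ q) s⟩

/-- The group of sections over `U` of a sheaf of abelian groups. -/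
def Sections {X : Scheme.{0}} (F : Sheaf (Opens.grothendieckTopology X) AddCommGrpCat.{0})
    (U : X.Opens) : Type := F.obj.obj (op U)

noncomputable instance {X : Scheme.{0}}
    (F : Sheaf (Opens.grothendieckTopology X) AddCommGrpCat.{0}) (U : X.Opens) :
    AddCommGroup (Sections F U) :=
  (F.obj.obj (op U)).str

/-- The restriction of sections. -/
noncomputable def restr {X : Scheme.{0}}
    (F : Sheaf (Opens.grothendieckTopology X) AddCommGrpCat.{0}) {U V : X.Opens} (h : V ≤ U) :
    Sections F U →+ Sections F V :=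
  (F.obj.map (homOfLE h).op).hom

/-- A (left) module over the sheaf of rings `D_X = ⋃_e D_X^{(e)}`, where
`D_X^{(e)} = End_{O_X^{p^e}}(O_X)`: a sheaf of abelian groups, with an action of the sections of
`D_X^{(e)}` over `U` on the sections over `U`, for all `e` and all open `U`, which is compatible with
restrictions, and with the inclusions `D_X^{(e)} ⊆ D_X^{(e')}`. -/
structure DMod (X : Scheme.{0}) (p : ℕ) where
  /-- the underlying sheaf of abelian groups -/
  sh : Sheaf (Opens.grothendieckTopology X) AddCommGrpCat.{0}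
  /-- the action of a section of `D_X^{(e)}` over `U` on a section over `U` -/
  act : ∀ (e : ℕ) (U : X.Opens), PowEnd (p ^ e) U → Sections sh U → Sections sh U
  act_add : ∀ (e : ℕ) (U : X.Opens) (φ : PowEnd (p ^ e) U) (m n : Sections sh U),
    act e U φ (m + n) = act e U φ m + act e U φ n
  add_act : ∀ (e : ℕ) (U : X.Opens) (φ ψ : PowEnd (p ^ e) U) (m : Sections sh U),
    act e U (φ + ψ) m = act e U φ m + act e U ψ m
  one_act : ∀ (e : ℕ) (U : X.Opens) (m : Sections sh U), act e U (oneEnd (p ^ e) U) m = m
  comp_act : ∀ (e : ℕ) (U : X.Opens) (φ ψ : PowEnd (p ^ e) U) (m : Sections sh U),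
    act e U (compEnd φ ψ) m = act e U φ (act e U ψ m)
  restr_act : ∀ (e : ℕ) (U V : X.Opens) (h : V ≤ U) (φ : PowEnd (p ^ e) U) (m : Sections sh U),
    restr sh h (act e U φ m) = act e V (powRes (p ^ e) h φ) (restr sh h m)
  incl_act : ∀ (e e' : ℕ) (h : e ≤ e') (U : X.Opens) (φ : PowEnd (p ^ e) U)
    (m : Sections sh U), act e' U (powIncl p h U φ) m = act e U φ m

namespace DMod

variable {X : Scheme.{0}} {p : ℕ} (M : DMod X p)

/-- The multiplication of a section of the `D_X`-module over `U` by a function `f ∈ O_X(U)`. -/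
noncomputable def smul {U : X.Opens} (f : Sec U) (m : Sections M.sh U) : Sections M.sh U :=
  M.act 0 U (mulEnd (p ^ 0) f) m

/-- The `D_X`-module is quasi-coherent as an `O_X`-module: for every affine open `U` and every
`f ∈ O_X(U)`, the group of sections over `D(f) ⊆ U` is the localization at `f` of the
`O_X(U)`-module of sections over `U`. -/
def IsQuasiCoherent : Prop :=
  ∀ (U : X.Opens), IsAffineOpen U → ∀ f : Sec U,
    (∀ m : Sections M.sh U, restr M.sh (X.basicOpen_le f) m = 0 → ∃ n : ℕ, M.smul (f ^ n) m = 0) ∧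
    (∀ m : Sections M.sh (X.basicOpen f), ∃ (n : ℕ) (m' : Sections M.sh U),
      restr M.sh (X.basicOpen_le f) m' = M.smul (rho (X.basicOpen_le f) f ^ n) m)

/-- The `D_X`-module is generated by its global sections: locally, every section is a finite sum
`∑ φ_i s_i` with `φ_i` sections of `D_X` and `s_i` global sections. -/
def IsGloballyGenerated : Prop :=
  ∀ (U : X.Opens) (m : Sections M.sh U) (x : X), x ∈ U →
    ∃ (W : X.Opens) (hW : W ≤ U) (_ : x ∈ W) (e n : ℕ) (φ : Fin n → PowEnd (p ^ e) W)
      (s : Fin n → Sections M.sh ⊤),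
      restr M.sh hW m = ∑ i, M.act e W (φ i) (restr M.sh le_top (s i))

end DMod

/-- `X` is `D`-affine (in characteristic `p`): every `D_X`-module which is quasi-coherent as an
`O_X`-module is generated by its global sections and has no cohomology in positive degrees. -/
def IsDAffine (X : Scheme.{0}) (p : ℕ) : Prop :=
  ∀ M : DMod X p, M.IsQuasiCoherent →
    M.IsGloballyGenerated ∧ ∀ i : ℕ, Subsingleton (Sheaf.H M.sh (i + 1))

end Pool.Agent.H924.Daff.Stmt
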