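import Pool.Agent.H924.Daff.QCoh
import Pool.Agent.H924.Daff.Stmt

/-!
`D`-affinity from global differential operators: vanishing of cohomology and generation.
-/

set_option autoImplicit false

open CategoryTheory TopologicalSpace Opposite Limits AlgebraicGeometry

namespace Pool.Agent.H924.Daff

open Pool.Agent.H835R3.Stmt Stmt

section powend

variable {X : Scheme.{0}} {q : ℕ} {U : X.Opens}

/-- value of a section of endomorphisms on a section over a smaller open -/
noncomputable def PowEnd.at (φ : PowEnd q U) (V : X.Opens) (h : V ≤ U) (s : Sec V) : Sec V :=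
  (φ.fam ⟨V, h⟩).ap s

lemma PowEnd.ext_at {φ ψ : PowEnd q U} (h : ∀ (V : X.Opens) (h : V ≤ U) (s : Sec V),
    PowEnd.at φ V h s = PowEnd.at ψ V h s) : φ = ψ := by
  apply Subtype.ext
  funext V
  exact AddMonoidHom.ext fun s => h V.1 V.2 s

lemma rho_rho {V W Z : X.Opens} (h : W ≤ V) (h' : Z ≤ W) (s : Sec V) :
    rho h' (rho h s) = rho (h'.trans h) s := Pool.Agent.H835R3.res_res h h' s

lemma rho_self {V : X.Opens} (h : V ≤ V) (s : Sec V) : rho h s = s :=
  Pool.Agent.H835R3.res_self h s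

lemma mulEnd_at (f : Sec U) (V : X.Opens) (h : V ≤ U) (s : Sec V) :
    PowEnd.at (mulEnd q f) V h s = rho h f * s := rfl

lemma compEnd_at (φ ψ : PowEnd q U) (V : X.Opens) (h : V ≤ U) (s : Sec V) :
    PowEnd.at (compEnd φ ψ) V h s = PowEnd.at φ V h (PowEnd.at ψ V h s) := rfl

lemma oneEnd_at (V : X.Opens) (h : V ≤ U) (s : Sec V) :
    PowEnd.at (oneEnd q U) V h s = s := rfl

lemma powRes_at {U' : X.Opens} (hU : U' ≤ U) (φ : PowEnd q U) (V : X.Opens) (h : V ≤ U')
    (s : Sec V) : PowEnd.at (powRes q hU φ) V h s = PowEnd.at φ V (h.trans hU) s := rfl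

lemma add_at (φ ψ : PowEnd q U) (V : X.Opens) (h : V ≤ U) (s : Sec V) :
    PowEnd.at (φ + ψ) V h s = PowEnd.at φ V h s + PowEnd.at ψ V h s := rfl

lemma mulEnd_mul (f g : Sec U) : mulEnd q (f * g) = compEnd (mulEnd q f) (mulEnd q g) := by
  apply PowEnd.ext_at
  intro V h s
  rw [compEnd_at, mulEnd_at, mulEnd_at, mulEnd_at]
  have h1 : rho h (f * g) = rho h f * rho h g := map_mul _ _ _
  rw [h1, mul_assoc]

lemma mulEnd_one : mulEnd q (1 : Sec U) = oneEnd q U := by
  apply PowEnd.ext_at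
  intro V h s
  rw [oneEnd_at, mulEnd_at]
  have h1 : rho h (1 : Sec U) = 1 := map_one _
  rw [h1, one_mul]

lemma mulEnd_add (f g : Sec U) : mulEnd q (f + g) = mulEnd q f + mulEnd q g := by
  apply PowEnd.ext_at
  intro V h s
  rw [add_at, mulEnd_at, mulEnd_at, mulEnd_at]
  have h1 : rho h (f + g) = rho h f + rho h g := map_add _ _ _
  rw [h1, add_mul]

lemma powRes_mulEnd {U' : X.Opens} (hU : U' ≤ U) (f : Sec U) :
    powRes q hU (mulEnd q f) = mulEnd q (rho hU f) := by
  apply PowEnd.ext_at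
  intro V h s
  rw [powRes_at, mulEnd_at, mulEnd_at, rho_rho]

lemma powRes_powRes {U' U'' : X.Opens} (hU : U' ≤ U) (hU' : U'' ≤ U') (φ : PowEnd q U) :
    powRes q hU' (powRes q hU φ) = powRes q (hU'.trans hU) φ := rfl

lemma powIncl_mulEnd {p e e' : ℕ} (h : e ≤ e') (f : Sec U) :
    powIncl p h U (mulEnd (p ^ e) f) = mulEnd (p ^ e') f := rfl

end powend

variable {X : Scheme.{0}} {p : ℕ} (M : DMod X p)

lemma smul_eq {e : ℕ} {U : X.Opens} (f : Sec U) (m : Sections M.sh U) :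
    M.smul f m = M.act e U (mulEnd (p ^ e) f) m := by
  unfold DMod.smul
  rw [← M.incl_act 0 e (Nat.zero_le e), powIncl_mulEnd]

/-- a quasi-coherent `D`-module as a quasi-coherent module -/
noncomputable def toQMod (hM : M.IsQuasiCoherent) : QMod X where
  F := toLSh M.sh
  sm {V} f := AddMonoidHom.mk' (fun s => M.smul (U := V) f s) (fun s t => M.act_add _ _ _ s t)
  sm_mul f g s := by
    show M.smul _ s = M.smul _ (M.smul _ s)
    unfold DMod.smul
    rw [← M.comp_act, ← mulEnd_mul]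
    rfl
  sm_one s := by
    show M.smul _ s = s
    unfold DMod.smul
    refine Eq.trans ?_ (M.one_act 0 _ s)
    rw [← mulEnd_one]
    rfl
  sm_add f g s := by
    show M.smul _ s = M.smul _ s + M.smul _ s
    unfold DMod.smul
    rw [← M.add_act, ← mulEnd_add]
    rfl
  sm_res h f s := by
    show restr M.sh h (M.smul _ s) = M.smul _ (restr M.sh h s)
    unfold DMod.smul
    rw [M.restr_act, powRes_mulEnd]
    rfl
  qc1 hV f W hW h s hs := by
    subst hW
    exact (hM _ hV f).1 s hs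
  qc2 hV f W hW h s := by
    subst hW
    exact (hM _ hV f).2 s

/-- Data of global differential operators. -/
structure DPart (X : Scheme.{0}) (p : ℕ) (τ : Type) [Fintype τ] where
  U : τ → X.Opens
  haff : ∀ {n : ℕ} (s : Fin (n + 1) → τ), IsAffineOpen (inter U s : X.Opens)
  m : ∀ (a _ : τ), Sec (U a)
  hm : ∀ (a c : τ) (V : X.Opens) (hV : V ≤ U a), V ⊓ U c = X.basicOpen (rho hV (m a c))
  hm1 : ∀ a : τ, m a a = 1
  l : ∀ (a b : τ), Sec (U a ⊓ U b)
  hml : ∀ (a b c : τ), rho inf_le_left (m a c) = l a b * rho inf_le_right (m b c)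
  e : ℕ → ℕ
  T : ∀ (N : ℕ) (a _ : τ), PowEnd (p ^ e N) (U a)
  hTl : ∀ (N : ℕ) (a b c : τ), powRes (p ^ e N) (inf_le_right : U a ⊓ U b ≤ U b) (T N b c) =
    compEnd (powRes (p ^ e N) (inf_le_left : U a ⊓ U b ≤ U a) (T N a c))
      (mulEnd (p ^ e N) (l a b ^ N))
  hT1 : ∀ (N : ℕ) (a : τ), ∑ c, compEnd (T N a c) (mulEnd (p ^ e N) (m a c ^ N)) =
    oneEnd (p ^ e N) (U a)
  e' : ℕ → ℕ
  J : ∀ (_ : ℕ), ℕ
  A : ∀ (N : ℕ) (_ : Fin (J N)) (a : τ), PowEnd (p ^ e' N) (U a)
  B : ∀ (N : ℕ) (_ : Fin (J N)) (a : τ), PowEnd (p ^ e' N) (U a)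
  hAl : ∀ (N : ℕ) (j : Fin (J N)) (a b : τ),
    powRes (p ^ e' N) (inf_le_right : U a ⊓ U b ≤ U b) (A N j b) =
    compEnd (powRes (p ^ e' N) (inf_le_left : U a ⊓ U b ≤ U a) (A N j a))
      (mulEnd (p ^ e' N) (l a b ^ (N + 1)))
  hAB : ∀ (N : ℕ) (a : τ), ∑ j, compEnd (B N j a) (A N j a) = oneEnd (p ^ e' N) (U a)

/-- The action of a section of `D^(e)` as a local operator. -/
noncomputable def actOp {e : ℕ} {U : X.Opens} (φ : PowEnd (p ^ e) U) :
    LocOp (toLSh M.sh) U where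
  app V h := AddMonoidHom.mk' (fun s => M.act e V (powRes (p ^ e) h φ) s)
    (fun s t => M.act_add _ _ _ s t)
  nat {V W} h h' s := by
    show restr M.sh h' (M.act e V (powRes (p ^ e) h φ) s) =
      M.act e W (powRes (p ^ e) (h'.trans h) φ) (restr M.sh h' s)
    rw [M.restr_act]
    rfl

lemma rho_pow {V W : X.Opens} (h : W ≤ V) (f : Sec V) (n : ℕ) :
    rho h (f ^ n) = rho h f ^ n := map_pow _ _ _

lemma act_sum {e : ℕ} {U : X.Opens} {ι : Type} (t : Finset ι) (φ : ι → PowEnd (p ^ e) U)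
    (m : Sections M.sh U) : M.act e U (∑ i ∈ t, φ i) m = ∑ i ∈ t, M.act e U (φ i) m := by
  classical
  induction t using Finset.induction_on with
  | empty =>
    rw [Finset.sum_empty, Finset.sum_empty]
    have h5 := M.add_act e U 0 0 m
    rw [add_zero] at h5
    exact (add_eq_left.1 h5.symm)
  | insert a t ha ih =>
    rw [Finset.sum_insert ha, Finset.sum_insert ha, M.add_act, ih]

/-- partition data of a `D`-module -/
noncomputable def DPart.toPart {τ : Type} [Fintype τ] (D : DPart X p τ) (hM : M.IsQuasiCoherent) :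
    PartData (toQMod M hM) τ where
  U := D.U
  haff := D.haff
  m := D.m
  hm := D.hm
  l := D.l
  hml := D.hml
  T N a c := actOp M (D.T N a c)
  hTl N a b c V ha hb x := by
    show M.act (D.e N) V (powRes _ hb (D.T N b c)) x =
      M.act (D.e N) V (powRes _ ha (D.T N a c)) (M.smul _ x)
    rw [smul_eq (e := D.e N), ← M.comp_act]
    have h1 := congrArg (powRes (p ^ D.e N) (le_inf ha hb)) (D.hTl N a b c)
    have h2 : powRes (p ^ D.e N) (le_inf ha hb) (compEnd (powRes (p ^ D.e N) inf_le_left (D.T N a c))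
      (mulEnd (p ^ D.e N) (D.l a b ^ N))) = compEnd (powRes (p ^ D.e N) ha (D.T N a c))
        (powRes (p ^ D.e N) (le_inf ha hb) (mulEnd (p ^ D.e N) (D.l a b ^ N))) := rfl
    rw [h2, powRes_mulEnd, rho_pow] at h1
    exact congrArg (fun φ => M.act (D.e N) V φ x) h1
  hT1 N a V h x := by
    have h1 : ∀ c, ((actOp M (D.T N a c)).app V h) ((toQMod M hM).sm
        (Pool.Agent.H835R3.res h (D.m a c) ^ N) x) =
        M.act (D.e N) V (powRes _ h (compEnd (D.T N a c) (mulEnd (p ^ D.e N) (D.m a c ^ N)))) x := by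
      intro c
      show M.act (D.e N) V (powRes _ h (D.T N a c)) (M.smul _ x) = _
      rw [smul_eq (e := D.e N), ← M.comp_act]
      have h2 : powRes (p ^ D.e N) h (compEnd (D.T N a c) (mulEnd (p ^ D.e N) (D.m a c ^ N))) =
        compEnd (powRes (p ^ D.e N) h (D.T N a c))
          (powRes (p ^ D.e N) h (mulEnd (p ^ D.e N) (D.m a c ^ N))) := rfl
      rw [h2, powRes_mulEnd, rho_pow]
      rfl
    refine (Finset.sum_congr rfl (fun c _ => h1 c)).trans ?_
    have h3 := act_sum M (e := D.e N) Finset.univ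
      (fun c => powRes _ h (compEnd (D.T N a c) (mulEnd (p ^ D.e N) (D.m a c ^ N)))) x
    refine Eq.trans h3.symm ?_
    rw [← map_sum, D.hT1]
    exact M.one_act (D.e N) V x

/-- The vanishing part of `D`-affinity. -/
theorem DPart.vanish {n : ℕ} (D : DPart X p (Fin n)) (hD : iSup D.U = ⊤)
    (hM : M.IsQuasiCoherent) (i : ℕ) : Subsingleton (Sheaf.H M.sh (i + 1)) :=
  H_subsingleton_of_partData M.sh (toQMod M hM) rfl (D.toPart M hM) hD i

end Pool.Agent.H924.Daff
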