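import Pool.Agent.H924.Daff.Cech

/-!
Flasque sheaves have exact (augmented) Čech complexes.
-/

set_option autoImplicit false

open TopologicalSpace

namespace Pool.Agent.H924.Daff

variable {X : Type} [TopologicalSpace X] {τ : Type} {U : τ → Opens X}

lemma Coch.glue2 {F : LSh X} {n : ℕ} {Y₁ Y₂ Y : Opens X} (hY : Y = Y₁ ⊔ Y₂)
    (h1 : Y₁ ≤ Y) (h2 : Y₂ ≤ Y) (f : Coch U F n Y₁) (g : Coch U F n Y₂)
    (h : f.rs (inf_le_left : Y₁ ⊓ Y₂ ≤ Y₁) = g.rs (inf_le_right : Y₁ ⊓ Y₂ ≤ Y₂)) :
    ∃ c : Coch U F n Y, c.rs h1 = f ∧ c.rs h2 = g := by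
  have key : ∀ s : Fin n → τ, ∃ c : F.obj (Y ⊓ inter U s),
      F.res (inf_le_inf_right _ h1) c = f s ∧ F.res (inf_le_inf_right _ h2) c = g s := by
    intro s
    refine F.glue2 (by rw [hY, inf_sup_right]) (f s) (g s) _ _ ?_
    have h3 := congrFun h s
    have h4 := congrArg (F.res (show (Y₁ ⊓ inter U s) ⊓ (Y₂ ⊓ inter U s) ≤
      (Y₁ ⊓ Y₂) ⊓ inter U s from le_inf (le_inf (inf_le_left.trans inf_le_left)
        (inf_le_right.trans inf_le_left)) (inf_le_left.trans inf_le_right))) h3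
    unfold Coch.rs at h4
    rw [F.res_res, F.res_res] at h4
    exact h4
  choose c hc1 hc2 using key
  exact ⟨c, Coch.ext hc1, Coch.ext hc2⟩

lemma Coch.sep2 {F : LSh X} {n : ℕ} {Y₁ Y₂ Y : Opens X} (hY : Y = Y₁ ⊔ Y₂)
    (h1 : Y₁ ≤ Y) (h2 : Y₂ ≤ Y) (f g : Coch U F n Y)
    (h : f.rs h1 = g.rs h1) (h' : f.rs h2 = g.rs h2) : f = g := by
  apply Coch.ext
  intro s
  exact F.sep2 (by rw [hY, inf_sup_right]) _ _ (inf_le_inf_right _ h1) (inf_le_inf_right _ h2)
    (congrFun h s) (congrFun h' s)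

/-- the kernel of the differential in degree `n` is flasque -/
def KerFlasque (U : τ → Opens X) (F : LSh X) (n : ℕ) : Prop :=
  ∀ {V W : Opens X} (h : V ≤ W) (_ : W ≤ iSup U) (f : Coch U F n V), f.d = 0 →
    ∃ g : Coch U F n W, g.d = 0 ∧ g.rs h = f

/-- exactness of the complex in degree `n + 1` on `Y` -/
def CechExact (U : τ → Opens X) (F : LSh X) (n : ℕ) (Y : Opens X) : Prop :=
  ∀ f : Coch U F (n + 1) Y, f.d = 0 → ∃ g : Coch U F n Y, g.d = f

lemma kerFlasque_zero (F : LSh X) : KerFlasque U F 0 := by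
  intro V W h hW f hf
  have hf0 : f = 0 := by
    apply Coch.ext
    intro s
    rw [Coch.zero_apply]
    have hs : inter U s = ⊤ := by
      unfold inter
      rw [iInf_of_empty]
    refine F.sep (fun a => V ⊓ U a) (V ⊓ inter U s) ?_ (f s) 0 ?_
    · rw [hs, inf_top_eq, ← inf_iSup_eq]
      exact (inf_eq_left.2 (h.trans hW)).symm
    · intro a ha
      rw [map_zero]
      have h1 := congrFun hf (fun _ => a)
      rw [Coch.zero_apply] at h1
      unfold Coch.d at h1
      rw [Fin.sum_univ_one, Fin.val_zero, pow_zero, one_smul] at h1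
      have h2 := congrArg (F.res (show V ⊓ U a ≤ V ⊓ inter U (fun _ : Fin (0 + 1) => a) from
        inf_le_inf_left _ (le_iInf fun _ => le_rfl))) h1
      rw [map_zero] at h2
      unfold Coch.val at h2
      rw [F.res_res] at h2
      have h3 : ((fun _ : Fin (0 + 1) => a) ∘ Fin.succAbove 0) = s := Subsingleton.elim _ _
      rw [← h2]
      exact Coch.val_congr f h3.symm _ _
  refine ⟨0, ?_, ?_⟩
  · apply Coch.ext
    intro s
    unfold Coch.d Coch.val
    refine Finset.sum_eq_zero fun i _ => ?_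
    rw [Coch.zero_apply, map_zero, smul_zero]
  · rw [hf0]
    apply Coch.ext
    intro s
    exact map_zero _

lemma cechExact_of_kerFlasque [Finite τ] (F : LSh X) (n : ℕ) (hK : KerFlasque U F n)
    (Y : Opens X) (hY : Y ≤ iSup U) : CechExact U F n Y := by
  classical
  intro f hf
  have := Fintype.ofFinite τ
  have key : ∀ T : Finset τ, ∃ g : Coch U F n (Y ⊓ T.sup U), g.d = f.rs inf_le_left := by
    intro T
    induction T using Finset.induction_on with
    | empty =>
      have hbot : ∀ (V : Opens X), V = ⊥ → ∀ s t : F.obj V, s = t := by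
        intro V hV s t
        refine F.sep (fun i : Empty => i.elim) V (by rw [hV, iSup_of_empty]) s t ?_
        intro i
        exact i.elim
      refine ⟨fun s => 0, ?_⟩
      apply Coch.ext
      intro s
      apply hbot
      simp
    | insert a T ha ih =>
      obtain ⟨g1, hg1⟩ := ih
      obtain ⟨g2, hg2⟩ := Coch.contract (U := U) (Y := Y ⊓ U a) a inf_le_right
        (f.rs inf_le_left) (by rw [Coch.rs_d, hf]; apply Coch.ext; intro s; exact map_zero _)
      obtain ⟨g3, hg3, hg3'⟩ := hK (V := (Y ⊓ T.sup U) ⊓ (Y ⊓ U a)) (W := Y ⊓ U a) inf_le_right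
        (inf_le_left.trans hY) (g1.rs inf_le_left - g2.rs inf_le_right) (by
          rw [Coch.d_sub, Coch.rs_d, Coch.rs_d, hg1, hg2, Coch.rs_rs, Coch.rs_rs, sub_self])
      have hsup : Y ⊓ (insert a T).sup U = (Y ⊓ T.sup U) ⊔ (Y ⊓ U a) := by
        rw [Finset.sup_insert, sup_comm, inf_sup_left]
      obtain ⟨c, hc1, hc2⟩ := Coch.glue2 (U := U) hsup (by rw [hsup]; exact le_sup_left)
        (by rw [hsup]; exact le_sup_right) g1 (g2 + g3) (by
          rw [Coch.rs_add, hg3']
          abel)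
      refine ⟨c, ?_⟩
      refine Coch.sep2 hsup (by rw [hsup]; exact le_sup_left)
        (by rw [hsup]; exact le_sup_right) _ _ ?_ ?_
      · rw [← Coch.rs_d, hc1, hg1, Coch.rs_rs]
      · rw [← Coch.rs_d, hc2, Coch.d_add, hg2, hg3, add_zero, Coch.rs_rs]
  obtain ⟨g, hg⟩ := key Finset.univ
  have hle : Y ≤ Y ⊓ Finset.univ.sup U := by
    rw [Finset.sup_univ_eq_iSup]
    exact le_inf le_rfl hY
  refine ⟨g.rs hle, ?_⟩
  rw [Coch.rs_d, hg, Coch.rs_rs, Coch.rs_self]

lemma kerFlasque_succ (F : LSh X) (hF : F.Flasque) (n : ℕ)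
    (hE : ∀ Y : Opens X, Y ≤ iSup U → CechExact U F n Y) : KerFlasque U F (n + 1) := by
  intro V W h hW f hf
  obtain ⟨g, hg⟩ := hE V (h.trans hW) f hf
  have h1 : ∀ s : Fin n → τ, ∃ t : F.obj (W ⊓ inter U s), F.res (inf_le_inf_right _ h) t = g s :=
    fun s => hF _ (g s)
  choose t' ht using h1
  obtain ⟨t, ht'⟩ : ∃ t : Coch U F n W, t.rs h = g := ⟨t', Coch.ext ht⟩
  refine ⟨t.d, Coch.d_d _, ?_⟩
  rw [← Coch.rs_d, ht', hg]

theorem cechExact_of_flasque [Finite τ] (F : LSh X) (hF : F.Flasque) (n : ℕ)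
    (Y : Opens X) (hY : Y ≤ iSup U) : CechExact U F n Y := by
  have key : KerFlasque U F n := by
    induction n with
    | zero => exact kerFlasque_zero F
    | succ n ih => exact kerFlasque_succ F hF n (fun Y hY => cechExact_of_kerFlasque F n ih Y hY)
  exact cechExact_of_kerFlasque F n key Y hY

/-- exactness in degree one for all sheaves -/
lemma cechExact_zero (F : LSh X) (Y : Opens X) (hY : Y ≤ iSup U) : CechExact U F 0 Y := by
  intro f hf
  have key : ∀ a b : τ, ∀ (V : Opens X) (ha : V ≤ Y ⊓ inter U (fun _ : Fin 1 => a))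
      (hb : V ≤ Y ⊓ inter U (fun _ : Fin 1 => b)),
      F.res ha (f (fun _ => a)) = F.res hb (f (fun _ => b)) := by
    intro a b V ha hb
    have h1 := congrFun hf (![a, b] : Fin 2 → τ)
    have hV : V ≤ Y ⊓ inter U (![a, b] : Fin 2 → τ) := by
      refine le_inf (ha.trans inf_le_left) (le_iInf fun i => ?_)
      fin_cases i
      · exact ha.trans (inf_le_right.trans (inter_le U _ 0))
      · exact hb.trans (inf_le_right.trans (inter_le U _ 0))
    have h2 := congrArg (F.res hV) h1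
    rw [Coch.zero_apply, map_zero] at h2
    unfold Coch.d at h2
    rw [map_sum, Fin.sum_univ_two] at h2
    simp only [Fin.val_zero, pow_zero, one_smul, Fin.val_one, pow_one, neg_smul, map_neg] at h2
    unfold Coch.val at h2
    rw [F.res_res, F.res_res] at h2
    have h3 : ((![a, b] : Fin 2 → τ) ∘ Fin.succAbove 0) = fun _ => b := by
      funext i
      fin_cases i
      rfl
    have h4 : ((![a, b] : Fin 2 → τ) ∘ Fin.succAbove 1) = fun _ => a := by
      funext i
      fin_cases i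
      rfl
    have h5 : F.res hb (f (fun _ => b)) = F.res ha (f (fun _ => a)) := by
      rw [← sub_eq_zero, sub_eq_add_neg, ← h2]
      congr 1
      · exact Coch.val_congr f h3.symm _ _
      · congr 1
        exact Coch.val_congr f h4.symm _ _
    exact h5.symm
  obtain ⟨t, ht⟩ := F.glue (fun a => Y ⊓ inter U (fun _ : Fin 1 => a))
    (Y ⊓ inter U (Fin.elim0 : Fin 0 → τ)) (by
      have hs : inter U (Fin.elim0 : Fin 0 → τ) = ⊤ := by
        unfold inter
        rw [iInf_of_empty]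
      rw [hs, inf_top_eq, ← inf_iSup_eq]
      refine (inf_eq_left.2 (hY.trans (iSup_mono fun a => le_iInf fun _ => le_rfl))).symm)
    (fun a => f (fun _ => a)) (fun i j h h' => key i j _ h h')
  refine ⟨fun s => F.res (le_of_eq (by rw [Subsingleton.elim s Fin.elim0])) t, ?_⟩
  apply Coch.ext
  intro s
  unfold Coch.d Coch.val
  rw [Fin.sum_univ_one, Fin.val_zero, pow_zero, one_smul, F.res_res]
  obtain ⟨a, rfl⟩ : ∃ a, s = fun _ => a := ⟨s 0, by
    funext i
    rw [Subsingleton.elim (α := Fin 1) i 0]⟩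
  exact ht a _

end Pool.Agent.H924.Daff
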