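import Pool.Graph.R_seed8.H835R3.Frac

/-!
Laurent polynomials in four variables and their monomial operators.
-/

set_option autoImplicit false

namespace Pool.Agent.H924.Daff

open AddMonoidAlgebra Pool.Agent.H835R3

/-- exponents -/
abbrev GG : Type := Fin 4 → ℤ

/-- Laurent polynomials in four variables -/
abbrev AL (k : Type) [Field k] : Type := AddMonoidAlgebra k GG

variable {k : Type} [Field k]

instance instIsDomainAL : IsDomain (AL k) := inferInstance

/-- additive operator with given values on monomials -/
noncomputable def opG (h : GG → k →+ AL k) : AL k →+ AL k :=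
  (Finsupp.liftAddHom h).comp (AddMonoidAlgebra.coeffAddEquiv (R := k) (M := GG)).toAddMonoidHom

lemma opG_eq (h : GG → k →+ AL k) (l : AL k) :
    opG h l = l.coeff.sum (fun u a => h u a) := rfl

lemma opG_single (h : GG → k →+ AL k) (u : GG) (a : k) :
    opG h (single u a) = h u a := by
  rw [opG_eq, coeff_single, Finsupp.sum_single_index (by simp)]

lemma addHom_ext' {M : Type} [AddCommMonoid M] (f g : AL k →+ M)
    (h : ∀ u a, f (single u a) = g (single u a)) : f = g :=
  AddMonoidAlgebra.addMonoidHom_ext h

/-- linearity over `q`-th powers of Laurent polynomials -/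
lemma isSemi_of_singleG (p : ℕ) [Fact p.Prime] [CharP k p] (e e' : ℕ) (Φ : AL k →+ AL k)
    (h : ∀ (w u : GG) (a b : k),
      Φ (single w a ^ (p ^ e) * single u b) = single w a ^ (p ^ e') * Φ (single u b)) :
    IsSemi (p ^ e) (p ^ e') Φ := by
  have : ExpChar (AL k) p := expChar_of_injective_algebraMap
    (FaithfulSMul.algebraMap_injective k (AL k)) p
  intro a b
  induction a using AddMonoidAlgebra.induction_linear with
  | zero => simp [(Fact.out : p.Prime).ne_zero]
  | add a₁ a₂ h1 h2 =>
    rw [add_pow_expChar_pow, add_pow_expChar_pow, add_mul, add_mul, map_add, h1, h2]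
  | single w a =>
    induction b using AddMonoidAlgebra.induction_linear with
    | zero => simp
    | add b₁ b₂ h1 h2 => rw [mul_add, map_add, map_add, mul_add, h1, h2]
    | single u b => exact h w u a b

/-- elements with support in `C` -/
def supp (k : Type) [Field k] (C : Set GG) : AddSubgroup (AL k) where
  carrier := {l | ∀ u, l.coeff u ≠ 0 → u ∈ C}
  zero_mem' := by intro u hu; simp at hu
  add_mem' := by
    intro a b ha hb u hu
    by_cases h : a.coeff u = 0
    · apply hb
      intro h'
      apply hu
      simp [h, h']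
    · exact ha u h
  neg_mem' := by
    intro a ha u hu
    apply ha
    intro h
    apply hu
    simp [h]

lemma mem_supp {C : Set GG} {l : AL k} : l ∈ supp k C ↔ ∀ u, l.coeff u ≠ 0 → u ∈ C := Iff.rfl

lemma single_mem_supp {C : Set GG} {u : GG} (hu : u ∈ C) (a : k) :
    (single u a : AL k) ∈ supp k C := by
  intro v hv
  rw [coeff_single, Finsupp.single_apply] at hv
  split_ifs at hv with h
  · exact h ▸ hu
  · exact absurd rfl hv

lemma supp_mono {C C' : Set GG} (h : C ⊆ C') {l : AL k} (hl : l ∈ supp k C) : l ∈ supp k C' :=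
  fun u hu => h (hl u hu)

lemma supp_inter {C C' : Set GG} {l : AL k} (h : l ∈ supp k C) (h' : l ∈ supp k C') :
    l ∈ supp k (C ∩ C') := fun u hu => ⟨h u hu, h' u hu⟩

/-- induction on elements with support in `C` -/
lemma supp_induction {C : Set GG} {P : AL k → Prop} (h0 : P 0)
    (hadd : ∀ a b, P a → P b → P (a + b)) (hs : ∀ u ∈ C, ∀ c : k, P (single u c))
    (l : AL k) (hl : l ∈ supp k C) : P l := by
  have h2 : l = l.coeff.sum (fun u a => (single u a : AL k)) := (sum_coeff_single l).symm
  rw [h2]
  refine Finset.sum_induction _ P hadd h0 ?_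
  intro u hu
  exact hs u (hl u (Finsupp.mem_support_iff.1 hu)) _

lemma opG_mem_supp {C C' : Set GG} (h : GG → k →+ AL k)
    (hC : ∀ u ∈ C, ∀ a, h u a ∈ supp k C') (l : AL k) (hl : l ∈ supp k C) :
    opG h l ∈ supp k C' := by
  rw [opG_eq]
  refine AddSubgroup.sum_mem _ ?_
  intro u hu
  exact hC u (hl u (Finsupp.mem_support_iff.1 hu)) _

lemma mul_mem_supp {C C' C'' : Set GG} (h : ∀ u ∈ C, ∀ v ∈ C', u + v ∈ C'') (a b : AL k)
    (ha : a ∈ supp k C) (hb : b ∈ supp k C') : a * b ∈ supp k C'' := by
  refine supp_induction (P := fun a => a * b ∈ supp k C'') ?_ ?_ ?_ a ha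
  · rw [zero_mul]; exact zero_mem _
  · intro x y hx hy
    rw [add_mul]
    exact add_mem hx hy
  · intro u hu c
    refine supp_induction (P := fun b => single u c * b ∈ supp k C'') ?_ ?_ ?_ b hb
    · rw [mul_zero]; exact zero_mem _
    · intro x y hx hy
      rw [mul_add]
      exact add_mem hx hy
    · intro v hv d
      rw [single_mul_single]
      exact single_mem_supp (h u hu v hv) _

/-- the operator `x^u ↦ x^(u+m)` if `Q u`, and `0` otherwise -/
noncomputable def mono (k : Type) [Field k] (Q : GG → Prop) [DecidablePred Q] (m : GG) :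
    AL k →+ AL k :=
  opG (fun u => if Q u then singleAddHom (u + m) else 0)

lemma mono_single (Q : GG → Prop) [DecidablePred Q] (m u : GG) (a : k) :
    mono k Q m (single u a) = if Q u then single (u + m) a else 0 := by
  unfold mono
  rw [opG_single]
  split_ifs <;> rfl

lemma mono_isSemi (p : ℕ) [Fact p.Prime] [CharP k p] (n : ℕ) (Q : GG → Prop)
    [DecidablePred Q] (m : GG)
    (hQ : ∀ w u : GG, Q ((p ^ n : ℕ) • w + u) ↔ Q u) :
    IsSemi (p ^ n) (p ^ n) (mono k Q m) := by
  apply isSemi_of_singleG p n n
  intro w u a b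
  rw [single_pow, single_mul_single, mono_single, mono_single, if_congr (hQ w u) rfl rfl]
  split_ifs with h
  · rw [single_mul_single, add_assoc]
  · rw [mul_zero]

lemma mono_mem (C C' : Set GG) (Q : GG → Prop) [DecidablePred Q] (m : GG)
    (h : ∀ u ∈ C, Q u → u + m ∈ C') (l : AL k) (hl : l ∈ supp k C) :
    mono k Q m l ∈ supp k C' := by
  apply opG_mem_supp _ _ _ hl
  intro u hu a
  split_ifs with hQ
  · exact single_mem_supp (h u hu hQ) a
  · exact zero_mem _

lemma coeff_mul_singleG (l : AL k) (w u : GG) :
    (l * single w (1 : k)).coeff u = l.coeff (u - w) := by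
  have h := AddMonoidAlgebra.induction_linear
    (motive := fun l : AL k => (l * single w (1 : k)).coeff u = l.coeff (u - w)) l
  apply h
  · simp
  · intro a b ha hb
    rw [add_mul, coeff_add, coeff_add, Finsupp.add_apply, Finsupp.add_apply, ha, hb]
  · intro v a
    rw [single_mul_single, coeff_single, coeff_single, mul_one, Finsupp.single_apply,
      Finsupp.single_apply]
    congr 1
    rw [eq_sub_iff_add_eq]

lemma single_add_one (u v : GG) : (single (u + v) (1 : k) : AL k) = single u 1 * single v 1 := by
  rw [single_mul_single, one_mul]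

lemma single_zero_one : (single (0 : GG) (1 : k) : AL k) = 1 := rfl

lemma single_one_pow (u : GG) (n : ℕ) : (single u (1 : k) : AL k) ^ n = single (n • u) 1 := by
  rw [single_pow, one_pow]

/-- the standard basis of exponents -/
def ei (i : Fin 4) : GG := Pi.single i 1

/-- the total degree -/
def dg (u : GG) : ℤ := u 0 + u 1 + u 2 + u 3

lemma dg_add (u v : GG) : dg (u + v) = dg u + dg v := by
  unfold dg
  simp only [Pi.add_apply]
  ring

lemma dg_ei (i : Fin 4) : dg (ei i) = 1 := by
  fin_cases i <;> simp [dg, ei]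

lemma dg_neg (u : GG) : dg (-u) = -dg u := by
  unfold dg
  simp only [Pi.neg_apply]
  ring

lemma dg_nsmul (n : ℕ) (u : GG) : dg (n • u) = n * dg u := by
  unfold dg
  simp only [Pi.smul_apply, nsmul_eq_mul]
  ring

end Pool.Agent.H924.Daff
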