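import Pool.Agent.H924.Daff.Acyc2
import Pool.Graph.R_seed8.H835R3.Defs

/-!
Vanishing of the Čech cohomology of quasi-coherent modules with a suitable partition of unity.
-/

set_option autoImplicit false

open CategoryTheory TopologicalSpace Opposite Limits AlgebraicGeometry

namespace Pool.Agent.H924.Daff

open Pool.Agent.H835R3 (res res_res res_self)

/-- A quasi-coherent module in elementary terms. -/
structure QMod (X : Scheme.{0}) where
  F : LSh X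
  sm : ∀ {V : X.Opens}, Γ(X, V) → F.obj V →+ F.obj V
  sm_mul : ∀ {V : X.Opens} (f g : Γ(X, V)) (s : F.obj V), sm (f * g) s = sm f (sm g s)
  sm_one : ∀ {V : X.Opens} (s : F.obj V), sm (1 : Γ(X, V)) s = s
  sm_add : ∀ {V : X.Opens} (f g : Γ(X, V)) (s : F.obj V), sm (f + g) s = sm f s + sm g s
  sm_res : ∀ {V W : X.Opens} (h : W ≤ V) (f : Γ(X, V)) (s : F.obj V),
    F.res h (sm f s) = sm (res h f) (F.res h s)
  qc1 : ∀ {V : X.Opens}, IsAffineOpen V → ∀ (f : Γ(X, V)) (W : X.Opens) (_ : W = X.basicOpen f)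
    (h : W ≤ V) (s : F.obj V), F.res h s = 0 → ∃ n : ℕ, sm (f ^ n) s = 0
  qc2 : ∀ {V : X.Opens}, IsAffineOpen V → ∀ (f : Γ(X, V)) (W : X.Opens) (_ : W = X.basicOpen f)
    (h : W ≤ V) (s : F.obj W), ∃ (n : ℕ) (t : F.obj V), F.res h t = sm (res h f ^ n) s

/-- A local operator over `U`. -/
structure LocOp {X : Type} [TopologicalSpace X] (F : LSh X) (U : Opens X) where
  app : ∀ (V : Opens X), V ≤ U → (F.obj V →+ F.obj V)
  nat : ∀ {V W : Opens X} (h : V ≤ U) (h' : W ≤ V) (s : F.obj V),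
    F.res h' (app V h s) = app W (h'.trans h) (F.res h' s)

/-- Data for the partition of unity. -/
structure PartData {X : Scheme.{0}} (M : QMod X) (τ : Type) [Fintype τ] where
  U : τ → X.Opens
  haff : ∀ {n : ℕ} (s : Fin (n + 1) → τ), IsAffineOpen (inter U s : X.Opens)
  m : ∀ (a _ : τ), Γ(X, U a)
  hm : ∀ (a c : τ) (V : X.Opens) (hV : V ≤ U a), V ⊓ U c = X.basicOpen (res hV (m a c))
  l : ∀ (a b : τ), Γ(X, U a ⊓ U b)
  hml : ∀ (a b c : τ), res inf_le_left (m a c) = l a b * res inf_le_right (m b c)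
  T : ℕ → ∀ (a _ : τ), LocOp M.F (U a)
  hTl : ∀ (N : ℕ) (a b c : τ) (V : X.Opens) (ha : V ≤ U a) (hb : V ≤ U b) (x : M.F.obj V),
    (T N b c).app V hb x = (T N a c).app V ha (M.sm (res (le_inf ha hb) (l a b) ^ N) x)
  hT1 : ∀ (N : ℕ) (a : τ) (V : X.Opens) (h : V ≤ U a) (x : M.F.obj V),
    ∑ c, (T N a c).app V h (M.sm (res h (m a c) ^ N) x) = x

variable {X : Scheme.{0}} {M : QMod X} {τ : Type} [Fintype τ] (D : PartData M τ)

namespace PartData

lemma rm_congr {a b : τ} (c : τ) (h : a = b) {V : X.Opens} (ha : V ≤ D.U a) (hb : V ≤ D.U b) :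
    res ha (D.m a c) = res hb (D.m b c) := by
  subst h
  rfl

lemma T_congr {a b : τ} (c : τ) (N : ℕ) (h : a = b) {V : X.Opens} (ha : V ≤ D.U a)
    (hb : V ≤ D.U b) (x : M.F.obj V) : (D.T N a c).app V ha x = (D.T N b c).app V hb x := by
  subst h
  rfl

lemma rm_l (a b c : τ) {V : X.Opens} (ha : V ≤ D.U a) (hb : V ≤ D.U b) :
    res ha (D.m a c) = res (le_inf ha hb) (D.l a b) * res hb (D.m b c) := by
  have h1 := congrArg (res (le_inf ha hb)) (D.hml a b c)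
  rw [res_res] at h1
  refine h1.trans ?_
  have h2 : res (le_inf ha hb) (D.l a b * res inf_le_right (D.m b c)) =
    res (le_inf ha hb) (D.l a b) * res (le_inf ha hb) (res inf_le_right (D.m b c)) := map_mul _ _ _
  rw [h2, res_res]

/-- the total open -/
abbrev Y : X.Opens := iSup D.U

lemma le0 {n : ℕ} (s : Fin (n + 1) → τ) (i : Fin (n + 1)) : D.Y ⊓ inter D.U s ≤ D.U (s i) :=
  inf_le_right.trans (inter_le D.U s i)

lemma aff {n : ℕ} (s : Fin (n + 1) → τ) : IsAffineOpen (D.Y ⊓ inter D.U s : X.Opens) := by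
  have h : (D.Y ⊓ inter D.U s : X.Opens) = inter D.U s :=
    inf_eq_right.2 ((inter_le D.U s 0).trans (le_iSup D.U _))
  rw [h]
  exact D.haff s

lemma smT (N : ℕ) (a c : τ) (V : X.Opens) (h : V ≤ D.U a) (k : ℤ) (x : M.F.obj V) :
    (D.T N a c).app V h (k • x) = k • (D.T N a c).app V h x := map_zsmul _ _ _

/-- the bracket -/
noncomputable def br {n : ℕ} (N : ℕ) (g : Coch D.U M.F (n + 1) D.Y) (s : Fin (n + 2) → τ) :
    M.F.obj (D.Y ⊓ inter D.U s) :=
  M.sm (res (le_inf (D.le0 s 0) (D.le0 s 1)) (D.l (s 0) (s 1)) ^ N)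
      (g.val (s ∘ (0 : Fin (n + 2)).succAbove) (inf_inter_le D.U D.Y s _)) +
    ∑ i : Fin (n + 1), (-1 : ℤ) ^ ((i : ℕ) + 1) •
      g.val (s ∘ i.succ.succAbove) (inf_inter_le D.U D.Y s _)

/-- multiplication of a cochain by a power of a coordinate -/
noncomputable def mc {n : ℕ} (N : ℕ) (c : τ) (g : Coch D.U M.F (n + 1) D.Y) :
    Coch D.U M.F (n + 1) D.Y :=
  fun s => M.sm (res (D.le0 s 0) (D.m (s 0) c) ^ N) (g s)

lemma mc_val {n : ℕ} (N : ℕ) (c : τ) (g : Coch D.U M.F (n + 1) D.Y) (s : Fin (n + 1) → τ)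
    {V : X.Opens} (h : V ≤ D.Y ⊓ inter D.U s) (a : τ) (ha : s 0 = a) (hV : V ≤ D.U a) :
    (D.mc N c g).val s h = M.sm (res hV (D.m a c) ^ N) (g.val s h) := by
  subst ha
  unfold mc Coch.val
  rw [M.sm_res]
  have h2 : res h (res (D.le0 s 0) (D.m (s 0) c) ^ N) = res hV (D.m (s 0) c) ^ N := by
    have h3 : res h (res (D.le0 s 0) (D.m (s 0) c) ^ N) =
      (res h (res (D.le0 s 0) (D.m (s 0) c))) ^ N := map_pow _ _ _
    rw [h3, res_res]
  rw [h2]

lemma sm_zsmul {V : X.Opens} (f : Γ(X, V)) (k : ℤ) (x : M.F.obj V) :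
    M.sm f (k • x) = k • M.sm f x := map_zsmul _ _ _

lemma sm_comm {V : X.Opens} (f g : Γ(X, V)) (x : M.F.obj V) :
    M.sm f (M.sm g x) = M.sm g (M.sm f x) := by
  rw [← M.sm_mul, mul_comm, M.sm_mul]

lemma br_mc {n : ℕ} (N N' : ℕ) (c : τ) (g : Coch D.U M.F (n + 1) D.Y) (s : Fin (n + 2) → τ) :
    D.br (N + N') (D.mc N' c g) s = M.sm (res (D.le0 s 0) (D.m (s 0) c) ^ N') (D.br N g s) := by
  unfold br
  rw [map_add, map_sum]
  congr 1
  · rw [D.mc_val N' c g _ _ (s 1) rfl (D.le0 s 1), ← M.sm_mul, ← M.sm_mul]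
    congr 1
    rw [D.rm_l (s 0) (s 1) c (D.le0 s 0) (D.le0 s 1)]
    ring_nf
  · refine Finset.sum_congr rfl fun i _ => ?_
    rw [D.mc_val N' c g _ _ (s 0) (by simp) (D.le0 s 0), sm_zsmul]

lemma cocycle_cons {n : ℕ} (f : Coch D.U M.F (n + 2) D.Y) (hf : f.d = 0) (c : τ)
    (s : Fin (n + 2) → τ) {V : X.Opens} (h : V ≤ D.Y ⊓ inter D.U s) (hc : V ≤ D.U c) :
    f.val s h = ∑ i : Fin (n + 2), (-1 : ℤ) ^ (i : ℕ) •
      f.val (Fin.cons c (s ∘ i.succAbove) : Fin (n + 2) → τ) (show V ≤ _ from by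
        refine le_inf (h.trans inf_le_left) (le_iInf fun j => ?_)
        refine Fin.cases ?_ (fun l => ?_) j
        · rw [Fin.cons_zero]; exact hc
        · rw [Fin.cons_succ]
          exact h.trans (inf_le_right.trans (inter_le D.U s _))) := by
  have hV : V ≤ D.Y ⊓ inter D.U (Fin.cons c s : Fin (n + 3) → τ) := by
    refine le_inf (h.trans inf_le_left) (le_iInf fun j => ?_)
    refine Fin.cases ?_ (fun l => ?_) j
    · rw [Fin.cons_zero]; exact hc
    · rw [Fin.cons_succ]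
      exact h.trans (inf_le_right.trans (inter_le D.U s _))
  have h1 := congrFun hf (Fin.cons c s : Fin (n + 3) → τ)
  have h2 := congrArg (M.F.res hV) h1
  rw [Coch.zero_apply, map_zero] at h2
  unfold Coch.d at h2
  rw [map_sum, Fin.sum_univ_succ] at h2
  have h3 : M.F.res hV ((-1 : ℤ) ^ ((0 : Fin (n + 3)) : ℕ) •
        f.val ((Fin.cons c s : Fin (n + 3) → τ) ∘ (0 : Fin (n + 3)).succAbove)
        (inf_inter_le D.U D.Y _ _)) = f.val s h := by
    rw [Fin.val_zero, pow_zero, one_smul]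
    unfold Coch.val
    rw [M.F.res_res]
    have h4 : ((Fin.cons c s : Fin (n + 3) → τ) ∘ (0 : Fin (n + 3)).succAbove) = s := by
      funext i
      simp
    exact Coch.val_congr f h4 _ _
  rw [h3] at h2
  rw [← sub_eq_zero, sub_eq_add_neg, ← h2, ← Finset.sum_neg_distrib]
  congr 1
  refine Finset.sum_congr rfl fun i _ => ?_
  rw [map_zsmul, Fin.val_succ, pow_succ, mul_neg_one, neg_smul]
  congr 2
  unfold Coch.val
  rw [M.F.res_res]
  refine Coch.val_congr f ?_ _ _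
  funext j
  refine Fin.cases ?_ (fun l => ?_) j
  · simp
  · simp

lemma exists_uniform {α : Type} [Finite α] (P : α → ℕ → Prop)
    (hP : ∀ a n m, n ≤ m → P a n → P a m) (h : ∀ a, ∃ n, P a n) : ∃ n, ∀ a, P a n := by
  have := Fintype.ofFinite α
  choose n hn using h
  exact ⟨Finset.univ.sup n, fun a => hP a (n a) _ (Finset.le_sup (Finset.mem_univ a)) (hn a)⟩

lemma res_pow {V W : X.Opens} (h : W ≤ V) (f : Γ(X, V)) (n : ℕ) :
    res h (f ^ n) = res h f ^ n := map_pow _ _ _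

/-- the intersection with a further member of the covering -/
lemma cap_le {n : ℕ} (s : Fin n → τ) (c : τ) :
    (D.Y ⊓ inter D.U s) ⊓ D.U c ≤ D.Y ⊓ inter D.U (Fin.cons c s : Fin (n + 1) → τ) := by
  refine le_inf (inf_le_left.trans inf_le_left) (le_iInf fun j => ?_)
  refine Fin.cases ?_ (fun l => ?_) j
  · rw [Fin.cons_zero]; exact inf_le_right
  · rw [Fin.cons_succ]
    exact inf_le_left.trans (inf_le_right.trans (inter_le D.U s _))

lemma step_one {n : ℕ} (f : Coch D.U M.F (n + 2) D.Y) :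
    ∃ (N : ℕ) (g : τ → Coch D.U M.F (n + 1) D.Y), ∀ (c : τ) (s : Fin (n + 1) → τ),
      M.F.res inf_le_left (g c s) = M.sm (res (inf_le_left.trans (D.le0 s 0)) (D.m (s 0) c) ^ N)
        (f.val (Fin.cons c s : Fin (n + 2) → τ) (D.cap_le s c)) := by
  have key : ∃ N : ℕ, ∀ p : τ × (Fin (n + 1) → τ), ∃ t : M.F.obj (D.Y ⊓ inter D.U p.2),
      M.F.res (inf_le_left : (D.Y ⊓ inter D.U p.2) ⊓ D.U p.1 ≤ _) t =
        M.sm (res (inf_le_left.trans (D.le0 p.2 0)) (D.m (p.2 0) p.1) ^ N)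
        (f.val (Fin.cons p.1 p.2 : Fin (n + 2) → τ) (D.cap_le p.2 p.1)) := by
    apply exists_uniform
    · rintro ⟨c, s⟩ N N' hN ⟨t, ht⟩
      refine ⟨M.sm (res (D.le0 s 0) (D.m (s 0) c) ^ (N' - N)) t, ?_⟩
      rw [M.sm_res, res_pow, res_res, ht, ← M.sm_mul, ← pow_add, Nat.sub_add_cancel hN]
    · rintro ⟨c, s⟩
      obtain ⟨N, t, ht⟩ := M.qc2 (D.aff s) (res (D.le0 s 0) (D.m (s 0) c))
        ((D.Y ⊓ inter D.U s) ⊓ D.U c) (D.hm (s 0) c _ (D.le0 s 0)) inf_le_left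
        (f.val (Fin.cons c s : Fin (n + 2) → τ) (D.cap_le s c))
      rw [res_res] at ht
      exact ⟨N, t, ht⟩
  obtain ⟨N, hN⟩ := key
  choose g hg using fun (c : τ) (s : Fin (n + 1) → τ) => hN (c, s)
  exact ⟨N, g, hg⟩

lemma val_res {n : ℕ} (g : Coch D.U M.F n D.Y) (s : Fin n → τ) {V W : X.Opens}
    (h : V ≤ D.Y ⊓ inter D.U s) (h' : W ≤ V) : M.F.res h' (g.val s h) = g.val s (h'.trans h) := by
  unfold Coch.val
  rw [M.F.res_res]

lemma res_mul' {V W : X.Opens} (h : W ≤ V) (f g : Γ(X, V)) :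
    res h (f * g) = res h f * res h g := map_mul _ _ _

/-- the bracket is right after restriction -/
lemma step_two {n : ℕ} (f : Coch D.U M.F (n + 2) D.Y) (hf : f.d = 0) (N : ℕ)
    (g : τ → Coch D.U M.F (n + 1) D.Y) (hg : ∀ (c : τ) (s : Fin (n + 1) → τ),
      M.F.res inf_le_left (g c s) = M.sm (res (inf_le_left.trans (D.le0 s 0)) (D.m (s 0) c) ^ N)
        (f.val (Fin.cons c s : Fin (n + 2) → τ) (D.cap_le s c))) (c : τ)
    (s : Fin (n + 2) → τ) :
    M.F.res (inf_le_left : (D.Y ⊓ inter D.U s) ⊓ D.U c ≤ _) (D.br N (g c) s) =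
      M.F.res inf_le_left (M.sm (res (D.le0 s 0) (D.m (s 0) c) ^ N) (f s)) := by
  -- values of `g c`
  have hg' : ∀ (i : Fin (n + 2)) (a : τ) (ha : (s ∘ i.succAbove) 0 = a)
      (hV : (D.Y ⊓ inter D.U s) ⊓ D.U c ≤ D.U a),
      M.F.res (inf_le_left : (D.Y ⊓ inter D.U s) ⊓ D.U c ≤ _)
        ((g c).val (s ∘ i.succAbove) (inf_inter_le D.U D.Y s _)) =
      M.sm (res hV (D.m a c) ^ N) (f.val (Fin.cons c (s ∘ i.succAbove) : Fin (n + 2) → τ)
        ((inf_le_inf_right _ (inf_inter_le D.U D.Y s _)).trans (D.cap_le _ c))) := by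
    intro i a ha hV
    subst ha
    have h1 := congrArg (M.F.res (inf_le_inf_right (D.U c) (inf_inter_le D.U D.Y s i.succAbove)))
      (hg c (s ∘ i.succAbove))
    rw [M.F.res_res, M.sm_res, res_pow, res_res, D.val_res] at h1
    rw [D.val_res]
    exact h1
  unfold br
  rw [map_add, map_sum, M.sm_res, res_pow, res_res, hg' 0 (s 1) rfl (inf_le_left.trans (D.le0 s 1)),
    ← M.sm_mul, ← mul_pow]
  have h2 : res (inf_le_left.trans (le_inf (D.le0 s 0) (D.le0 s 1)) :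
      (D.Y ⊓ inter D.U s) ⊓ D.U c ≤ _) (D.l (s 0) (s 1)) *
      res (inf_le_left.trans (D.le0 s 1)) (D.m (s 1) c) =
      res (inf_le_left.trans (D.le0 s 0) : (D.Y ⊓ inter D.U s) ⊓ D.U c ≤ _) (D.m (s 0) c) :=
    (D.rm_l (s 0) (s 1) c (inf_le_left.trans (D.le0 s 0)) (inf_le_left.trans (D.le0 s 1))).symm
  rw [h2, M.sm_res, res_pow, res_res]
  have h3 := D.cocycle_cons f hf c s (V := (D.Y ⊓ inter D.U s) ⊓ D.U c) inf_le_left inf_le_right
  have h4 : M.F.res (inf_le_left : (D.Y ⊓ inter D.U s) ⊓ D.U c ≤ _) (f s) =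
    f.val s inf_le_left := rfl
  rw [h4, h3, map_sum]
  refine Eq.trans ?_ (Fin.sum_univ_succ _).symm
  congr 1
  · rw [Fin.val_zero, pow_zero, one_smul]
  · refine Finset.sum_congr rfl fun i _ => ?_
    rw [map_zsmul, sm_zsmul, hg' i.succ (s 0) (by simp) (inf_le_left.trans (D.le0 s 0)),
      Fin.val_succ]

/-- exactness of the bracket -/
lemma step_three {n : ℕ} (f : Coch D.U M.F (n + 2) D.Y) (hf : f.d = 0) :
    ∃ (N : ℕ) (g : τ → Coch D.U M.F (n + 1) D.Y), ∀ (c : τ) (s : Fin (n + 2) → τ),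
      D.br N (g c) s = M.sm (res (D.le0 s 0) (D.m (s 0) c) ^ N) (f s) := by
  obtain ⟨N, g, hg⟩ := D.step_one f
  have h2 := D.step_two f hf N g hg
  have key : ∃ N' : ℕ, ∀ p : τ × (Fin (n + 2) → τ),
      M.sm (res (D.le0 p.2 0) (D.m (p.2 0) p.1) ^ N') (D.br N (g p.1) p.2 -
        M.sm (res (D.le0 p.2 0) (D.m (p.2 0) p.1) ^ N) (f p.2)) = 0 := by
    apply exists_uniform
    · rintro ⟨c, s⟩ N₁ N₂ hN h
      have h3 : res (D.le0 s 0) (D.m (s 0) c) ^ N₂ = res (D.le0 s 0) (D.m (s 0) c) ^ (N₂ - N₁) *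
        res (D.le0 s 0) (D.m (s 0) c) ^ N₁ := by rw [← pow_add, Nat.sub_add_cancel hN]
      simp only at h ⊢
      rw [h3, M.sm_mul, h, map_zero]
    · rintro ⟨c, s⟩
      obtain ⟨N', hN'⟩ := M.qc1 (D.aff s) (res (D.le0 s 0) (D.m (s 0) c))
        ((D.Y ⊓ inter D.U s) ⊓ D.U c) (D.hm (s 0) c _ (D.le0 s 0)) inf_le_left
        (D.br N (g c) s - M.sm (res (D.le0 s 0) (D.m (s 0) c) ^ N) (f s)) (by
          rw [map_sub, h2, sub_self])
      exact ⟨N', hN'⟩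
  obtain ⟨N', hN'⟩ := key
  refine ⟨N + N', fun c => D.mc N' c (g c), fun c s => ?_⟩
  rw [D.br_mc]
  have h3 := hN' (c, s)
  simp only at h3
  rw [map_sub, sub_eq_zero] at h3
  rw [h3, ← M.sm_mul, ← pow_add, add_comm N' N]

/-- the main vanishing result -/
theorem cechExact (n : ℕ) : CechExact D.U M.F (n + 1) D.Y := by
  intro f hf
  obtain ⟨N, g, hg⟩ := D.step_three f hf
  refine ⟨fun s => ∑ c, (D.T N (s 0) c).app _ (D.le0 s 0) (g c s), ?_⟩
  apply Coch.ext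
  intro s
  have hval : ∀ (i : Fin (n + 2)) (a : τ) (ha : (s ∘ i.succAbove) 0 = a)
      (hV : (D.Y ⊓ inter D.U s : X.Opens) ≤ D.U a),
      Coch.val (fun s => ∑ c, (D.T N (s 0) c).app _ (D.le0 s 0) (g c s) :
        Coch D.U M.F (n + 1) D.Y) (s ∘ i.succAbove) (inf_inter_le D.U D.Y s _) =
      ∑ c, (D.T N a c).app _ hV ((g c).val (s ∘ i.succAbove) (inf_inter_le D.U D.Y s _)) := by
    intro i a ha hV
    subst ha
    unfold Coch.val
    rw [map_sum]
    refine Finset.sum_congr rfl fun c _ => ?_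
    rw [(D.T N ((s ∘ i.succAbove) 0) c).nat]
  unfold Coch.d
  rw [Fin.sum_univ_succ, hval 0 (s 1) rfl (D.le0 s 1)]
  have h1 : ∀ i : Fin (n + 1), (-1 : ℤ) ^ ((i.succ : Fin (n + 2)) : ℕ) •
      Coch.val (fun s => ∑ c, (D.T N (s 0) c).app _ (D.le0 s 0) (g c s) :
        Coch D.U M.F (n + 1) D.Y) (s ∘ i.succ.succAbove) (inf_inter_le D.U D.Y s _) =
      ∑ c, (D.T N (s 0) c).app _ (D.le0 s 0) ((-1 : ℤ) ^ ((i : ℕ) + 1) •
        (g c).val (s ∘ i.succ.succAbove) (inf_inter_le D.U D.Y s _)) := by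
    intro i
    rw [hval i.succ (s 0) (by simp) (D.le0 s 0), Finset.smul_sum, Fin.val_succ]
    refine Finset.sum_congr rfl fun c _ => ?_
    rw [D.smT]
  rw [Finset.sum_congr rfl (fun i _ => h1 i), Finset.sum_comm, Fin.val_zero, pow_zero, one_smul,
    ← Finset.sum_add_distrib]
  have h2 : ∀ c, (D.T N (s 1) c).app _ (D.le0 s 1)
      ((g c).val (s ∘ (0 : Fin (n + 2)).succAbove) (inf_inter_le D.U D.Y s _)) +
      ∑ i : Fin (n + 1), (D.T N (s 0) c).app _ (D.le0 s 0) ((-1 : ℤ) ^ ((i : ℕ) + 1) •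
        (g c).val (s ∘ i.succ.succAbove) (inf_inter_le D.U D.Y s _)) =
      (D.T N (s 0) c).app _ (D.le0 s 0) (M.sm (res (D.le0 s 0) (D.m (s 0) c) ^ N) (f s)) := by
    intro c
    rw [D.hTl N (s 0) (s 1) c _ (D.le0 s 0) (D.le0 s 1), ← map_sum, ← map_add, ← hg c s]
    rfl
  rw [Finset.sum_congr rfl (fun c _ => h2 c)]
  exact D.hT1 N (s 0) _ (D.le0 s 0) (f s)

end PartData

end Pool.Agent.H924.Daff
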