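import Mathlib

/-!
The basic open subset of a chart of `Proj` where a ratio of coordinates does not vanish.
-/

set_option autoImplicit false

namespace Pool.Agent.H924.Daff

open AlgebraicGeometry HomogeneousLocalization CategoryTheory TopologicalSpace

theorem basicOpen_sec {k S : Type} [Field k] [CommRing S] [Algebra k S] (𝒜 : ℕ → Submodule k S)
    [GradedAlgebra 𝒜] (f g : S) (hf : f ∈ 𝒜 1) (hg : g ∈ 𝒜 1) :
    Proj.basicOpen 𝒜 f ⊓ Proj.basicOpen 𝒜 g = (Proj 𝒜).basicOpen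
      ((Proj.awayToSection 𝒜 f).hom (Away.isLocalizationElem hf hg)) := by
  set z := Away.isLocalizationElem hf hg with hz
  have h1 := Proj.awayι_preimage_basicOpen 𝒜 hf one_pos hg one_pos
  have h2 : (Proj.basicOpen 𝒜 f).ι ⁻¹ᵁ Proj.basicOpen 𝒜 g =
      Proj.basicOpenToSpec 𝒜 f ⁻¹ᵁ (PrimeSpectrum.basicOpen z) := by
    rw [hz, ← h1, ← Scheme.Hom.comp_preimage, ← Proj.basicOpenIsoSpec_inv_ι]
    rw [← Proj.basicOpenIsoSpec_hom 𝒜 f hf one_pos, Iso.hom_inv_id_assoc]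
  have h3 : Proj.basicOpenToSpec 𝒜 f ⁻¹ᵁ (PrimeSpectrum.basicOpen z) =
      (Proj.basicOpen 𝒜 f).ι ⁻¹ᵁ (Proj 𝒜).basicOpen ((Proj.awayToSection 𝒜 f).hom z) := by
    rw [Proj.basicOpenToSpec, Scheme.Hom.comp_preimage, ← Scheme.Opens.toSpecΓ_preimage_basicOpen]
    rfl
  have h4 := h2.trans h3
  apply le_antisymm
  · rintro x ⟨hx1, hx2⟩
    have h5 : (⟨x, hx1⟩ : Proj.basicOpen 𝒜 f) ∈ (Proj.basicOpen 𝒜 f).ι ⁻¹ᵁ Proj.basicOpen 𝒜 g := hx2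
    rw [h4] at h5
    exact h5
  · intro x hx
    have hx1 : x ∈ Proj.basicOpen 𝒜 f := (Proj 𝒜).basicOpen_le _ hx
    refine ⟨hx1, ?_⟩
    have h5 : (⟨x, hx1⟩ : Proj.basicOpen 𝒜 f) ∈ (Proj.basicOpen 𝒜 f).ι ⁻¹ᵁ
      (Proj 𝒜).basicOpen ((Proj.awayToSection 𝒜 f).hom z) := hx
    rw [← h4] at h5
    exact h5

end Pool.Agent.H924.Daff
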