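import Pool.Agent.H924.Daff.QT

/-!
The operators used for the generation by global sections.
-/

set_option autoImplicit false

namespace Pool.Agent.H924.Daff

open AddMonoidAlgebra AlgebraicGeometry HomogeneousLocalization CategoryTheory TopologicalSpace
open Pool.Agent.H835R3 (res res_res res_self gam gam_res gam_injective genericPoint_mem eq_of_gam
  IsSemi)
open Pool.Agent.H835R3.Stmt Stmt

variable {k : Type} [Field k]

/-- residues -/
abbrev IX (N : ℕ) : Type := Fin 4 → Fin (2 ^ (N + 1))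

/-- the size of a residue -/
def sz {N : ℕ} (β : IX N) : ℕ := (β 0 : ℕ) + β 1 + β 2 + β 3

lemma exists_le (b : Fin 4 → ℕ) (K : ℕ) (h : K ≤ b 0 + b 1 + b 2 + b 3) :
    ∃ w : Fin 4 → ℕ, (∀ i, w i ≤ b i) ∧ w 0 + w 1 + w 2 + w 3 = K := by
  refine ⟨![min (b 0) K, min (b 1) (K - min (b 0) K),
    min (b 2) (K - min (b 0) K - min (b 1) (K - min (b 0) K)),
    K - min (b 0) K - min (b 1) (K - min (b 0) K) -
      min (b 2) (K - min (b 0) K - min (b 1) (K - min (b 0) K))], ?_, ?_⟩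
  · intro i
    fin_cases i
    · show min (b 0) K ≤ b 0
      omega
    · show min (b 1) (K - min (b 0) K) ≤ b 1
      omega
    · show min (b 2) (K - min (b 0) K - min (b 1) (K - min (b 0) K)) ≤ b 2
      omega
    · show K - min (b 0) K - min (b 1) (K - min (b 0) K) -
        min (b 2) (K - min (b 0) K - min (b 1) (K - min (b 0) K)) ≤ b 3
      omega
  · show min (b 0) K + min (b 1) (K - min (b 0) K) +
      min (b 2) (K - min (b 0) K - min (b 1) (K - min (b 0) K)) +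
      (K - min (b 0) K - min (b 1) (K - min (b 0) K) -
        min (b 2) (K - min (b 0) K - min (b 1) (K - min (b 0) K))) = K
    omega

/-- a chosen smaller exponent of size `K` -/
noncomputable def wt {N : ℕ} (β : IX N) (K : ℕ) : GG :=
  if h : K ≤ sz β then fun i => ((exists_le (fun i => (β i : ℕ)) K h).choose i : ℤ) else 0

lemma wt_nonneg {N : ℕ} (β : IX N) (K : ℕ) (i : Fin 4) : 0 ≤ wt β K i := by
  unfold wt
  split_ifs with h
  · exact Int.natCast_nonneg _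
  · exact le_rfl

lemma wt_le {N : ℕ} (β : IX N) (K : ℕ) (i : Fin 4) : wt β K i ≤ ((β i : ℕ) : ℤ) := by
  unfold wt
  split_ifs with h
  · show (((exists_le (fun i => (β i : ℕ)) K h).choose i : ℕ) : ℤ) ≤ _
    exact Int.ofNat_le.2 ((exists_le (fun i => (β i : ℕ)) K h).choose_spec.1 i)
  · exact Int.natCast_nonneg _

lemma dg_wt {N : ℕ} (β : IX N) (K : ℕ) (h : K ≤ sz β) : dg (wt β K) = K := by
  have h1 := (exists_le (fun i => (β i : ℕ)) K h).choose_spec.2
  unfold wt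
  rw [dif_pos h]
  unfold dg
  beta_reduce
  exact_mod_cast h1

/-- the condition of `A` -/
def QA (N : ℕ) (a : Fin 4) (β : IX N) (K : ℕ) (u : GG) : Prop :=
  (∀ i, (u i + ((N + 1) • ei a) i) % ((2 ^ (N + 1) : ℕ) : ℤ) = ((β i : ℕ) : ℤ)) ∧ K ≤ sz β

instance (N : ℕ) (a : Fin 4) (β : IX N) (K : ℕ) : DecidablePred (QA N a β K) := fun u => by
  unfold QA
  infer_instance

/-- the condition of `B` -/
def QB {N : ℕ} (β : IX N) (K : ℕ) (_ : GG) : Prop := K ≤ sz β

instance {N : ℕ} (β : IX N) (K : ℕ) : DecidablePred (QB β K) := fun u => by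
  unfold QB
  infer_instance

lemma QA_periodic (N : ℕ) (a : Fin 4) (β : IX N) (K : ℕ) (w u : GG) :
    QA N a β K ((2 ^ (N + 1) : ℕ) • w + u) ↔ QA N a β K u := by
  unfold QA
  have h : ∀ i, (((2 ^ (N + 1) : ℕ) • w + u) i + ((N + 1) • ei a) i) % ((2 ^ (N + 1) : ℕ) : ℤ) =
      (u i + ((N + 1) • ei a) i) % ((2 ^ (N + 1) : ℕ) : ℤ) := by
    intro i
    rw [Pi.add_apply, nsmul_ap, add_assoc, add_comm, Int.add_mul_emod_self_left]
  simp only [h]

/-- exponent of `A` -/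
noncomputable def xA (N : ℕ) (a : Fin 4) (β : IX N) (K : ℕ) : GG := (N + 1) • ei a - wt β K

lemma dg_xA (N : ℕ) (a : Fin 4) (β : IX N) (K : ℕ) (h : K ≤ sz β) :
    dg (xA N a β K) = (N + 1 : ℕ) - K := by
  unfold xA
  rw [sub_eq_add_neg, dg_add, dg_neg, dg_wt β K h, dg_nsmul, dg_ei]
  ring

lemma A0_deg (N : ℕ) (a : Fin 4) (β : IX N) :
    DegOK (mono k (QA N a β (N + 1)) (xA N a β (N + 1))) 0 0 0 := by
  refine ⟨fun l hl => ⟨?_, zero_mem _⟩, fun l hl => ⟨zero_mem _, zero_mem _⟩⟩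
  refine mono_supp ?_ hl
  intro u hu hQ
  show dg _ = 0
  rw [dg_add, dg_xA _ _ _ _ hQ.2, show dg u = 0 from hu]
  ring

lemma A1_deg (N : ℕ) (a : Fin 4) (β : IX N) :
    DegOK 0 (mono k (QA N a β N) (xA N a β N)) 0 0 := by
  refine ⟨fun l hl => ⟨zero_mem _, zero_mem _⟩, fun l hl => ⟨?_, zero_mem _⟩⟩
  refine mono_supp ?_ hl
  intro u hu hQ
  show dg _ = 0
  rw [dg_add, dg_xA _ _ _ _ hQ.2]
  have : dg u + 1 = 0 := hu
  push_cast
  linarith

lemma B0_deg (N : ℕ) (a : Fin 4) (β : IX N) :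
    DegOK (mono k (QB β (N + 1)) (-xA N a β (N + 1))) 0 0 0 := by
  refine ⟨fun l hl => ⟨?_, zero_mem _⟩, fun l hl => ⟨zero_mem _, zero_mem _⟩⟩
  refine mono_supp ?_ hl
  intro u hu hQ
  show dg _ = 0
  rw [dg_add, dg_neg, dg_xA _ _ _ _ hQ, show dg u = 0 from hu]
  ring

lemma B1_deg (N : ℕ) (a : Fin 4) (β : IX N) :
    DegOK 0 0 (mono k (QB β N) (-xA N a β N)) 0 := by
  refine ⟨fun l hl => ⟨zero_mem _, ?_⟩, fun l hl => ⟨zero_mem _, zero_mem _⟩⟩
  refine mono_supp ?_ hl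
  intro u hu hQ
  show dg _ + 1 = 0
  rw [dg_add, dg_neg, dg_xA _ _ _ _ hQ, show dg u = 0 from hu]
  push_cast
  ring

/-- the operators `A` -/
noncomputable def Aop (k : Type) [Field k] (N : ℕ) (a : Fin 4) : IX N ⊕ IX N → (L0 k →+ L0 k)
  | Sum.inl β => blk0 (mono k (QA N a β (N + 1)) (xA N a β (N + 1))) 0 0 0 (A0_deg N a β)
  | Sum.inr β => blk0 0 (mono k (QA N a β N) (xA N a β N)) 0 0 (A1_deg N a β)

/-- the operators `B` -/
noncomputable def Bop (k : Type) [Field k] (N : ℕ) (a : Fin 4) : IX N ⊕ IX N → (L0 k →+ L0 k)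
  | Sum.inl β => blk0 (mono k (QB β (N + 1)) (-xA N a β (N + 1))) 0 0 0 (B0_deg N a β)
  | Sum.inr β => blk0 0 0 (mono k (QB β N) (-xA N a β N)) 0 (B1_deg N a β)

lemma Aop_semi [CharP k 2] (N : ℕ) (a : Fin 4) (j : IX N ⊕ IX N) :
    IsSemi (2 ^ (N + 2)) (2 ^ (N + 2)) (Aop k N a j) := by
  rcases j with β | β
  · exact blk0_semi (N + 1) (A0_deg N a β)
      (mono_isSemi (k := k) 2 (N + 1) _ _ (QA_periodic N a β (N + 1)))
      (zero_isSemi _) (zero_isSemi _) (zero_isSemi _)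
  · exact blk0_semi (N + 1) (A1_deg N a β) (zero_isSemi _)
      (mono_isSemi (k := k) 2 (N + 1) _ _ (QA_periodic N a β N)) (zero_isSemi _) (zero_isSemi _)

lemma Bop_semi [CharP k 2] (N : ℕ) (a : Fin 4) (j : IX N ⊕ IX N) :
    IsSemi (2 ^ (N + 2)) (2 ^ (N + 2)) (Bop k N a j) := by
  rcases j with β | β
  · exact blk0_semi (N + 1) (B0_deg N a β)
      (mono_isSemi (k := k) 2 (N + 1) _ _ (fun _ _ => Iff.rfl))
      (zero_isSemi _) (zero_isSemi _) (zero_isSemi _)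
  · exact blk0_semi (N + 1) (B1_deg N a β) (zero_isSemi _) (zero_isSemi _)
      (mono_isSemi (k := k) 2 (N + 1) _ _ (fun _ _ => Iff.rfl)) (zero_isSemi _)

lemma ei_apply_ne {a i : Fin 4} (h : a ≠ i) : ei a i = 0 := by
  unfold ei
  rw [Pi.single_apply, if_neg (fun h' => h h'.symm)]

lemma ne_of_ea {a i : Fin 4} (hi : ea a i = 0) : a ≠ i := by
  intro h
  rw [ea_apply, if_pos h] at hi
  exact one_ne_zero hi

lemma A_reg (N : ℕ) (a : Fin 4) (β : IX N) (K : ℕ) (u : GG) (hu : u ∈ regm (ea a))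
    (hQ : QA N a β K u) : u + xA N a β K ∈ regm (ea a) := by
  intro i hi
  have hia := ne_of_ea hi
  have h0 := hu i hi
  have h1 := hQ.1 i
  have h2 := wt_le β K i
  rw [nsmul_ap, ei_apply_ne hia, mul_zero, add_zero] at h1
  unfold xA
  rw [Pi.add_apply, Pi.sub_apply, nsmul_ap, ei_apply_ne hia, mul_zero, zero_sub]
  have hq : (0 : ℤ) < ((2 ^ (N + 1) : ℕ) : ℤ) := by positivity
  have h3 : u i % ((2 ^ (N + 1) : ℕ) : ℤ) ≤ u i := by
    have h4 := Int.emod_add_mul_ediv (u i) ((2 ^ (N + 1) : ℕ) : ℤ)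
    have h5 := mul_nonneg hq.le (Int.ediv_nonneg h0 hq.le)
    linarith
  linarith

lemma B_reg (N : ℕ) (a : Fin 4) (β : IX N) (K : ℕ) (u : GG) (hu : u ∈ regm (ea a)) :
    u + (-xA N a β K) ∈ regm (ea a) := by
  intro i hi
  have hia := ne_of_ea hi
  have h0 := hu i hi
  have h2 := wt_nonneg β K i
  unfold xA
  rw [Pi.add_apply, Pi.neg_apply, Pi.sub_apply, nsmul_ap, ei_apply_ne hia, mul_zero, zero_sub]
  linarith

lemma Aop_pres (N : ℕ) (a : Fin 4) (j : IX N ⊕ IX N) (w : L0 k) (hw : (w : LL k) ∈ Cm k (ea a)) :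
    (Aop k N a j w : LL k) ∈ Cm k (ea a) := by
  rcases j with β | β
  · refine blk0_Cm (ea a) (A0_deg N a β) ?_ ?_ w hw
    · intro l _ hl
      exact ⟨mono_supp (fun u hu hQ => A_reg N a β _ u hu hQ) hl, zero_mem _⟩
    · intro l _ hl
      exact ⟨zero_mem _, zero_mem _⟩
  · refine blk0_Cm (ea a) (A1_deg N a β) ?_ ?_ w hw
    · intro l _ hl
      exact ⟨zero_mem _, zero_mem _⟩
    · intro l _ hl
      exact ⟨mono_supp (fun u hu hQ => A_reg N a β _ u hu hQ) hl, zero_mem _⟩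

lemma Bop_pres (N : ℕ) (a : Fin 4) (j : IX N ⊕ IX N) (w : L0 k) (hw : (w : LL k) ∈ Cm k (ea a)) :
    (Bop k N a j w : LL k) ∈ Cm k (ea a) := by
  rcases j with β | β
  · refine blk0_Cm (ea a) (B0_deg N a β) ?_ ?_ w hw
    · intro l _ hl
      exact ⟨mono_supp (fun u hu _ => B_reg N a β _ u hu) hl, zero_mem _⟩
    · intro l _ hl
      exact ⟨zero_mem _, zero_mem _⟩
  · refine blk0_Cm (ea a) (B1_deg N a β) ?_ ?_ w hw
    · intro l _ hl
      exact ⟨zero_mem _, mono_supp (fun u hu _ => B_reg N a β _ u hu) hl⟩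
    · intro l _ hl
      exact ⟨zero_mem _, zero_mem _⟩

lemma exists_A [CharP k 2] (N : ℕ) (a : Fin 4) (j : IX N ⊕ IX N) :
    ∃ ψ : PowEnd (2 ^ (N + 2)) (UU k (ea a)), Rep ψ (Aop k N a j) :=
  exists_rep (pow_pos two_pos _) (ea a) (dn_ea_pos a) _ (Aop_semi N a j) (Aop_pres N a j) _ rfl

lemma exists_B [CharP k 2] (N : ℕ) (a : Fin 4) (j : IX N ⊕ IX N) :
    ∃ ψ : PowEnd (2 ^ (N + 2)) (UU k (ea a)), Rep ψ (Bop k N a j) :=
  exists_rep (pow_pos two_pos _) (ea a) (dn_ea_pos a) _ (Bop_semi N a j) (Bop_pres N a j) _ rfl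

lemma QA_rel (N : ℕ) (a b : Fin 4) (β : IX N) (K : ℕ) (u : GG) :
    QA N a β K ((N + 1) • rr a b + u) ↔ QA N b β K u := by
  have h1 : ∀ i, ((N + 1) • rr a b + u) i + ((N + 1) • ei a) i = u i + ((N + 1) • ei b) i := by
    intro i
    have h2 : ((N + 1) • rr a b + u) i = ((N + 1 : ℕ) : ℤ) * (ei b i - ei a i) + u i := by
      rw [Pi.add_apply, nsmul_ap]
      rfl
    rw [h2, nsmul_ap, nsmul_ap]
    ring
  unfold QA
  constructor
  · rintro ⟨h2, h3⟩
    refine ⟨fun i => ?_, h3⟩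
    rw [← h1]
    exact h2 i
  · rintro ⟨h2, h3⟩
    refine ⟨fun i => ?_, h3⟩
    rw [h1]
    exact h2 i

lemma xA_rel (N : ℕ) (a b : Fin 4) (β : IX N) (K : ℕ) :
    (N + 1) • rr a b + xA N a β K = xA N b β K := by
  unfold rr xA
  rw [smul_sub]
  abel

lemma Aop_rel (N : ℕ) (a b : Fin 4) (j : IX N ⊕ IX N) : Aop k N b j =
    (Aop k N a j).comp (AddMonoidHom.mulLeft (m0 k ((N + 1) • rr a b) (dg_nrr (N + 1) a b))) := by
  apply AddMonoidHom.ext
  intro w
  apply Subtype.ext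
  rw [AddMonoidHom.comp_apply, AddMonoidHom.coe_mulLeft]
  rcases j with β | β
  · show blk _ _ _ _ (w : LL k) = blk _ _ _ _ ((_ * w : L0 k) : LL k)
    apply QuadraticAlgebra.ext
    · rw [blk_re, blk_re, m0_mul_re, AddMonoidHom.zero_apply, AddMonoidHom.zero_apply,
        mono_mul_single]
      congr 1
      exact (mono_congr (xA_rel N a b β _) (fun u _ => QA_rel N a b β _ u) w.2.1).symm
    · rw [blk_im, blk_im, AddMonoidHom.zero_apply, AddMonoidHom.zero_apply,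
        AddMonoidHom.zero_apply, AddMonoidHom.zero_apply]
  · show blk _ _ _ _ (w : LL k) = blk _ _ _ _ ((_ * w : L0 k) : LL k)
    apply QuadraticAlgebra.ext
    · rw [blk_re, blk_re, m0_mul_im, AddMonoidHom.zero_apply, AddMonoidHom.zero_apply,
        mono_mul_single]
      congr 1
      exact (mono_congr (xA_rel N a b β _) (fun u _ => QA_rel N a b β _ u) w.2.2).symm
    · rw [blk_im, blk_im, AddMonoidHom.zero_apply, AddMonoidHom.zero_apply,
        AddMonoidHom.zero_apply, AddMonoidHom.zero_apply]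

lemma mono_mono (Q Q' : GG → Prop) [DecidablePred Q] [DecidablePred Q'] (m m' : GG) (l : AL k) :
    mono k Q' m' (mono k Q m l) = mono k (fun u => Q u ∧ Q' (u + m)) (m + m') l := by
  have h : (mono k Q' m').comp (mono k Q m) =
      mono k (fun u => Q u ∧ Q' (u + m)) (m + m') := by
    apply addHom_ext'
    intro u a
    rw [AddMonoidHom.comp_apply, mono_single, mono_single]
    by_cases h1 : Q u
    · rw [if_pos h1, mono_single]
      by_cases h2 : Q' (u + m)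
      · rw [if_pos h2, if_pos ⟨h1, h2⟩, add_assoc]
      · rw [if_neg h2, if_neg (fun h => h2 h.2)]
    · rw [if_neg h1, if_neg (fun h => h1 h.1), map_zero]
  exact congrArg (fun F => F l) h

/-- the class of an exponent -/
def clsIX (N : ℕ) (a : Fin 4) (u : GG) : IX N := fun i =>
  ⟨((u i + ((N + 1) • ei a) i) % ((2 ^ (N + 1) : ℕ) : ℤ)).toNat, by
    have hq : (0 : ℤ) < ((2 ^ (N + 1) : ℕ) : ℤ) := by positivity
    have h1 := Int.emod_nonneg (u i + ((N + 1) • ei a) i) hq.ne'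
    have h2 := Int.emod_lt_of_pos (u i + ((N + 1) • ei a) i) hq
    omega⟩

lemma clsIX_spec (N : ℕ) (a : Fin 4) (u : GG) (i : Fin 4) :
    ((clsIX N a u i : ℕ) : ℤ) = (u i + ((N + 1) • ei a) i) % ((2 ^ (N + 1) : ℕ) : ℤ) := by
  have hq : (0 : ℤ) < ((2 ^ (N + 1) : ℕ) : ℤ) := by positivity
  exact Int.toNat_of_nonneg (Int.emod_nonneg _ hq.ne')

lemma clsIX_sz (N : ℕ) (a : Fin 4) (u : GG) (K : ℕ) (hK : K < 2 ^ (N + 1))
    (hu : dg u + (N + 1 : ℕ) = K) : K ≤ sz (clsIX N a u) := by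
  have hq : (0 : ℤ) < ((2 ^ (N + 1) : ℕ) : ℤ) := by positivity
  by_contra hcon
  push Not at hcon
  have hs : ((sz (clsIX N a u) : ℕ) : ℤ) = (u 0 + ((N + 1) • ei a) 0) % ((2 ^ (N + 1) : ℕ) : ℤ) +
      (u 1 + ((N + 1) • ei a) 1) % ((2 ^ (N + 1) : ℕ) : ℤ) +
      (u 2 + ((N + 1) • ei a) 2) % ((2 ^ (N + 1) : ℕ) : ℤ) +
      (u 3 + ((N + 1) • ei a) 3) % ((2 ^ (N + 1) : ℕ) : ℤ) := by
    unfold sz
    push_cast
    have h0 := clsIX_spec N a u 0
    have h1 := clsIX_spec N a u 1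
    have h2 := clsIX_spec N a u 2
    have h3 := clsIX_spec N a u 3
    push_cast at h0 h1 h2 h3
    rw [h0, h1, h2, h3]
  have e0 := Int.emod_add_mul_ediv (u 0 + ((N + 1) • ei a) 0) ((2 ^ (N + 1) : ℕ) : ℤ)
  have e1 := Int.emod_add_mul_ediv (u 1 + ((N + 1) • ei a) 1) ((2 ^ (N + 1) : ℕ) : ℤ)
  have e2 := Int.emod_add_mul_ediv (u 2 + ((N + 1) • ei a) 2) ((2 ^ (N + 1) : ℕ) : ℤ)
  have e3 := Int.emod_add_mul_ediv (u 3 + ((N + 1) • ei a) 3) ((2 ^ (N + 1) : ℕ) : ℤ)
  have hd : dg (u + (N + 1) • ei a) = K := by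
    rw [dg_add, dg_nsmul, dg_ei, mul_one]
    exact hu
  unfold dg at hd
  simp only [Pi.add_apply] at hd
  set q : ℤ := ((2 ^ (N + 1) : ℕ) : ℤ) with hqdef
  have hKq : (K : ℤ) < q := by
    rw [hqdef]
    exact_mod_cast hK
  have hsK : ((sz (clsIX N a u) : ℕ) : ℤ) < K := by exact_mod_cast hcon
  have hs0 : (0 : ℤ) ≤ ((sz (clsIX N a u) : ℕ) : ℤ) := Int.natCast_nonneg _
  have h5 : (K : ℤ) - ((sz (clsIX N a u) : ℕ) : ℤ) = q * ((u 0 + ((N + 1) • ei a) 0) / q +
      (u 1 + ((N + 1) • ei a) 1) / q + (u 2 + ((N + 1) • ei a) 2) / q +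
      (u 3 + ((N + 1) • ei a) 3) / q) := by
    rw [hs]
    linarith
  set D := (u 0 + ((N + 1) • ei a) 0) / q +
      (u 1 + ((N + 1) • ei a) 1) / q + (u 2 + ((N + 1) • ei a) 2) / q +
      (u 3 + ((N + 1) • ei a) 3) / q with hD
  have h6 : 0 < D := by
    by_contra hc
    push Not at hc
    nlinarith
  nlinarith

lemma sum_mono_QA (N : ℕ) (a : Fin 4) (K : ℕ) (hK : K < 2 ^ (N + 1)) (l : AL k)
    (hl : l ∈ supp k {u | dg u + (N + 1 : ℕ) = K}) :
    ∑ β, mono k (QA N a β K) 0 l = l := by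
  refine supp_induction (P := fun l => ∑ β, mono k (QA N a β K) 0 l = l) ?_ ?_ ?_ l hl
  · simp
  · intro a b ha hb
    simp only [map_add, Finset.sum_add_distrib]
    rw [ha, hb]
  · intro u hu x
    rw [Finset.sum_eq_single (clsIX N a u)]
    · rw [mono_single, if_pos, add_zero]
      exact ⟨fun i => (clsIX_spec N a u i).symm, clsIX_sz N a u K hK hu⟩
    · intro β _ hβ
      rw [mono_single, if_neg]
      rintro ⟨h1, -⟩
      apply hβ
      funext i
      apply Fin.ext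
      have h2 := h1 i
      rw [← clsIX_spec] at h2
      exact_mod_cast h2.symm
    · intro h
      exact absurd (Finset.mem_univ _) h

lemma mono_BA (N : ℕ) (a : Fin 4) (β : IX N) (K : ℕ) (l : AL k) :
    mono k (QB β K) (-xA N a β K) (mono k (QA N a β K) (xA N a β K) l) =
      mono k (QA N a β K) 0 l := by
  rw [mono_mono]
  have h1 : xA N a β K + -xA N a β K = 0 := add_neg_cancel _
  refine mono_congr (k := k) (C := Set.univ) h1 (fun u _ => ?_) (fun u _ => trivial)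
  exact ⟨fun h => h.1, fun h => ⟨h, h.2⟩⟩

lemma BA_inl (N : ℕ) (a : Fin 4) (β : IX N) (w : L0 k) :
    (Bop k N a (Sum.inl β) (Aop k N a (Sum.inl β) w) : LL k) =
      blk (mono k (QA N a β (N + 1)) 0) 0 0 0 w := by
  show blk (mono k (QB β (N + 1)) (-xA N a β (N + 1))) 0 0 0
    (blk (mono k (QA N a β (N + 1)) (xA N a β (N + 1))) 0 0 0 (w : LL k)) = _
  apply QuadraticAlgebra.ext
  · simp only [blk_re, AddMonoidHom.zero_apply, add_zero, mono_BA]
  · simp only [blk_im, AddMonoidHom.zero_apply, add_zero]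

lemma BA_inr (N : ℕ) (a : Fin 4) (β : IX N) (w : L0 k) :
    (Bop k N a (Sum.inr β) (Aop k N a (Sum.inr β) w) : LL k) =
      blk 0 0 0 (mono k (QA N a β N) 0) w := by
  show blk 0 0 (mono k (QB β N) (-xA N a β N)) 0
    (blk 0 (mono k (QA N a β N) (xA N a β N)) 0 0 (w : LL k)) = _
  apply QuadraticAlgebra.ext
  · simp only [blk_re, AddMonoidHom.zero_apply, add_zero]
  · simp only [blk_re, blk_im, AddMonoidHom.zero_apply, add_zero, zero_add, mono_BA]

lemma sum_coe {ι : Type} (t : Finset ι) (f : ι → L0 k) :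
    ((∑ i ∈ t, f i : L0 k) : LL k) = ∑ i ∈ t, (f i : LL k) :=
  map_sum (L0 k).subtype f t

lemma sum_re {ι : Type} (t : Finset ι) (f : ι → LL k) :
    (∑ i ∈ t, f i).re = ∑ i ∈ t, (f i).re := by
  classical
  induction t using Finset.induction_on with
  | empty => rfl
  | insert c t hc ih =>
    rw [Finset.sum_insert hc, Finset.sum_insert hc, ← ih]
    rfl

lemma sum_im {ι : Type} (t : Finset ι) (f : ι → LL k) :
    (∑ i ∈ t, f i).im = ∑ i ∈ t, (f i).im := by
  classical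
  induction t using Finset.induction_on with
  | empty => rfl
  | insert c t hc ih =>
    rw [Finset.sum_insert hc, Finset.sum_insert hc, ← ih]
    rfl

lemma AB_sum (N : ℕ) (a : Fin 4) :
    ∑ j, (Bop k N a j).comp (Aop k N a j) = AddMonoidHom.id (L0 k) := by
  have hN : N + 1 < 2 ^ (N + 1) := Nat.lt_two_pow_self
  apply AddMonoidHom.ext
  intro w
  apply Subtype.ext
  rw [AddMonoidHom.finsetSum_apply, sum_coe, Fintype.sum_sum_type]
  simp only [AddMonoidHom.comp_apply, BA_inl, BA_inr]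
  apply QuadraticAlgebra.ext
  · show (∑ β, blk (mono k (QA N a β (N + 1)) 0) 0 0 0 (w : LL k)).re +
      (∑ β, blk 0 0 0 (mono k (QA N a β N) 0) (w : LL k)).re = (w : LL k).re
    rw [sum_re, sum_re]
    simp only [blk_re, AddMonoidHom.zero_apply, add_zero, Finset.sum_const_zero]
    refine sum_mono_QA N a (N + 1) hN _ (supp_mono (fun u hu => ?_) w.2.1)
    show dg u + _ = _
    rw [show dg u = 0 from hu, zero_add]
  · show (∑ β, blk (mono k (QA N a β (N + 1)) 0) 0 0 0 (w : LL k)).im +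
      (∑ β, blk 0 0 0 (mono k (QA N a β N) 0) (w : LL k)).im = (w : LL k).im
    rw [sum_im, sum_im]
    simp only [blk_im, AddMonoidHom.zero_apply, add_zero, zero_add, Finset.sum_const_zero]
    refine sum_mono_QA N a N (by omega) _ (supp_mono (fun u hu => ?_) w.2.2)
    show dg u + _ = _
    have : dg u + 1 = 0 := hu
    push_cast
    linarith

end Pool.Agent.H924.Daff
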