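import Pool.Agent.H924.Daff.QGrad

/-!
The homogeneous localizations of the coordinate ring of the quadric, inside `LL`.
-/

set_option autoImplicit false

namespace Pool.Agent.H924.Daff

open AddMonoidAlgebra Pool.Agent.H835R3 HomogeneousLocalization

variable {k : Type} [Field k]

/-- a monomial of the coordinate ring -/
noncomputable def mo (k : Type) [Field k] (m : NN) : SS k := ⟨single m 1, 0⟩

/-- a Laurent monomial -/
noncomputable def mL (k : Type) [Field k] (u : GG) : LL k := inA (single u 1)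

lemma mL_add (u v : GG) : mL k (u + v) = mL k u * mL k v := by
  unfold mL
  rw [single_add_one, map_mul]

lemma mL_zero : mL k 0 = 1 := by
  unfold mL
  rw [single_zero_one, map_one]

lemma mL_pow (u : GG) (n : ℕ) : mL k u ^ n = mL k (n • u) := by
  unfold mL
  rw [← map_pow, single_one_pow]

lemma mL_neg_mul (u : GG) : mL k (-u) * mL k u = 1 := by
  rw [← mL_add, neg_add_cancel, mL_zero]

lemma pi_mo (m : NN) : pi k (mo k m) = mL k (gm m) := by
  apply QuadraticAlgebra.ext
  · rw [pi_re]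
    exact th_single m 1
  · rw [pi_im]
    exact map_zero _

lemma mo_add (m m' : NN) : mo k (m + m') = mo k m * mo k m' := by
  apply pi_injective
  rw [map_mul, pi_mo, pi_mo, pi_mo, map_add, mL_add]

lemma mo_mem (m : NN) : mo k m ∈ gr k (dn m) := re_mem_gr

lemma mo_ne_zero (m : NN) : mo k m ≠ 0 := by
  intro h
  have h1 : (single m (1 : k) : SP k) = 0 := congrArg QuadraticAlgebra.re h
  have h2 := congrArg (fun a : SP k => a.coeff m) h1
  simp at h2

lemma isUnit_pi_mo (m : NN) : IsUnit (pi k (mo k m)) := by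
  rw [pi_mo]
  exact IsUnit.of_mul_eq_one (mL k (-gm m)) (by rw [mul_comm, mL_neg_mul])

/-- the extension of `pi` to the localization -/
noncomputable def liftL (k : Type) [Field k] (m : NN) :
    Localization.Away (mo k m) →+* LL k :=
  IsLocalization.Away.lift (S := Localization.Away (mo k m)) (mo k m)
    (g := pi k) (isUnit_pi_mo m)

lemma liftL_algebraMap (m : NN) (a : SS k) :
    liftL k m (algebraMap (SS k) (Localization.Away (mo k m)) a) = pi k a :=
  IsLocalization.Away.lift_eq (S := Localization.Away (mo k m)) (mo k m)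
    (g := pi k) (isUnit_pi_mo m) a

/-- the embedding of the homogeneous localization in the Laurent polynomials -/
noncomputable def alpha (k : Type) [Field k] (m : NN) :
    Away (gr k) (mo k m) →+* LL k :=
  (liftL k m).comp (algebraMap (Away (gr k) (mo k m)) (Localization.Away (mo k m)))

lemma alpha_mul (m : NN) {d : ℕ} (hd : mo k m ∈ gr k d) (n : ℕ) (a : SS k)
    (ha : a ∈ gr k (n • d)) :
    alpha k m (Away.mk (gr k) hd n a ha) * mL k (n • gm m) = pi k a := by
  have h1 : mL k (n • gm m) = liftL k m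
        (algebraMap (SS k) (Localization.Away (mo k m)) (mo k m ^ n)) := by
    rw [liftL_algebraMap, map_pow, pi_mo, mL_pow]
  rw [h1]
  unfold alpha
  rw [RingHom.comp_apply, HomogeneousLocalization.algebraMap_apply, Away.val_mk, ← map_mul]
  have h2 : Localization.mk a (⟨mo k m ^ n, n, rfl⟩ : Submonoid.powers (mo k m)) *
      algebraMap (SS k) (Localization.Away (mo k m)) (mo k m ^ n) =
      algebraMap (SS k) (Localization.Away (mo k m)) a := by
    rw [Localization.mk_eq_mk']
    exact IsLocalization.mk'_spec _ _ _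
  rw [h2, liftL_algebraMap]

lemma mL_cancel (u : GG) (v w : LL k) (h : v * mL k u = w * mL k u) : v = w := by
  have h1 := congrArg (· * mL k (-u)) h
  simp only [mul_assoc] at h1
  rw [mul_comm (mL k u), mL_neg_mul, mul_one, mul_one] at h1
  exact h1

lemma alpha_mk (m : NN) {d : ℕ} (hd : mo k m ∈ gr k d) (n : ℕ) (a : SS k)
    (ha : a ∈ gr k (n • d)) :
    alpha k m (Away.mk (gr k) hd n a ha) = pi k a * mL k (-(n • gm m)) := by
  apply mL_cancel (n • gm m)
  rw [alpha_mul, mul_assoc, mL_neg_mul, mul_one]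

lemma alpha_injective (m : NN) : Function.Injective (alpha k m) := by
  rw [injective_iff_map_eq_zero]
  intro z hz
  obtain ⟨n, a, ha, rfl⟩ := Away.mk_surjective (gr k) (mo_mem m) z
  have h1 := alpha_mul m (mo_mem m) n a ha
  rw [hz, zero_mul] at h1
  have h2 : a = 0 := pi_injective (h1.symm.trans (map_zero _).symm)
  subst h2
  apply HomogeneousLocalization.mk_eq_zero_of_num
  rfl

lemma mL_mem_Ld (u : GG) : mL k u ∈ Ld k (dg u) :=
  ⟨single_mem_supp (k := k) (show u ∈ {v | dg v = dg u} from rfl) 1, zero_mem (supp k _)⟩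

/-- elements of `LL` with both components having support in `C` -/
def sL (k : Type) [Field k] (C : Set GG) : AddSubgroup (LL k) where
  carrier := {w | w.re ∈ supp k C ∧ w.im ∈ supp k C}
  zero_mem' := ⟨zero_mem (supp k _), zero_mem (supp k _)⟩
  add_mem' := fun h h' => ⟨add_mem h.1 h'.1, add_mem h.2 h'.2⟩
  neg_mem' := fun h => ⟨neg_mem h.1, neg_mem h.2⟩

lemma mem_sL {C : Set GG} {w : LL k} : w ∈ sL k C ↔ w.re ∈ supp k C ∧ w.im ∈ supp k C := Iff.rfl

lemma pi_mem_sL (a : SS k) : pi k a ∈ sL k pos :=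
  ⟨(th_range _).1 ⟨a.re, rfl⟩, (th_range _).1 ⟨a.im, rfl⟩⟩

lemma exists_pi (w : LL k) (hw : w ∈ sL k pos) : ∃ a, pi k a = w := by
  obtain ⟨f, hf⟩ := (th_range _).2 hw.1
  obtain ⟨g, hg⟩ := (th_range _).2 hw.2
  exact ⟨⟨f, g⟩, QuadraticAlgebra.ext hf hg⟩

lemma mL_mul_mem {C C' : Set GG} (u : GG) (h : ∀ v ∈ C, v + u ∈ C') (w : LL k)
    (hw : w ∈ sL k C) : w * mL k u ∈ sL k C' := by
  rw [mul_comm]
  unfold mL
  rw [inA_mul]
  have h1 : ∀ a : AL k, a ∈ supp k C → single u 1 * a ∈ supp k C' := by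
    intro a ha
    refine mul_mem_supp (C := {u}) (C' := C) ?_ _ _
      (single_mem_supp (k := k) (Set.mem_singleton u) 1) ha
    intro u' hu' v hv
    rw [Set.mem_singleton_iff] at hu'
    rw [hu', add_comm]
    exact h v hv
  exact ⟨h1 _ hw.1, h1 _ hw.2⟩

/-- the range of `alpha` -/
lemma alpha_range (m : NN) (w : LL k) :
    (∃ z, alpha k m z = w) ↔ w ∈ Ld k 0 ∧ ∃ n : ℕ, w * mL k (n • gm m) ∈ sL k pos := by
  constructor
  · rintro ⟨z, rfl⟩
    obtain ⟨n, a, ha, rfl⟩ := Away.mk_surjective (gr k) (mo_mem m) z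
    refine ⟨?_, n, ?_⟩
    · rw [alpha_mk]
      have h1 := mul_mem_Ld (mem_gr.1 ha) (mL_mem_Ld (k := k) (-(n • gm m)))
      have h2 : ((n • dn m : ℕ) : ℤ) + dg (-(n • gm m)) = 0 := by
        rw [dg_neg, dg_nsmul, dg_gm]
        simp
      rw [h2] at h1
      exact h1
    · rw [alpha_mul]
      exact pi_mem_sL a
  · rintro ⟨h0, n, hn⟩
    obtain ⟨a, ha⟩ := exists_pi _ hn
    have h1 : a ∈ gr k (n • dn m) := by
      rw [mem_gr, ha]
      have h2 := mul_mem_Ld h0 (mL_mem_Ld (k := k) (n • gm m))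
      have h3 : (0 : ℤ) + dg (n • gm m) = ((n • dn m : ℕ) : ℤ) := by
        rw [dg_nsmul, dg_gm]
        simp
      rw [h3] at h2
      exact h2
    refine ⟨Away.mk (gr k) (mo_mem m) n a h1, ?_⟩
    rw [alpha_mk, ha, mul_assoc, mul_comm (mL k _), mL_neg_mul, mul_one]

/-- compatibility of the embeddings -/
lemma alpha_awayMap (m m' : NN) {d' : ℕ} (hd' : mo k m' ∈ gr k d')
    (hx : mo k (m + m') = mo k m * mo k m') (z : Away (gr k) (mo k m)) :
    alpha k (m + m') (awayMap (gr k) hd' hx z) = alpha k m z := by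
  obtain ⟨n, a, ha, rfl⟩ := Away.mk_surjective (gr k) (mo_mem m) z
  rw [awayMap_mk]
  apply mL_cancel (n • gm (m + m'))
  have h1 := alpha_mul m (mo_mem m) n a ha
  rw [alpha_mul, map_mul, ← h1, map_pow, pi_mo, mL_pow, mul_assoc, ← mL_add, map_add, smul_add]

lemma nsmul_ap (n : ℕ) (u : GG) (i : Fin 4) : (n • u) i = n * u i := by
  rw [Pi.smul_apply, nsmul_eq_mul]

/-- a uniform bound for the exponents -/
lemma exists_bound (a : AL k) : ∃ N : ℕ, ∀ u, a.coeff u ≠ 0 → ∀ i, -(N : ℤ) ≤ u i := by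
  refine ⟨∑ u ∈ a.coeff.support, ∑ i, (u i).natAbs, fun u hu i => ?_⟩
  have h1 : (u i).natAbs ≤ ∑ i, (u i).natAbs :=
    Finset.single_le_sum (f := fun i => (u i).natAbs) (fun _ _ => Nat.zero_le _) (Finset.mem_univ i)
  have h2 : ∑ i, (u i).natAbs ≤ ∑ u ∈ a.coeff.support, ∑ i, (u i).natAbs :=
    Finset.single_le_sum (f := fun u : GG => ∑ i, (u i).natAbs) (fun _ _ => Nat.zero_le _)
      (Finsupp.mem_support_iff.2 hu)
  have h3 : -((u i).natAbs : ℤ) ≤ u i := by omega
  have h4 : ((u i).natAbs : ℤ) ≤ ((∑ u ∈ a.coeff.support, ∑ i, (u i).natAbs : ℕ) : ℤ) := by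
    exact_mod_cast h1.trans h2
  omega

/-- exponents nonnegative away from the index `a` -/
def reg (a : Fin 4) : Set GG := {u | ∀ i, i ≠ a → 0 ≤ u i}

/-- the regular functions on the chart `x_a ≠ 0` -/
noncomputable def Ca (k : Type) [Field k] (a : Fin 4) : AddSubgroup (LL k) := Ld k 0 ⊓ sL k (reg a)

lemma mem_Ca {a : Fin 4} {w : LL k} : w ∈ Ca k a ↔ w ∈ Ld k 0 ∧ w ∈ sL k (reg a) := Iff.rfl

/-- the exponent of `x_a` -/
noncomputable def ea (a : Fin 4) : NN := Finsupp.single a 1

lemma gm_ea (a : Fin 4) : gm (ea a) = ei a := gm_single a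

/-- the exponent of `x₀x₁x₂x₃` -/
noncomputable def et : NN := ea 0 + ea 1 + ea 2 + ea 3

lemma gm_et_apply (i : Fin 4) : gm et i = 1 := by
  unfold et
  rw [map_add, map_add, map_add, gm_ea, gm_ea, gm_ea, gm_ea]
  fin_cases i <;> simp [ei]

lemma alpha_range_ea (a : Fin 4) (w : LL k) : (∃ z, alpha k (ea a) z = w) ↔ w ∈ Ca k a := by
  rw [alpha_range]
  constructor
  · rintro ⟨h0, n, hn⟩
    refine ⟨h0, ?_⟩
    have h1 : w = w * mL k (n • gm (ea a)) * mL k (-(n • gm (ea a))) := by
      rw [mul_assoc, mul_comm (mL k _), mL_neg_mul, mul_one]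
    rw [h1]
    refine mL_mul_mem _ ?_ _ hn
    intro v hv i hi
    have h2 : gm (ea a) i = 0 := by
      rw [gm_ea, ei, Pi.single_apply, if_neg hi]
    rw [Pi.add_apply, Pi.neg_apply, nsmul_ap, h2, mul_zero, neg_zero, add_zero]
    exact hv i
  · rintro ⟨h0, h1⟩
    refine ⟨h0, ?_⟩
    obtain ⟨N, hN⟩ := exists_bound w.re
    obtain ⟨N', hN'⟩ := exists_bound w.im
    refine ⟨N + N', ?_⟩
    have h2 : w ∈ sL k (reg a ∩ {u | ∀ i, -((N + N' : ℕ) : ℤ) ≤ u i}) := by
      refine ⟨supp_inter h1.1 ?_, supp_inter h1.2 ?_⟩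
      · intro u hu i
        have := hN u hu i
        push_cast
        omega
      · intro u hu i
        have := hN' u hu i
        push_cast
        omega
    refine mL_mul_mem _ ?_ _ h2
    rintro v ⟨hv1, hv2⟩ i
    rw [Pi.add_apply, nsmul_ap, gm_ea, ei, Pi.single_apply]
    by_cases hi : i = a
    · rw [if_pos hi, mul_one]
      have := hv2 i
      omega
    · rw [if_neg hi, mul_zero, add_zero]
      exact hv1 i hi

lemma alpha_range_et (w : LL k) : (∃ z, alpha k et z = w) ↔ w ∈ Ld k 0 := by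
  rw [alpha_range]
  constructor
  · exact fun h => h.1
  · intro h0
    refine ⟨h0, ?_⟩
    obtain ⟨N, hN⟩ := exists_bound w.re
    obtain ⟨N', hN'⟩ := exists_bound w.im
    refine ⟨N + N', ?_⟩
    have h2 : w ∈ sL k {u | ∀ i, -((N + N' : ℕ) : ℤ) ≤ u i} := by
      refine ⟨?_, ?_⟩
      · intro u hu i
        have := hN u hu i
        push_cast
        omega
      · intro u hu i
        have := hN' u hu i
        push_cast
        omega
    refine mL_mul_mem _ ?_ _ h2
    intro v hv i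
    have h3 : gm et i = 1 := gm_et_apply i
    rw [Pi.add_apply, nsmul_ap, h3]
    have := hv i
    omega

end Pool.Agent.H924.Daff
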