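import Pool.Agent.H924.Daff.ModCech

/-!
Vanishing of the cohomology of quasi-coherent modules with a suitable partition of unity.
-/

set_option autoImplicit false

open CategoryTheory TopologicalSpace Opposite Limits AlgebraicGeometry

namespace Pool.Agent.H924.Daff

open Pool.Agent.H835R3 (res res_res res_self)

variable {X : Scheme.{0}}

lemma basicOpen_prod {W : X.Opens} {n : ℕ} (f : Fin n → Γ(X, W)) :
    X.basicOpen (∏ i, f i) = W ⊓ ⨅ i, X.basicOpen (f i) := by
  induction n with
  | zero =>
    rw [Fin.prod_univ_zero, iInf_of_empty, inf_top_eq]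
    exact X.basicOpen_of_isUnit isUnit_one
  | succ n ih =>
    rw [Fin.prod_univ_succ, X.basicOpen_mul, ih (fun i => f i.succ)]
    apply le_antisymm
    · refine le_inf (inf_le_right.trans inf_le_left) (le_iInf fun i => ?_)
      refine Fin.cases ?_ (fun j => ?_) i
      · exact inf_le_left
      · exact inf_le_right.trans (inf_le_right.trans (iInf_le _ j))
    · refine le_inf (inf_le_right.trans (iInf_le _ 0)) (le_inf inf_le_left (le_iInf fun i => ?_))
      exact inf_le_right.trans (iInf_le _ i.succ)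

lemma inter_basicOpen {W : X.Opens} {τ : Type} (f : τ → Γ(X, W)) {n : ℕ} (s : Fin (n + 1) → τ) :
    (inter (fun a => X.basicOpen (f a)) s : X.Opens) = X.basicOpen (∏ i, f (s i)) := by
  rw [basicOpen_prod]
  refine le_antisymm (le_inf ?_ le_rfl) inf_le_right
  exact (inter_le _ s 0).trans (X.basicOpen_le _)

/-- the constant multiplication operator -/
noncomputable def mulOp (M : QMod X) {W : X.Opens} (r : Γ(X, W)) {U : X.Opens} (hU : U ≤ W) :
    LocOp M.F U where
  app V h := M.sm (res (h.trans hU) r)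
  nat h h' s := by
    rw [M.sm_res, res_res]

/-- the partition data for a covering of an affine open by basic opens -/
noncomputable def affPart (M : QMod X) {W : X.Opens} (hW : IsAffineOpen W) {τ : Type} [Fintype τ]
    (f : τ → Γ(X, W)) (r : ℕ → τ → Γ(X, W)) (hr : ∀ N, ∑ c, r N c * f c ^ N = 1) :
    PartData M τ where
  U a := X.basicOpen (f a)
  haff s := by
    rw [inter_basicOpen]
    exact hW.basicOpen _
  m a c := res (X.basicOpen_le (f a)) (f c)
  hm a c V hV := by
    rw [res_res]
    have h1 := X.basicOpen_res (f c) (homOfLE (hV.trans (X.basicOpen_le (f a)))).op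
    exact h1.symm
  l a b := 1
  hml a b c := by
    rw [one_mul, res_res, res_res]
  T N a c := mulOp M (r N c) (X.basicOpen_le (f a))
  hTl N a b c V ha hb x := by
    have h1 : res (le_inf ha hb) (1 : Γ(X, X.basicOpen (f a) ⊓ X.basicOpen (f b))) = 1 := map_one _
    rw [h1, one_pow, M.sm_one]
    rfl
  hT1 N a V h x := by
    have h1 : ∀ c, (mulOp M (r N c) (X.basicOpen_le (f a))).app V h
        (M.sm (res h (res (X.basicOpen_le (f a)) (f c)) ^ N) x) =
        M.sm (res (h.trans (X.basicOpen_le (f a))) (r N c * f c ^ N)) x := by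
      intro c
      have h2 : res (h.trans (X.basicOpen_le (f a))) (r N c * f c ^ N) =
        res (h.trans (X.basicOpen_le (f a))) (r N c) *
          res (h.trans (X.basicOpen_le (f a))) (f c) ^ N := by
        have h3 : res (h.trans (X.basicOpen_le (f a))) (r N c * f c ^ N) =
          res (h.trans (X.basicOpen_le (f a))) (r N c) *
          res (h.trans (X.basicOpen_le (f a))) (f c ^ N) := map_mul _ _ _
        rw [h3]
        congr 1
        exact map_pow _ _ _
      rw [h2, M.sm_mul, res_res]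
      rfl
    rw [Finset.sum_congr rfl (fun c _ => h1 c)]
    have h4 : ∀ (t : Finset τ) (g : τ → Γ(X, V)), ∑ c ∈ t, M.sm (g c) x = M.sm (∑ c ∈ t, g c) x := by
      classical
      intro t g
      induction t using Finset.induction_on with
      | empty =>
        rw [Finset.sum_empty, Finset.sum_empty]
        have h5 := M.sm_add (0 : Γ(X, V)) 0 x
        rw [add_zero] at h5
        exact (add_eq_left.1 h5.symm).symm
      | insert a t ha ih =>
        rw [Finset.sum_insert ha, Finset.sum_insert ha, M.sm_add, ih]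
    rw [h4]
    have h6 : ∑ c, res (h.trans (X.basicOpen_le (f a))) (r N c * f c ^ N) =
      res (h.trans (X.basicOpen_le (f a))) (∑ c, r N c * f c ^ N) := (map_sum _ _ _).symm
    rw [h6, hr]
    have h7 : res (h.trans (X.basicOpen_le (f a))) (1 : Γ(X, W)) = 1 := map_one _
    rw [h7, M.sm_one]

lemma exists_coeff {W : X.Opens} (hW : IsAffineOpen W) {n : ℕ} (f : Fin n → Γ(X, W))
    (hf : (⨆ a, X.basicOpen (f a)) = W) : ∃ r : ℕ → Fin n → Γ(X, W),
      ∀ N, ∑ c, r N c * f c ^ N = 1 := by
  have h1 : Ideal.span (Set.range f) = ⊤ := by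
    rw [← hW.iSup_basicOpen_eq_self_iff]
    apply le_antisymm
    · exact iSup_le fun i => X.basicOpen_le _
    · refine (le_of_eq hf.symm).trans (iSup_le fun a => ?_)
      exact le_iSup (fun g : Set.range f => X.basicOpen g.1) ⟨f a, a, rfl⟩
  have h2 : ∀ N : ℕ, ∃ r : Fin n → Γ(X, W), ∑ c, r c * f c ^ N = 1 := by
    intro N
    have h3 := Ideal.span_pow_eq_top _ h1 N
    have h4 : (1 : Γ(X, W)) ∈ Ideal.span (Set.range fun c => f c ^ N) := by
      have : (fun x => x ^ N) '' Set.range f = Set.range fun c => f c ^ N := by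
        rw [← Set.range_comp]
        rfl
      rw [← this, h3]
      trivial
    obtain ⟨r, hr⟩ := (Ideal.mem_span_range_iff_exists_fun).1 h4
    exact ⟨r, hr⟩
  choose r hr using h2
  exact ⟨r, hr⟩

/-- the admissible coverings -/
def covX {X : Scheme.{0}} {n₀ : ℕ} (U₀ : Fin n₀ → X.Opens)
    (hU₀ : ∀ {n : ℕ} (s : Fin (n + 1) → Fin n₀), IsAffineOpen (inter U₀ s : X.Opens)) :
    CovData (X : TopCat.{0}) where
  B := {W : X.Opens | IsAffineOpen W}
  K n U := (∃ (W : X.Opens) (_ : IsAffineOpen W) (f : Fin n → Γ(X, W)),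
      (U = fun a => X.basicOpen (f a)) ∧ iSup U = W) ∨
    (∃ h : n = n₀, U = fun a => U₀ (Fin.cast h a))
  h1 := by
    rintro n U (⟨W, hW, f, rfl, hU⟩ | ⟨rfl, rfl⟩) m s
    · have h1 := inter_basicOpen f s
      show IsAffineOpen _
      rw [h1]
      exact hW.basicOpen _
    · exact hU₀ s
  h2 := by
    intro W hW P hP hloc
    have hWc : IsCompact (W : Set X) := IsAffineOpen.isCompact hW
    have h1 : ∀ x : W, ∃ f : Γ(X, W), x.1 ∈ X.basicOpen f ∧ P (X.basicOpen f) := by
      intro x
      obtain ⟨V, hxV, hV⟩ := hloc x.1 x.2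
      obtain ⟨f, hf1, hf2⟩ := IsAffineOpen.exists_basicOpen_le hW (V := V) ⟨x.1, hxV⟩ x.2
      exact ⟨f, hf2, hP _ _ hf1 hV⟩
    choose f hf1 hf2 using h1
    obtain ⟨t, ht⟩ := hWc.elim_finite_subcover (fun x : W => ((X.basicOpen (f x) : X.Opens) : Set X))
      (fun x => (X.basicOpen (f x)).isOpen) (fun x hx => Set.mem_iUnion.2 ⟨⟨x, hx⟩, hf1 ⟨x, hx⟩⟩)
    refine ⟨t.card, fun i => X.basicOpen (f (t.equivFin.symm i).1), ?_, ?_, fun a => hf2 _⟩
    · left
      refine ⟨W, hW, fun i => f (t.equivFin.symm i).1, rfl, ?_⟩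
      apply le_antisymm
      · exact iSup_le fun i => X.basicOpen_le _
      · intro x hx
        obtain ⟨y, hy⟩ := Set.mem_iUnion.1 (ht hx)
        obtain ⟨hyt, hxy⟩ := Set.mem_iUnion.1 hy
        refine Opens.mem_iSup.2 ⟨t.equivFin ⟨y, hyt⟩, ?_⟩
        rw [Equiv.symm_apply_apply]
        exact hxy
    · apply le_antisymm
      · exact iSup_le fun i => X.basicOpen_le _
      · intro x hx
        obtain ⟨y, hy⟩ := Set.mem_iUnion.1 (ht hx)
        obtain ⟨hyt, hxy⟩ := Set.mem_iUnion.1 hy
        refine Opens.mem_iSup.2 ⟨t.equivFin ⟨y, hyt⟩, ?_⟩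
        rw [Equiv.symm_apply_apply]
        exact hxy

/-- Vanishing of cohomology of a quasi-coherent module with partition data. -/
theorem H_subsingleton_of_partData (F : AbSh (X : TopCat.{0})) (M : QMod X) (hM : M.F = toLSh F)
    {n : ℕ} (D : PartData M (Fin n)) (hD : iSup D.U = ⊤) (i : ℕ) :
    Subsingleton (Sheaf.H F (i + 1)) := by
  refine H_subsingleton_of_good (covX D.U D.haff) n D.U (Or.inr ⟨rfl, rfl⟩) hD ?_ F ?_ i
  · intro a
    have h1 := D.haff (fun _ : Fin (0 + 1) => a)
    have h2 : (inter D.U (fun _ : Fin (0 + 1) => a) : X.Opens) = D.U a := by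
      unfold inter
      rw [iInf_const]
    rw [h2] at h1
    exact h1
  · rintro m U (⟨W, hW, f, rfl, hU⟩ | ⟨rfl, rfl⟩) j
    · obtain ⟨r, hr⟩ := exists_coeff hW f hU
      have h1 := (affPart M hW f r hr).cechExact j
      rw [hM] at h1
      exact h1
    · have h1 := D.cechExact j
      rw [hM] at h1
      exact h1

end Pool.Agent.H924.Daff
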