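import Pool.Agent.H924.Daff.QAB
import Pool.Agent.H924.Daff.DGen

/-!
The quadric threefold is `D`-affine.
-/

set_option autoImplicit false

namespace Pool.Agent.H924.Daff

open AddMonoidAlgebra AlgebraicGeometry HomogeneousLocalization CategoryTheory TopologicalSpace
open Pool.Agent.H835R3 (res res_res res_self gam gam_res gam_injective genericPoint_mem eq_of_gam
  IsSemi)
open Pool.Agent.H835R3.Stmt Stmt

variable {k : Type} [Field k]

/-- exponents of the intersections -/
noncomputable def exs : ∀ {n : ℕ}, (Fin (n + 1) → Fin 4) → NN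
  | 0, s => ea (s 0)
  | n + 1, s => exs (fun i => s i.castSucc) + ea (s (Fin.last (n + 1)))

lemma dn_exs {n : ℕ} (s : Fin (n + 1) → Fin 4) : 0 < dn (exs s) := by
  induction n with
  | zero => exact dn_ea_pos _
  | succ n ih =>
    show 0 < dn (_ + _)
    rw [dn_add]
    have := ih (fun i => s i.castSucc)
    omega

lemma inter_exs {n : ℕ} (s : Fin (n + 1) → Fin 4) :
    (inter (fun a => UU k (ea a)) s : (XX k).Opens) = UU k (exs s) := by
  induction n with
  | zero =>
    unfold inter
    apply le_antisymm
    · exact iInf_le _ 0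
    · refine le_iInf fun i => ?_
      have : i = 0 := @Subsingleton.elim (Fin 1) _ i 0
      rw [this]
      exact le_rfl
  | succ n ih =>
    show _ = UU k (_ + _)
    rw [← UU_inf, ← ih]
    apply le_antisymm
    · exact le_inf (le_iInf fun i => iInf_le _ _) (iInf_le _ (Fin.last (n + 1)))
    · refine le_iInf fun i => ?_
      refine Fin.lastCases ?_ (fun j => ?_) i
      · exact inf_le_right
      · exact inf_le_left.trans (iInf_le _ j)

variable [CharP k 2]

/-- the ratio `x_b / x_a` on the intersection -/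
noncomputable def lEl (k : Type) [Field k] [CharP k 2] (a b : Fin 4) :
    Γ(XX k, UU k (ea a) ⊓ UU k (ea b)) :=
  res (inf_le_left : UU k (ea a) ⊓ UU k (ea b) ≤ UU k (ea a)) (mEl k a b)

lemma rep_l {q : ℕ} (N : ℕ) (a b : Fin 4) :
    Rep (mulEnd q (lEl k a b ^ N)) (AddMonoidHom.mulLeft (m0 k (N • rr a b) (dg_nrr N a b))) :=
  rep_mul N a b inf_le_left ⟨generic_mem k _, generic_mem k _⟩ _ rfl

/-- the data for the quadric -/
noncomputable def qPart (k : Type) [Field k] [CharP k 2] : DPart (XX k) 2 (Fin 4) where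
  U a := UU k (ea a)
  haff s := by
    rw [inter_exs]
    exact isAffineOpen_UU _ (dn_exs s)
  m := mEl k
  hm a c V hV := basicOpen_mEl a c V hV
  hm1 a := mEl_self a
  l := lEl k
  hml a b c := mEl_rel a b c
  e N := 4 * N + 1
  T N a c := (exists_T (k := k) N a c).choose
  hTl N a b c := by
    refine Rep.ext (pow_pos two_pos _) ((exists_T (k := k) N b c).choose_spec.res _) ?_
    rw [TL_rel N a b c]
    exact ((exists_T (k := k) N a c).choose_spec.res _).comp (rep_l N a b)
  hT1 N a := by
    refine Rep.ext (pow_pos two_pos _) (Rep.sum Finset.univ fun c _ =>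
      (exists_T (k := k) N a c).choose_spec.comp (rep_mul N a c le_rfl (generic_mem k _) _ ?_)) ?_
    · rw [res_self]
      rfl
    · rw [TL_sum]
      exact Rep.one
  e' N := N + 2
  J N := Fintype.card (IX N ⊕ IX N)
  A N j a := (exists_A (k := k) N a ((Fintype.equivFin (IX N ⊕ IX N)).symm j)).choose
  B N j a := (exists_B (k := k) N a ((Fintype.equivFin (IX N ⊕ IX N)).symm j)).choose
  hAl N j a b := by
    refine Rep.ext (pow_pos two_pos _)
      ((exists_A (k := k) N b ((Fintype.equivFin (IX N ⊕ IX N)).symm j)).choose_spec.res _) ?_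
    rw [Aop_rel N a b]
    exact ((exists_A (k := k) N a _).choose_spec.res _).comp (rep_l (N + 1) a b)
  hAB N a := by
    refine Rep.ext (pow_pos two_pos _) (Rep.sum Finset.univ fun j _ =>
      (exists_B (k := k) N a ((Fintype.equivFin (IX N ⊕ IX N)).symm j)).choose_spec.comp
      (exists_A (k := k) N a ((Fintype.equivFin (IX N ⊕ IX N)).symm j)).choose_spec) ?_
    have h1 : ∑ j : Fin (Fintype.card (IX N ⊕ IX N)),
        (Bop k N a ((Fintype.equivFin (IX N ⊕ IX N)).symm j)).comp
          (Aop k N a ((Fintype.equivFin (IX N ⊕ IX N)).symm j)) =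
        ∑ j, (Bop k N a j).comp (Aop k N a j) :=
      Equiv.sum_comp (Fintype.equivFin (IX N ⊕ IX N)).symm
        (fun j => (Bop k N a j).comp (Aop k N a j))
    rw [h1, AB_sum]
    exact Rep.one

/-- The quadric threefold is `D`-affine in characteristic two. -/
theorem isDAffine_XX (k : Type) [Field k] [CharP k 2] : IsDAffine (XX k) 2 := by
  refine (qPart k).isDAffine ?_
  apply top_le_iff.1
  intro x _
  obtain ⟨a, ha⟩ := exists_mem_UU (k := k) x
  exact Opens.mem_iSup.2 ⟨a, ha⟩

end Pool.Agent.H924.Daff
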