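import Pool.Agent.H924.Daff.QT

/-!
The quadric threefold is globally F-split in characteristic two.
-/

set_option autoImplicit false

namespace Pool.Agent.H924.Daff

open AddMonoidAlgebra AlgebraicGeometry HomogeneousLocalization CategoryTheory TopologicalSpace
open Pool.Agent.H835R3 (res res_res res_self gam gam_res gam_injective genericPoint_mem eq_of_gam
  IsSemi exists_sections)
open Pool.Agent.H835R3.Stmt Stmt

variable {k : Type} [Field k] [CharP k 2] [PerfectRing k 2]

/-- the class of exponents -/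
def cfs (u : GG) : Prop := u 0 % 2 = 0 ∧ u 1 % 2 = 0 ∧ u 2 % 2 = 1 ∧ u 3 % 2 = 1

instance : DecidablePred cfs := fun u => by
  unfold cfs
  infer_instance

/-- half of the exponent -/
def hv (u : GG) : GG := fun i => u i / 2

/-- the basic operator -/
noncomputable def s2 (k : Type) [Field k] [CharP k 2] [PerfectRing k 2] : AL k →+ AL k :=
  opG (fun u => if cfs u then
    (singleAddHom (hv u)).comp ((frobeniusEquiv k 2).symm : k ≃+ k).toAddMonoidHom
    else 0)

lemma s2_single (u : GG) (a : k) :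
    s2 k (single u a) = if cfs u then single (hv u) ((frobeniusEquiv k 2).symm a) else 0 := by
  unfold s2
  rw [opG_single]
  split_ifs <;> rfl

lemma s2_isSemi : IsSemi (2 ^ 1) (2 ^ 0) (s2 k) := by
  apply isSemi_of_singleG 2 1 0
  intro w u a b
  rw [single_pow, single_mul_single, s2_single, s2_single]
  have h0 : ∀ i, ((2 ^ 1 : ℕ) • w + u) i = 2 * w i + u i := by
    intro i
    rw [Pi.add_apply, nsmul_ap]
    push_cast
    ring
  have h1 : cfs ((2 ^ 1 : ℕ) • w + u) ↔ cfs u := by
    unfold cfs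
    simp only [h0]
    constructor
    · rintro ⟨a, b, c, d⟩
      exact ⟨by omega, by omega, by omega, by omega⟩
    · rintro ⟨a, b, c, d⟩
      exact ⟨by omega, by omega, by omega, by omega⟩
  rw [if_congr h1 rfl rfl]
  split_ifs with h
  · rw [pow_zero, pow_one (single w a), single_mul_single]
    have e1 : hv ((2 ^ 1 : ℕ) • w + u) = w + hv u := by
      funext i
      show ((2 ^ 1 : ℕ) • w + u) i / 2 = w i + u i / 2
      rw [h0]
      omega
    rw [e1, map_mul]
    congr 2
    rw [pow_one]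
    exact (frobeniusEquiv k 2).symm_apply_apply a
  · rw [mul_zero]

lemma s2_sq (c l : AL k) : s2 k (c ^ 2 * l) = c * s2 k l := by
  have h := s2_isSemi (k := k) c l
  rwa [pow_one, pow_zero, pow_one] at h

lemma s2_mem {C C' : Set GG} (h : ∀ u ∈ C, cfs u → hv u ∈ C') {l : AL k} (hl : l ∈ supp k C) :
    s2 k l ∈ supp k C' := by
  apply opG_mem_supp _ _ _ hl
  intro u hu a
  split_ifs with hQ
  · exact single_mem_supp (h u hu hQ) _
  · exact zero_mem _

lemma dg_hv (u : GG) (h : cfs u) : 2 * dg (hv u) = dg u - 2 := by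
  obtain ⟨h0, h1, h2, h3⟩ := h
  unfold dg hv
  omega

/-- the splitting on Laurent polynomials -/
noncomputable def fsL (k : Type) [Field k] [CharP k 2] [PerfectRing k 2] : L0 k →+ L0 k :=
  AddMonoidHom.mk' (fun w => ⟨⟨s2 k (QL k * (w : LL k).re), s2 k (w : LL k).re⟩, by
    constructor
    · have h1 : QL k * (w : LL k).re ∈ supp k {u | dg u = 2} := by
        refine mul_mem_supp ?_ _ _ QL_mem w.2.1
        intro u hu v hv
        show dg (u + v) = 2
        have hu' : dg u = 2 := hu
        have hv' : dg v = 0 := hv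
        rw [dg_add, hu', hv', add_zero]
      refine s2_mem ?_ h1
      intro u hu hc
      show dg (hv u) = 0
      have h2 := dg_hv u hc
      have h3 : dg u = 2 := hu
      omega
    · refine s2_mem ?_ w.2.1
      intro u hu hc
      show dg (hv u) + 1 = 0
      have h2 := dg_hv u hc
      have h3 : dg u = 0 := hu
      omega⟩) (by
    intro v w
    apply Subtype.ext
    apply QuadraticAlgebra.ext
    · show s2 k (QL k * ((v : LL k).re + (w : LL k).re)) = _
      rw [mul_add, map_add]
      rfl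
    · show s2 k ((v : LL k).re + (w : LL k).re) = _
      rw [map_add]
      rfl)

lemma fsL_coe (w : L0 k) : (fsL k w : LL k) =
    ⟨s2 k (QL k * (w : LL k).re), s2 k (w : LL k).re⟩ := rfl

lemma fsL_isSemi : IsSemi (2 ^ 1) (2 ^ 0) (fsL k) := by
  intro v w
  apply Subtype.ext
  have h1 : ((v ^ 2 ^ 1 * w : L0 k) : LL k) =
      inA ((v : LL k).re ^ 2 + QL k * (v : LL k).im ^ 2) * (w : LL k) := by
    rw [← LL.sq_eq]
    rfl
  have h2 : ((v ^ 2 ^ 0 * fsL k w : L0 k) : LL k) = (v : LL k) * (fsL k w : LL k) := by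
    rw [pow_zero, pow_one]
    rfl
  rw [h2, fsL_coe, h1, inA_mul, fsL_coe]
  have e0 : ((v : LL k).re ^ 2 + QL k * (v : LL k).im ^ 2) * (w : LL k).re =
      (v : LL k).re ^ 2 * (w : LL k).re + (v : LL k).im ^ 2 * (QL k * (w : LL k).re) := by ring
  apply QuadraticAlgebra.ext
  · rw [LL.mul_re]
    show s2 k (QL k * (((v : LL k).re ^ 2 + QL k * (v : LL k).im ^ 2) * (w : LL k).re)) =
      (v : LL k).re * s2 k (QL k * (w : LL k).re) +
        QL k * (v : LL k).im * s2 k (w : LL k).re
    have e1 : QL k * (((v : LL k).re ^ 2 + QL k * (v : LL k).im ^ 2) * (w : LL k).re) =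
        (v : LL k).re ^ 2 * (QL k * (w : LL k).re) +
          (QL k * (v : LL k).im) ^ 2 * (w : LL k).re := by ring
    rw [e1, map_add, s2_sq, s2_sq]
  · rw [LL.mul_im]
    show s2 k (((v : LL k).re ^ 2 + QL k * (v : LL k).im ^ 2) * (w : LL k).re) =
      (v : LL k).re * s2 k (w : LL k).re + (v : LL k).im * s2 k (QL k * (w : LL k).re)
    rw [e0, map_add, s2_sq, s2_sq]

omit [CharP k 2] [PerfectRing k 2] in
lemma QL_reg : QL k ∈ supp k {u | ∀ i, 0 ≤ u i} := by
  unfold QL
  refine add_mem (single_mem_supp ?_ 1) (single_mem_supp ?_ 1)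
  · intro i
    show 0 ≤ (ei 0 + ei 1) i
    fin_cases i <;> decide
  · intro i
    show 0 ≤ (ei 2 + ei 3) i
    fin_cases i <;> decide

lemma fsL_pres (m : NN) (w : L0 k) (hw : (w : LL k) ∈ Cm k m) : (fsL k w : LL k) ∈ Cm k m := by
  have hhv : ∀ u ∈ regm m, cfs u → hv u ∈ regm m := by
    intro u hu _ i hi
    have := hu i hi
    show 0 ≤ u i / 2
    omega
  refine ⟨(fsL k w).2, ?_, ?_⟩
  · show s2 k (QL k * (w : LL k).re) ∈ _
    refine s2_mem hhv ?_
    refine mul_mem_supp ?_ _ _ QL_reg hw.2.1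
    intro u hu v hv' i hi
    exact add_nonneg (hu i) (hv' i hi)
  · exact s2_mem hhv hw.2.1

lemma fsL_one : fsL k 1 = 1 := by
  apply Subtype.ext
  rw [fsL_coe]
  apply QuadraticAlgebra.ext
  · show s2 k (QL k * 1) = 1
    rw [mul_one]
    unfold QL
    rw [map_add, s2_single, s2_single, if_neg (by decide), if_pos (by decide), zero_add, map_one]
    have : hv (ei 2 + ei 3) = 0 := by
      funext i
      fin_cases i <;> decide
    rw [this]
    rfl
  · show s2 k (single 0 1) = 0
    rw [s2_single, if_neg (by decide)]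

/-- The quadric threefold is globally F-split in characteristic two. -/
theorem globallyFSplit_XX (k : Type) [Field k] [CharP k 2] [PerfectRing k 2] :
    GloballyFSplit (XX k) 2 := by
  have hq : 0 < 2 ^ 1 := by norm_num
  obtain ⟨Φ, hΦ, hΦ'⟩ := exists_extL hq (fsL k) fsL_isSemi
  have hcov : (⊤ : (XX k).Opens) ≤ ⨆ a : Fin 4, UU k (ea a) := by
    intro x _
    obtain ⟨a, hx⟩ := exists_mem_UU (k := k) x
    exact Opens.mem_iSup.2 ⟨a, hx⟩
  obtain ⟨ψ, hψ, hψr, hψl⟩ := exists_sections hq Φ hΦ (fun a : Fin 4 => UU k (ea a))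
    (fun a => isAffineOpen_UU _ (dn_ea_pos a)) (fun a => generic_mem k _) (by
      intro a s
      obtain ⟨w, hw, hsw⟩ := gam_chart (ea a) (dn_ea_pos a) s
      obtain ⟨f, hf⟩ := exists_chart (ea a) (fsL k w) (fsL_pres _ w hw)
      exact ⟨f, by rw [hf, hsw, hΦ']⟩) ⊤ hcov
  refine ⟨fun V => ψ ⟨V, le_top⟩, fun V W h s => hψr ⟨V, le_top⟩ ⟨W, le_top⟩ h s,
    fun V a s => ?_, fun V => ?_⟩
  · have := hψl ⟨V, le_top⟩ a s
    rw [pow_one, pow_zero, pow_one] at this
    exact this
  · apply eq_of_gam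
    intro h
    have h1 := hψ ⟨V, le_top⟩ h 1
    have h2 : Φ 1 = 1 := by
      have := hΦ' 1
      rw [fsL_one, map_one] at this
      exact this
    have h3 : Φ (gam V h 1) = gam V h 1 := by rw [map_one, h2]
    exact h1.trans h3

end Pool.Agent.H924.Daff
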