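import Pool.Agent.H924.Daff.QSurf
import Pool.Agent.H924.Daff.DVan

/-!
The embedding of the Laurent polynomials of degree zero in the function field of the quadric, and
operators.
-/

set_option autoImplicit false

namespace Pool.Agent.H924.Daff

open AddMonoidAlgebra AlgebraicGeometry HomogeneousLocalization CategoryTheory TopologicalSpace
open Pool.Agent.H835R3 (res res_res res_self gam gam_res gam_injective genericPoint_mem eq_of_gam
  IsSemi exists_ext ext_unique exists_sections)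
open Pool.Agent.H835R3.Stmt Stmt

variable {k : Type} [Field k]

/-- exponents nonnegative where `m` vanishes -/
def regm (m : NN) : Set GG := {u | ∀ i, m i = 0 → 0 ≤ u i}

/-- the regular functions on the chart `x^m ≠ 0` -/
noncomputable def Cm (k : Type) [Field k] (m : NN) : AddSubgroup (LL k) :=
  Ld k 0 ⊓ sL k (regm m)

lemma mem_Cm {m : NN} {w : LL k} : w ∈ Cm k m ↔ w ∈ Ld k 0 ∧ w ∈ sL k (regm m) := Iff.rfl

lemma alpha_range_gen (m : NN) (w : LL k) : (∃ z, alpha k m z = w) ↔ w ∈ Cm k m := by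
  rw [alpha_range, mem_Cm]
  constructor
  · rintro ⟨h0, n, hn⟩
    refine ⟨h0, ?_⟩
    have h1 : w = w * mL k (n • gm m) * mL k (-(n • gm m)) := by
      rw [mul_assoc, mul_comm (mL k _), mL_neg_mul, mul_one]
    rw [h1]
    refine mL_mul_mem _ ?_ _ hn
    intro v hv i hi
    have h2 : gm m i = 0 := by
      rw [gm_apply, hi]; rfl
    rw [Pi.add_apply, Pi.neg_apply, nsmul_ap, h2, mul_zero, neg_zero, add_zero]
    exact hv i
  · rintro ⟨h0, h1⟩
    refine ⟨h0, ?_⟩
    obtain ⟨N, hN⟩ := exists_bound w.re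
    obtain ⟨N', hN'⟩ := exists_bound w.im
    refine ⟨N + N', ?_⟩
    have h2 : w ∈ sL k (regm m ∩ {u | ∀ i, -((N + N' : ℕ) : ℤ) ≤ u i}) := by
      refine ⟨supp_inter h1.1 ?_, supp_inter h1.2 ?_⟩
      · intro u hu i
        have := hN u hu i
        push_cast
        omega
      · intro u hu i
        have := hN' u hu i
        push_cast
        omega
    refine mL_mul_mem _ ?_ _ h2
    rintro v ⟨hv1, hv2⟩ i
    rw [Pi.add_apply, nsmul_ap, gm_apply]
    by_cases hi : m i = 0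
    · rw [hi]
      have := hv1 i hi
      simpa using this
    · have h3 : (1 : ℤ) ≤ (m i : ℤ) := by exact_mod_cast Nat.one_le_iff_ne_zero.2 hi
      have h4 : -((N + N' : ℕ) : ℤ) ≤ v i := hv2 i
      nlinarith [Int.natCast_nonneg (N + N')]

/-- the subring of elements of degree zero -/
noncomputable def L0 (k : Type) [Field k] : Subring (LL k) where
  carrier := {w | w ∈ Ld k 0}
  mul_mem' := by
    intro v w hv hw
    have h := mul_mem_Ld hv hw
    rwa [add_zero] at h
  one_mem' := one_mem_Ld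
  add_mem' := by
    intro v w hv hw
    exact (Ld k 0).add_mem hv hw
  zero_mem' := (Ld k 0).zero_mem
  neg_mem' := by
    intro v hv
    exact (Ld k 0).neg_mem hv

lemma mem_L0 {w : LL k} : w ∈ L0 k ↔ w ∈ Ld k 0 := Iff.rfl

lemma regm_et : regm et = Set.univ := by
  apply Set.eq_univ_of_forall
  intro u i hi
  have := gm_et_apply i
  rw [gm_apply, hi] at this
  exact absurd this (by norm_num)

lemma alpha_mem_L0 (m : NN) (z : Away (gr k) (mo k m)) : alpha k m z ∈ L0 k :=
  ((alpha_range_gen m _).1 ⟨z, rfl⟩).1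

/-- the isomorphism of the homogeneous localization at `x₀x₁x₂x₃` with the elements of degree
zero -/
noncomputable def aTor (k : Type) [Field k] : Away (gr k) (mo k et) ≃+* L0 k :=
  RingEquiv.ofBijective ((alpha k et).codRestrict (L0 k) (alpha_mem_L0 et)) (by
    refine ⟨fun x y h => alpha_injective et (congrArg Subtype.val h), fun w => ?_⟩
    obtain ⟨z, hz⟩ := (alpha_range_et w.1).2 w.2
    exact ⟨z, Subtype.ext hz⟩)

lemma aTor_coe (z : Away (gr k) (mo k et)) : (aTor k z : LL k) = alpha k et z := rfl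

lemma dn_et_pos : 0 < dn et := by rw [dn_et]; norm_num

/-- sections over the torus -/
noncomputable def eTor (k : Type) [Field k] : L0 k ≃+* Γ(XX k, UU k et) :=
  (aTor k).symm.trans
    (RingEquiv.ofBijective (beta et) (beta_bijective _ dn_et_pos))

lemma eTor_apply (z : Away (gr k) (mo k et)) (w : L0 k) (h : alpha k et z = w) :
    eTor k w = beta et z := by
  unfold eTor
  rw [RingEquiv.trans_apply]
  have h1 : (aTor k).symm w = z := by
    rw [RingEquiv.symm_apply_eq]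
    exact Subtype.ext h.symm
  rw [h1]
  rfl

variable [CharP k 2]

/-- Laurent polynomials of degree zero as rational functions -/
noncomputable def iota (k : Type) [Field k] [CharP k 2] : L0 k →+* (XX k).functionField :=
  (gam (UU k et) (generic_mem k _)).comp (eTor k : L0 k →+* Γ(XX k, UU k et))

lemma iota_apply (w : L0 k) :
    iota k w = gam (UU k et) (generic_mem k _) (eTor k w) := rfl

lemma iota_injective : Function.Injective (iota k) :=
  (gam_injective _ _).comp (eTor k).injective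

omit [CharP k 2] in
lemma beta_compat' {m m' t : NN} (h : t = m + m') (z : Away (gr k) (mo k m)) (hle : UU k t ≤ UU k m)
    (z' : Away (gr k) (mo k t)) (hz' : alpha k t z' = alpha k m z) :
    res hle (beta m z) = beta t z' := by
  obtain ⟨z'', h1, h2⟩ := beta_compat h z
  have h3 : z'' = z' := alpha_injective t (h1.trans hz'.symm)
  rw [← h3, ← h2]

lemma gam_beta (m : NN) (z : Away (gr k) (mo k m)) (w : L0 k) (hw : alpha k m z = w) :
    gam (UU k m) (generic_mem k _) (beta m z) = iota k w := by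
  obtain ⟨y, hy⟩ := (alpha_range_et (w : LL k)).2 w.2
  obtain ⟨z', h1, h2⟩ := beta_compat (t := m + et) rfl z
  have h3 := beta_compat' (k := k) (m := et) (m' := m) (t := m + et) (add_comm _ _) y
    (UU_mono (add_comm m et)) z' (by rw [h1, hw, hy])
  rw [iota_apply, eTor_apply y w hy, ← gam_res (UU_mono (rfl : m + et = m + et))
    (generic_mem k _), h2, ← h3, gam_res]

/-- the sections over the charts, inside the function field -/
lemma gam_chart (m : NN) (hm : 0 < dn m) (f : Γ(XX k, UU k m)) :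
    ∃ w : L0 k, (w : LL k) ∈ Cm k m ∧ gam (UU k m) (generic_mem k _) f = iota k w := by
  obtain ⟨z, rfl⟩ := (beta_bijective (k := k) m hm).2 f
  exact ⟨⟨alpha k m z, alpha_mem_L0 m z⟩, (alpha_range_gen m _).1 ⟨z, rfl⟩, gam_beta m z _ rfl⟩

lemma exists_chart (m : NN) (w : L0 k) (hw : (w : LL k) ∈ Cm k m) :
    ∃ f : Γ(XX k, UU k m), gam (UU k m) (generic_mem k _) f = iota k w := by
  obtain ⟨z, hz⟩ := (alpha_range_gen m (w : LL k)).2 hw
  exact ⟨beta _ z, gam_beta m z w hz⟩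

/-- extension of operators from the Laurent polynomials -/
lemma exists_extL {q q' : ℕ} (hq : 0 < q) (φ : L0 k →+ L0 k) (hφ : IsSemi q q' φ) :
    ∃ Φ : (XX k).functionField →+ (XX k).functionField, IsSemi q q' Φ ∧
      ∀ l, Φ (iota k l) = iota k (φ l) := by
  let e := eTor k
  let φ' : Γ(XX k, UU k et) →+ Γ(XX k, UU k et) :=
    ((e : L0 k ≃+ _).toAddMonoidHom.comp φ).comp (e.symm : _ ≃+ L0 k).toAddMonoidHom
  have hφ'app : ∀ s, φ' s = e (φ (e.symm s)) := fun s => rfl
  have hφ' : IsSemi q q' φ' := by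
    intro a b
    rw [hφ'app, hφ'app, map_mul, map_pow, hφ, map_mul, map_pow, e.apply_symm_apply]
  obtain ⟨Φ, h1, h2⟩ := exists_ext hq (UU k et) (isAffineOpen_UU _ dn_et_pos)
    (generic_mem k _) φ' hφ'
  refine ⟨Φ, h1, fun l => ?_⟩
  rw [iota_apply, h2, hφ'app, iota_apply]
  congr 2
  exact congrArg φ (e.symm_apply_apply l)

lemma ext_uniqueL {q q' : ℕ} (hq : 0 < q)
    (Φ Ψ : (XX k).functionField →+ (XX k).functionField)
    (hΦ : IsSemi q q' Φ) (hΨ : IsSemi q q' Ψ)
    (h : ∀ l, Φ (iota k l) = Ψ (iota k l)) : Φ = Ψ := by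
  refine ext_unique hq (UU k et) (isAffineOpen_UU _ dn_et_pos)
    (generic_mem k _) Φ Ψ hΦ hΨ ?_
  intro s
  have := h ((eTor k).symm s)
  rw [iota_apply, (eTor k).apply_symm_apply] at this
  exact this

/-- a section of `End_{O^q}(O)` is given by an operator on Laurent polynomials -/
def Rep {q : ℕ} {U : (XX k).Opens} (ψ : PowEnd q U) (φ : L0 k →+ L0 k) : Prop :=
  ∃ Φ : (XX k).functionField →+ (XX k).functionField, IsSemi q q Φ ∧
    (∀ l, Φ (iota k l) = iota k (φ l)) ∧
    ∀ (V : (XX k).Opens) (h : V ≤ U) (hη : genericPoint (XX k) ∈ V) (s : Γ(XX k, V)),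
      gam V hη (PowEnd.at ψ V h s) = Φ (gam V hη s)

lemma Rep.ext {q : ℕ} (hq : 0 < q) {U : (XX k).Opens} {ψ ψ' : PowEnd q U} {φ : L0 k →+ L0 k}
    (h : Rep ψ φ) (h' : Rep ψ' φ) : ψ = ψ' := by
  obtain ⟨Φ, h1, h2, h3⟩ := h
  obtain ⟨Φ', h1', h2', h3'⟩ := h'
  have hΦ : Φ = Φ' := ext_uniqueL hq Φ Φ' h1 h1' (fun l => by rw [h2, h2'])
  apply PowEnd.ext_at
  intro V hV s
  apply eq_of_gam
  intro hη
  exact (h3 V hV hη s).trans ((congrArg (fun F => F (gam V hη s)) hΦ).trans (h3' V hV hη s).symm)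

lemma Rep.comp {q : ℕ} {U : (XX k).Opens} {ψ ψ' : PowEnd q U} {φ φ' : L0 k →+ L0 k}
    (h : Rep ψ φ) (h' : Rep ψ' φ') : Rep (compEnd ψ ψ') (φ.comp φ') := by
  obtain ⟨Φ, h1, h2, h3⟩ := h
  obtain ⟨Φ', h1', h2', h3'⟩ := h'
  refine ⟨Φ.comp Φ', ?_, ?_, ?_⟩
  · intro a b
    rw [AddMonoidHom.comp_apply, h1' a b, h1, AddMonoidHom.comp_apply]
  · intro l
    rw [AddMonoidHom.comp_apply, h2', h2, AddMonoidHom.comp_apply]
  · intro V hV hη s
    rw [compEnd_at, AddMonoidHom.comp_apply, ← h3' V hV hη s]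
    exact h3 V hV hη _

lemma Rep.one {q : ℕ} {U : (XX k).Opens} : Rep (oneEnd q U) (AddMonoidHom.id (L0 k)) :=
  ⟨AddMonoidHom.id _, fun _ _ => rfl, fun _ => rfl, fun _ _ _ _ => rfl⟩

lemma Rep.res {q : ℕ} {U U' : (XX k).Opens} (hU : U' ≤ U) {ψ : PowEnd q U} {φ : L0 k →+ L0 k}
    (h : Rep ψ φ) : Rep (powRes q hU ψ) φ := by
  obtain ⟨Φ, h1, h2, h3⟩ := h
  exact ⟨Φ, h1, h2, fun V hV hη s => h3 V (hV.trans hU) hη s⟩

lemma Rep.add {q : ℕ} {U : (XX k).Opens} {ψ ψ' : PowEnd q U} {φ φ' : L0 k →+ L0 k}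
    (h : Rep ψ φ) (h' : Rep ψ' φ') : Rep (ψ + ψ') (φ + φ') := by
  obtain ⟨Φ, h1, h2, h3⟩ := h
  obtain ⟨Φ', h1', h2', h3'⟩ := h'
  refine ⟨Φ + Φ', ?_, ?_, ?_⟩
  · intro a b
    rw [AddMonoidHom.add_apply, h1 a b, h1' a b, AddMonoidHom.add_apply, mul_add]
  · intro l
    rw [AddMonoidHom.add_apply, h2', h2, AddMonoidHom.add_apply, map_add]
  · intro V hV hη s
    rw [AddMonoidHom.add_apply, ← h3' V hV hη s, ← h3 V hV hη s]
    exact map_add (gam V hη) _ _

lemma Rep.zero {q : ℕ} {U : (XX k).Opens} : Rep (0 : PowEnd q U) (0 : L0 k →+ L0 k) := by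
  refine ⟨0, fun a b => ?_, fun l => ?_, fun V _ hη s => ?_⟩
  · rw [AddMonoidHom.zero_apply, AddMonoidHom.zero_apply, mul_zero]
  · rw [AddMonoidHom.zero_apply, AddMonoidHom.zero_apply, map_zero]
  · exact map_zero (gam V hη)

lemma Rep.sum {q : ℕ} {U : (XX k).Opens} {ι : Type} (t : Finset ι) {ψ : ι → PowEnd q U}
    {φ : ι → (L0 k →+ L0 k)} (h : ∀ i ∈ t, Rep (ψ i) (φ i)) :
    Rep (∑ i ∈ t, ψ i) (∑ i ∈ t, φ i) := by
  classical
  induction t using Finset.induction_on with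
  | empty =>
    rw [Finset.sum_empty, Finset.sum_empty]
    exact Rep.zero
  | insert a t ha ih =>
    rw [Finset.sum_insert ha, Finset.sum_insert ha]
    exact (h a (Finset.mem_insert_self _ _)).add
      (ih fun i hi => h i (Finset.mem_insert_of_mem hi))

lemma Rep.mul {q : ℕ} {U : (XX k).Opens} (hη : genericPoint (XX k) ∈ U) (f : Γ(XX k, U))
    (w : L0 k) (hf : gam U hη f = iota k w) :
    Rep (mulEnd q f) (AddMonoidHom.mulLeft w) := by
  refine ⟨AddMonoidHom.mulLeft (iota k w), ?_, ?_, ?_⟩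
  · intro a b
    exact mul_left_comm _ _ _
  · intro l
    exact (map_mul (iota k) w l).symm
  · intro V hV hη' s
    have h1 : PowEnd.at (mulEnd q f) V hV s = (Pool.Agent.H835R3.res hV f * s : Γ(XX k, V)) := rfl
    have h2 : gam V hη' (Pool.Agent.H835R3.res hV f) = iota k w := by
      rw [← hf]
      exact gam_res hV hη' f
    refine (congrArg (gam V hη') h1).trans ?_
    refine (map_mul (gam V hη') _ _).trans ?_
    rw [h2]
    rfl

/-- existence of sections of endomorphisms from operators -/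
lemma exists_rep {q : ℕ} (hq : 0 < q) (m : NN) (hm : 0 < dn m) (φ : L0 k →+ L0 k)
    (hφ : IsSemi q q φ) (hpres : ∀ w : L0 k, (w : LL k) ∈ Cm k m → (φ w : LL k) ∈ Cm k m)
    (U : (XX k).Opens) (hU : U = UU k m) :
    ∃ ψ : PowEnd q U, Rep ψ φ := by
  subst hU
  obtain ⟨Φ, hΦ, hΦφ⟩ := exists_extL hq φ hφ
  obtain ⟨ψ, h1, h2, h3⟩ := exists_sections (ι := Unit) hq Φ hΦ (fun _ => UU k m)
    (fun _ => isAffineOpen_UU _ hm) (fun _ => generic_mem k _) (by
      intro _ s
      obtain ⟨w, hw, hsw⟩ := gam_chart m hm s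
      obtain ⟨f, hf⟩ := exists_chart m (φ w) (hpres w hw)
      exact ⟨f, by rw [hf, hsw, hΦφ]⟩) (UU k m) (le_iSup (fun _ : Unit => UU k m) ())
  exact ⟨⟨ψ, h2, h3⟩, Φ, hΦ, hΦφ, fun V hV hη s => h1 ⟨V, hV⟩ hη s⟩

end Pool.Agent.H924.Daff
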