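import Pool.Agent.H924.Daff.QAB

/-!
The operators of the cocycle.
-/

set_option autoImplicit false

namespace Pool.Agent.H924.Daff

open AddMonoidAlgebra AlgebraicGeometry HomogeneousLocalization CategoryTheory TopologicalSpace
open Pool.Agent.H835R3 (res res_res res_self gam gam_res gam_injective genericPoint_mem eq_of_gam
  IsSemi)
open Pool.Agent.H835R3.Stmt Stmt

variable {k : Type} [Field k]

/-- the class of exponents on which the commutator lives -/
def QK (r : ℕ) (u : GG) : Prop :=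
  (∀ i, (2 * (r : ℤ)) ∣ u i) ∧ (u 0 / (2 * r) + u 1 / (2 * r)) % 2 = 1 ∧
    (u 2 / (2 * r) + u 3 / (2 * r)) % 2 = 1

/-- the class of exponents of the operator with index `b` -/
def QG (r : ℕ) (b : Fin 4) (u : GG) : Prop := QK r u ∧ (u b / (2 * r)) % 2 = 1

instance (r : ℕ) : DecidablePred (QK r) := fun u => by
  unfold QK
  infer_instance

instance (r : ℕ) (b : Fin 4) : DecidablePred (QG r b) := fun u => by
  unfold QG
  infer_instance

lemma div_shift (r : ℕ) (hr : 0 < r) (x j : ℤ) : (2 * r * j + x) / (2 * r) = j + x / (2 * r) := by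
  have h : (2 * (r : ℤ)) ≠ 0 := by positivity
  rw [add_comm, Int.add_mul_ediv_left _ _ h, add_comm]

/-- the exponent of `x₀x₁` -/
def e01 : GG := ei 0 + ei 1
/-- the exponent of `x₂x₃` -/
def e23 : GG := ei 2 + ei 3

lemma e01_0 : e01 0 = 1 := by decide
lemma e01_1 : e01 1 = 1 := by decide
lemma e01_2 : e01 2 = 0 := by decide
lemma e01_3 : e01 3 = 0 := by decide
lemma e23_0 : e23 0 = 0 := by decide
lemma e23_1 : e23 1 = 0 := by decide
lemma e23_2 : e23 2 = 1 := by decide
lemma e23_3 : e23 3 = 1 := by decide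

lemma nsmul_add_ap (r : ℕ) (w u : GG) (i : Fin 4) :
    ((2 * r : ℕ) • w + u) i = 2 * r * w i + u i := by
  rw [Pi.add_apply, nsmul_ap]
  push_cast
  ring

lemma QK_shift (r : ℕ) (hr : 0 < r) (w u : GG) (h1 : (w 0 + w 1) % 2 = 0)
    (h2 : (w 2 + w 3) % 2 = 0) : QK r ((2 * r : ℕ) • w + u) ↔ QK r u := by
  unfold QK
  simp only [nsmul_add_ap, div_shift r hr]
  have h3 : ∀ i, (2 * (r : ℤ)) ∣ 2 * r * w i + u i ↔ (2 * (r : ℤ)) ∣ u i := fun i =>
    (Int.dvd_add_right (Dvd.intro _ rfl))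
  simp only [h3]
  constructor
  · rintro ⟨a, b, c⟩
    exact ⟨a, by omega, by omega⟩
  · rintro ⟨a, b, c⟩
    exact ⟨a, by omega, by omega⟩

lemma QG_shift_same (r : ℕ) (hr : 0 < r) (b : Fin 4) (w u : GG) (h1 : (w 0 + w 1) % 2 = 0)
    (h2 : (w 2 + w 3) % 2 = 0) (h3 : w b % 2 = 0) :
    QG r b ((2 * r : ℕ) • w + u) ↔ QG r b u := by
  unfold QG
  rw [QK_shift r hr w u h1 h2, nsmul_add_ap, div_shift r hr]
  constructor
  · rintro ⟨a, b⟩
    exact ⟨a, by omega⟩
  · rintro ⟨a, b⟩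
    exact ⟨a, by omega⟩

lemma QG_shift_flip (r : ℕ) (hr : 0 < r) (b : Fin 4) (w u : GG) (h1 : (w 0 + w 1) % 2 = 0)
    (h2 : (w 2 + w 3) % 2 = 0) (h3 : w b % 2 = 1) :
    QG r b ((2 * r : ℕ) • w + u) ↔ QK r u ∧ ¬ QG r b u := by
  unfold QG
  rw [QK_shift r hr w u h1 h2, nsmul_add_ap, div_shift r hr]
  constructor
  · rintro ⟨a, b⟩
    exact ⟨a, fun h => by omega⟩
  · rintro ⟨a, b⟩
    refine ⟨a, ?_⟩
    by_contra hcon
    exact b ⟨a, by omega⟩

/-- the direction of the shifts -/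
def dd : GG := e23 - e01

lemma dg_dd : dg dd = 0 := by decide

/-- the partner of an index -/
def bar (a : Fin 4) : Fin 4 := ![1, 0, 3, 2] a

/-- first shift -/
def sh1 (r : ℕ) (a : Fin 4) : GG := if a = 0 ∨ a = 1 then 0 else -((2 * r : ℕ) • dd)

/-- second shift -/
def sh2 (r : ℕ) (a : Fin 4) : GG := if a = 0 ∨ a = 1 then r • dd else -(r • dd)

lemma dg_sh1 (r : ℕ) (a : Fin 4) : dg (sh1 r a) = 0 := by
  unfold sh1
  split_ifs
  · rfl
  · rw [dg_neg, dg_nsmul, dg_dd, mul_zero, neg_zero]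

lemma dg_sh2 (r : ℕ) (a : Fin 4) : dg (sh2 r a) = 0 := by
  unfold sh2
  split_ifs
  · rw [dg_nsmul, dg_dd, mul_zero]
  · rw [dg_neg, dg_nsmul, dg_dd, mul_zero, neg_zero]

/-- the operators on Laurent polynomials -/
noncomputable def gop (k : Type) [Field k] (r : ℕ) (a : Fin 4) : AL k →+ AL k :=
  mono k (QG r (bar a)) (sh1 r a) + mono k (QG r (bar a)) (sh2 r a)

lemma gop_single (r : ℕ) (a : Fin 4) (u : GG) (c : k) :
    gop k r a (single u c) =
      if QG r (bar a) u then single (u + sh1 r a) c + single (u + sh2 r a) c else 0 := by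
  unfold gop
  rw [AddMonoidHom.add_apply, mono_single, mono_single]
  split_ifs
  · rfl
  · rw [add_zero]

/-- the power of the quadratic form -/
noncomputable def PL (k : Type) [Field k] (r : ℕ) : AL k :=
  single ((2 * r : ℕ) • e01) 1 + single ((2 * r : ℕ) • e23) 1

/-- the symbol of the commutator -/
noncomputable def RL (k : Type) [Field k] (r : ℕ) : AL k :=
  single ((2 * r : ℕ) • e01) 1 + single (r • (e01 + e23)) 1

lemma shift_a (r : ℕ) : (2 * r : ℕ) • e01 + r • dd = r • (e01 + e23) := by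
  unfold dd
  rw [smul_sub, smul_add, two_mul, add_smul]
  abel

lemma shift_b (r : ℕ) : (2 * r : ℕ) • e23 + -((2 * r : ℕ) • dd) = (2 * r : ℕ) • e01 := by
  unfold dd
  rw [smul_sub]
  abel

lemma shift_c (r : ℕ) : (2 * r : ℕ) • e23 + -(r • dd) = r • (e01 + e23) := by
  unfold dd
  rw [smul_sub, smul_add, two_mul, add_smul]
  abel

variable [CharP k 2]

/-- the commutator with the power of the quadratic form does not depend on the index -/
lemma gop_comm (r : ℕ) (hr : 0 < r) (a : Fin 4) (l : AL k) :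
    gop k r a (PL k r * l) + PL k r * gop k r a l = RL k r * mono k (QK r) 0 l := by
  have h : (gop k r a).comp (AddMonoidHom.mulLeft (PL k r)) +
      (AddMonoidHom.mulLeft (PL k r)).comp (gop k r a) =
      (AddMonoidHom.mulLeft (RL k r)).comp (mono k (QK r) 0) := by
    apply addHom_ext'
    intro u c
    simp only [AddMonoidHom.add_apply, AddMonoidHom.comp_apply, AddMonoidHom.coe_mulLeft]
    rw [mono_single, add_zero]
    have h1 : PL k r * single u c = single ((2 * r : ℕ) • e01 + u) c +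
        single ((2 * r : ℕ) • e23 + u) c := by
      unfold PL
      rw [add_mul, single_mul_single, single_mul_single, one_mul]
    have h2 : RL k r * single u c = single ((2 * r : ℕ) • e01 + u) c +
        single (r • (e01 + e23) + u) c := by
      unfold RL
      rw [add_mul, single_mul_single, single_mul_single, one_mul]
    rw [h1, map_add, gop_single, gop_single, gop_single]
    by_cases ha : a = 0 ∨ a = 1
    · have hb : (e01 (bar a)) % 2 = 1 ∧ (e23 (bar a)) % 2 = 0 := by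
        rcases ha with rfl | rfl <;> decide
      have q1 := QG_shift_flip r hr (bar a) e01 u (by decide) (by decide) hb.1
      have q2 := QG_shift_same r hr (bar a) e23 u (by decide) (by decide) hb.2
      rw [if_congr q1 rfl rfl, if_congr q2 rfl rfl]
      have s1 : sh1 r a = 0 := if_pos ha
      have s2 : sh2 r a = r • dd := if_pos ha
      rw [s1, s2]
      by_cases hK : QK r u
      · rw [if_pos hK, h2]
        have e1 : (2 * r : ℕ) • e01 + u + r • dd = r • (e01 + e23) + u := by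
          rw [← shift_a]; abel
        by_cases hG : QG r (bar a) u
        · rw [if_neg (fun h => h.2 hG), if_pos hG, if_pos hG, zero_add]
          unfold PL
          simp only [mul_add, add_mul, single_mul_single, one_mul, add_zero]
          have e2 : (2 * r : ℕ) • e01 + (u + r • dd) = r • (e01 + e23) + u := by
            rw [← shift_a]; abel
          have e3 : (2 * r : ℕ) • e23 + u + r • dd = (2 * r : ℕ) • e23 + (u + r • dd) := by abel
          rw [e2, e3]
          have hc1 := CharTwo.add_self_eq_zero (single ((2 * r : ℕ) • e23 + u) c : AL k)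
          have hc2 := CharTwo.add_self_eq_zero (single ((2 * r : ℕ) • e23 + (u + r • dd)) c : AL k)
          linear_combination hc1 + hc2
        · rw [if_pos ⟨hK, hG⟩, if_neg hG, if_neg hG, add_zero, mul_zero, add_zero, add_zero, e1]
      · have hG : ¬ QG r (bar a) u := fun h => hK h.1
        rw [if_neg (fun h => hK h.1), if_neg hG, if_neg hG, if_neg hK, mul_zero, mul_zero]
        simp
    · have hb : (e01 (bar a)) % 2 = 0 ∧ (e23 (bar a)) % 2 = 1 := by
        fin_cases a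
        · exact absurd (Or.inl rfl) ha
        · exact absurd (Or.inr rfl) ha
        · decide
        · decide
      have q1 := QG_shift_same r hr (bar a) e01 u (by decide) (by decide) hb.1
      have q2 := QG_shift_flip r hr (bar a) e23 u (by decide) (by decide) hb.2
      rw [if_congr q1 rfl rfl, if_congr q2 rfl rfl]
      have s1 : sh1 r a = -((2 * r : ℕ) • dd) := if_neg ha
      have s2 : sh2 r a = -(r • dd) := if_neg ha
      rw [s1, s2]
      by_cases hK : QK r u
      · rw [if_pos hK, h2]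
        have e1 : (2 * r : ℕ) • e23 + u + -((2 * r : ℕ) • dd) = (2 * r : ℕ) • e01 + u := by
          rw [← shift_b]; abel
        have e1' : (2 * r : ℕ) • e23 + u + -(r • dd) = r • (e01 + e23) + u := by
          rw [← shift_c]; abel
        by_cases hG : QG r (bar a) u
        · rw [if_pos hG, if_neg (fun h => h.2 hG), if_pos hG, add_zero]
          unfold PL
          simp only [mul_add, add_mul, single_mul_single, one_mul]
          have e2 : (2 * r : ℕ) • e23 + (u + -((2 * r : ℕ) • dd)) = (2 * r : ℕ) • e01 + u := by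
            rw [← e1]; abel
          have e2' : (2 * r : ℕ) • e23 + (u + -(r • dd)) = r • (e01 + e23) + u := by
            rw [← e1']; abel
          have e3 : (2 * r : ℕ) • e01 + u + -((2 * r : ℕ) • dd) =
            (2 * r : ℕ) • e01 + (u + -((2 * r : ℕ) • dd)) := by abel
          have e3' : (2 * r : ℕ) • e01 + u + -(r • dd) =
            (2 * r : ℕ) • e01 + (u + -(r • dd)) := by abel
          rw [e2, e2', e3, e3']
          have hc1 := CharTwo.add_self_eq_zero
            (single ((2 * r : ℕ) • e01 + (u + -((2 * r : ℕ) • dd))) c : AL k)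
          have hc2 := CharTwo.add_self_eq_zero
            (single ((2 * r : ℕ) • e01 + (u + -(r • dd))) c : AL k)
          linear_combination hc1 + hc2
        · rw [if_neg hG, if_pos ⟨hK, hG⟩, if_neg hG, zero_add, mul_zero, add_zero, e1, e1']
      · have hG : ¬ QG r (bar a) u := fun h => hK h.1
        rw [if_neg hG, if_neg (fun h => hK h.1), if_neg hG, if_neg hK, mul_zero, mul_zero]
        simp
  exact congrArg (fun F => F l) h

lemma QG_periodic (n : ℕ) (b : Fin 4) (w u : GG) :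
    QG (2 ^ n) b ((2 ^ (n + 2) : ℕ) • w + u) ↔ QG (2 ^ n) b u := by
  have h1 : (2 ^ (n + 2) : ℕ) • w + u = (2 * 2 ^ n : ℕ) • ((2 : ℕ) • w) + u := by
    rw [smul_smul]
    congr 2
    ring
  rw [h1]
  apply QG_shift_same _ (pow_pos two_pos n)
  · rw [nsmul_ap, nsmul_ap]; push_cast; omega
  · rw [nsmul_ap, nsmul_ap]; push_cast; omega
  · rw [nsmul_ap]; push_cast; omega

lemma gop_isSemi (n : ℕ) (a : Fin 4) :
    IsSemi (2 ^ (n + 2)) (2 ^ (n + 2)) (gop k (2 ^ n) a) := by
  have h1 := mono_isSemi (k := k) 2 (n + 2) (QG (2 ^ n) (bar a)) (sh1 (2 ^ n) a)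
    (QG_periodic n (bar a))
  have h2 := mono_isSemi (k := k) 2 (n + 2) (QG (2 ^ n) (bar a)) (sh2 (2 ^ n) a)
    (QG_periodic n (bar a))
  intro v w
  unfold gop
  rw [AddMonoidHom.add_apply, h1 v w, h2 v w, AddMonoidHom.add_apply, mul_add]

lemma QL_pow (n : ℕ) : QL k ^ 2 ^ (n + 1) = PL k (2 ^ n) := by
  have : ExpChar (AL k) 2 := inferInstance
  have h : (2 * 2 ^ n : ℕ) = 2 ^ (n + 1) := by ring
  unfold QL PL e01 e23
  rw [add_pow_expChar_pow, single_one_pow, single_one_pow, h]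

omit [CharP k 2] in
lemma gop_deg (r : ℕ) (a : Fin 4) : DegOK (gop k r a) 0 0 0 := by
  refine ⟨fun l hl => ⟨?_, zero_mem _⟩, fun l hl => ⟨zero_mem _, zero_mem _⟩⟩
  refine add_mem (mono_supp ?_ hl) (mono_supp ?_ hl)
  · intro u hu _
    show dg _ = 0
    rw [dg_add, dg_sh1, show dg u = 0 from hu, add_zero]
  · intro u hu _
    show dg _ = 0
    rw [dg_add, dg_sh2, show dg u = 0 from hu, add_zero]

/-- the operators in degree zero -/
noncomputable def Gop (k : Type) [Field k] (r : ℕ) (a : Fin 4) : L0 k →+ L0 k :=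
  blk0 (gop k r a) 0 0 0 (gop_deg r a)

lemma LL.pow_eq (n : ℕ) (v : LL k) :
    v ^ 2 ^ (n + 2) = inA (v.re ^ 2 ^ (n + 2) + PL k (2 ^ n) * v.im ^ 2 ^ (n + 2)) := by
  have : ExpChar (AL k) 2 := inferInstance
  have h1 : v ^ 2 ^ (n + 2) = inA ((v.re ^ 2 + QL k * v.im ^ 2) ^ 2 ^ (n + 1)) := by
    rw [pow_succ', pow_mul, LL.sq_eq, ← map_pow]
  rw [h1, add_pow_expChar_pow, mul_pow, QL_pow, ← pow_mul, ← pow_mul]
  congr 3 <;> ring

lemma Gop_diff_semi (n : ℕ) (a b : Fin 4) :
    IsSemi (2 ^ (n + 2)) (2 ^ (n + 2)) (Gop k (2 ^ n) a - Gop k (2 ^ n) b) := by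
  intro v w
  apply Subtype.ext
  have h1 : ((v ^ 2 ^ (n + 2) * w : L0 k) : LL k) =
      inA ((v : LL k).re ^ 2 ^ (n + 2) + PL k (2 ^ n) * (v : LL k).im ^ 2 ^ (n + 2)) *
        (w : LL k) := by
    rw [← LL.pow_eq]
    rfl
  have h2 : ∀ x : L0 k, (((Gop k (2 ^ n) a - Gop k (2 ^ n) b) x : L0 k) : LL k) =
      ⟨gop k (2 ^ n) a (x : LL k).re - gop k (2 ^ n) b (x : LL k).re, 0⟩ := by
    intro x
    rw [AddMonoidHom.sub_apply]
    show blk _ _ _ _ (x : LL k) - blk _ _ _ _ (x : LL k) = _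
    apply QuadraticAlgebra.ext
    · show (_ + 0) - (_ + 0) = _
      rw [add_zero, add_zero]
    · show (0 + 0) - (0 + 0) = (0 : AL k)
      simp
  have h3 : ∀ (x y l : AL k),
      gop k (2 ^ n) a ((x ^ 2 ^ (n + 2) + PL k (2 ^ n) * y ^ 2 ^ (n + 2)) * l) -
      gop k (2 ^ n) b ((x ^ 2 ^ (n + 2) + PL k (2 ^ n) * y ^ 2 ^ (n + 2)) * l) =
      (x ^ 2 ^ (n + 2) + PL k (2 ^ n) * y ^ 2 ^ (n + 2)) *
        (gop k (2 ^ n) a l - gop k (2 ^ n) b l) := by
    intro x y l
    have c1 : ∀ c, gop k (2 ^ n) c ((x ^ 2 ^ (n + 2) + PL k (2 ^ n) * y ^ 2 ^ (n + 2)) * l) =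
        x ^ 2 ^ (n + 2) * gop k (2 ^ n) c l +
          y ^ 2 ^ (n + 2) * gop k (2 ^ n) c (PL k (2 ^ n) * l) := by
      intro c
      rw [add_mul, map_add, gop_isSemi n c x l, mul_comm (PL k (2 ^ n)), mul_assoc,
        gop_isSemi n c y]
    have c2 : ∀ c, gop k (2 ^ n) c (PL k (2 ^ n) * l) =
        RL k (2 ^ n) * mono k (QK (2 ^ n)) 0 l - PL k (2 ^ n) * gop k (2 ^ n) c l := by
      intro c
      rw [← gop_comm _ (pow_pos two_pos n) c l]
      ring
    rw [c1, c1, c2, c2]
    have hc : ∀ z : AL k, z + z = 0 := CharTwo.add_self_eq_zero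
    linear_combination (- y ^ 2 ^ (n + 2)) * hc (PL k (2 ^ n) * (gop k (2 ^ n) a l -
      gop k (2 ^ n) b l))
  rw [h2, h1, inA_mul]
  have h4 : ((v ^ 2 ^ (n + 2) * (Gop k (2 ^ n) a - Gop k (2 ^ n) b) w : L0 k) : LL k) =
      inA ((v : LL k).re ^ 2 ^ (n + 2) + PL k (2 ^ n) * (v : LL k).im ^ 2 ^ (n + 2)) *
        (((Gop k (2 ^ n) a - Gop k (2 ^ n) b) w : L0 k) : LL k) := by
    rw [← LL.pow_eq]
    rfl
  rw [h4, h2, inA_mul, mul_zero]
  apply QuadraticAlgebra.ext
  · exact h3 _ _ _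
  · rfl

omit [CharP k 2] in
lemma sh_reg (r : ℕ) (hr : 0 < r) (m : NN) (a : Fin 4) (hm : m a ≠ 0) (u : GG) (hu : u ∈ regm m)
    (hQ : QG r (bar a) u) : u + sh1 r a ∈ regm m ∧ u + sh2 r a ∈ regm m := by
  have hbar : m (bar a) = 0 → 2 * (r : ℤ) ≤ u (bar a) := by
    intro h
    have h1 := hu (bar a) h
    obtain ⟨j, hj⟩ := hQ.1.1 (bar a)
    have h2 := hQ.2
    have hr' : (0 : ℤ) < 2 * (r : ℤ) := by positivity
    rw [hj, Int.mul_ediv_cancel_left _ hr'.ne'] at h2
    rw [hj] at h1 ⊢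
    have h3 : 0 ≤ j := by
      by_contra hc
      push Not at hc
      nlinarith
    have h4 : 1 ≤ j := by omega
    nlinarith
  have hr0 : (0 : ℤ) < r := by exact_mod_cast hr
  have d0 : dd 0 = -1 := by decide
  have d1 : dd 1 = -1 := by decide
  have d2 : dd 2 = 1 := by decide
  have d3 : dd 3 = 1 := by decide
  fin_cases a
  · have s1 : sh1 r 0 = 0 := if_pos (Or.inl rfl)
    have s2 : sh2 r 0 = r • dd := if_pos (Or.inl rfl)
    show u + sh1 r 0 ∈ regm m ∧ u + sh2 r 0 ∈ regm m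
    rw [s1, s2, add_zero]
    refine ⟨hu, fun i hi => ?_⟩
    have hb : m 1 = 0 → 2 * (r : ℤ) ≤ u 1 := hbar
    have h0 : m 0 ≠ 0 := hm
    rw [Pi.add_apply, nsmul_ap]
    have := hu i hi
    fin_cases i
    · exact absurd hi h0
    · have h5 := hb hi
      show 0 ≤ u 1 + r * dd 1
      rw [d1]
      linarith
    · have h5 : 0 ≤ u 2 := this
      show 0 ≤ u 2 + r * dd 2
      rw [d2]
      linarith
    · have h5 : 0 ≤ u 3 := this
      show 0 ≤ u 3 + r * dd 3
      rw [d3]
      linarith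
  · have s1 : sh1 r 1 = 0 := if_pos (Or.inr rfl)
    have s2 : sh2 r 1 = r • dd := if_pos (Or.inr rfl)
    show u + sh1 r 1 ∈ regm m ∧ u + sh2 r 1 ∈ regm m
    rw [s1, s2, add_zero]
    refine ⟨hu, fun i hi => ?_⟩
    have hb : m 0 = 0 → 2 * (r : ℤ) ≤ u 0 := hbar
    have h0 : m 1 ≠ 0 := hm
    rw [Pi.add_apply, nsmul_ap]
    have := hu i hi
    fin_cases i
    · have h5 := hb hi
      show 0 ≤ u 0 + r * dd 0
      rw [d0]
      linarith
    · exact absurd hi h0
    · have h5 : 0 ≤ u 2 := this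
      show 0 ≤ u 2 + r * dd 2
      rw [d2]
      linarith
    · have h5 : 0 ≤ u 3 := this
      show 0 ≤ u 3 + r * dd 3
      rw [d3]
      linarith
  · have s1 : sh1 r 2 = -((2 * r : ℕ) • dd) := if_neg (by decide)
    have s2 : sh2 r 2 = -(r • dd) := if_neg (by decide)
    show u + sh1 r 2 ∈ regm m ∧ u + sh2 r 2 ∈ regm m
    rw [s1, s2]
    have hb : m 3 = 0 → 2 * (r : ℤ) ≤ u 3 := hbar
    have h0 : m 2 ≠ 0 := hm
    constructor <;> intro i hi <;> rw [Pi.add_apply, Pi.neg_apply, nsmul_ap] <;>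
      have := hu i hi <;> fin_cases i
    · have h5 : 0 ≤ u 0 := this
      show 0 ≤ u 0 + -((2 * r : ℕ) * dd 0)
      rw [d0]; push_cast; linarith
    · have h5 : 0 ≤ u 1 := this
      show 0 ≤ u 1 + -((2 * r : ℕ) * dd 1)
      rw [d1]; push_cast; linarith
    · exact absurd hi h0
    · have h5 := hb hi
      show 0 ≤ u 3 + -((2 * r : ℕ) * dd 3)
      rw [d3]; push_cast; linarith
    · have h5 : 0 ≤ u 0 := this
      show 0 ≤ u 0 + -(r * dd 0)
      rw [d0]; linarith
    · have h5 : 0 ≤ u 1 := this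
      show 0 ≤ u 1 + -(r * dd 1)
      rw [d1]; linarith
    · exact absurd hi h0
    · have h5 := hb hi
      show 0 ≤ u 3 + -(r * dd 3)
      rw [d3]; linarith
  · have s1 : sh1 r 3 = -((2 * r : ℕ) • dd) := if_neg (by decide)
    have s2 : sh2 r 3 = -(r • dd) := if_neg (by decide)
    show u + sh1 r 3 ∈ regm m ∧ u + sh2 r 3 ∈ regm m
    rw [s1, s2]
    have hb : m 2 = 0 → 2 * (r : ℤ) ≤ u 2 := hbar
    have h0 : m 3 ≠ 0 := hm
    constructor <;> intro i hi <;> rw [Pi.add_apply, Pi.neg_apply, nsmul_ap] <;>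
      have := hu i hi <;> fin_cases i
    · have h5 : 0 ≤ u 0 := this
      show 0 ≤ u 0 + -((2 * r : ℕ) * dd 0)
      rw [d0]; push_cast; linarith
    · have h5 : 0 ≤ u 1 := this
      show 0 ≤ u 1 + -((2 * r : ℕ) * dd 1)
      rw [d1]; push_cast; linarith
    · have h5 := hb hi
      show 0 ≤ u 2 + -((2 * r : ℕ) * dd 2)
      rw [d2]; push_cast; linarith
    · exact absurd hi h0
    · have h5 : 0 ≤ u 0 := this
      show 0 ≤ u 0 + -(r * dd 0)
      rw [d0]; linarith
    · have h5 : 0 ≤ u 1 := this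
      show 0 ≤ u 1 + -(r * dd 1)
      rw [d1]; linarith
    · have h5 := hb hi
      show 0 ≤ u 2 + -(r * dd 2)
      rw [d2]; linarith
    · exact absurd hi h0

omit [CharP k 2] in
lemma Gop_pres (r : ℕ) (hr : 0 < r) (m : NN) (a : Fin 4) (hm : m a ≠ 0) (w : L0 k)
    (hw : (w : LL k) ∈ Cm k m) : (Gop k r a w : LL k) ∈ Cm k m := by
  refine blk0_Cm m (gop_deg r a) ?_ ?_ w hw
  · intro l _ hl
    exact ⟨add_mem (mono_supp (fun u hu hQ => (sh_reg r hr m a hm u hu hQ).1) hl)
      (mono_supp (fun u hu hQ => (sh_reg r hr m a hm u hu hQ).2) hl), zero_mem _⟩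
  · intro l _ hl
    exact ⟨zero_mem _, zero_mem _⟩

end Pool.Agent.H924.Daff
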