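import Pool.Agent.H924.Daff.QRing

/-!
The grading of the homogeneous coordinate ring of the quadric.
-/

set_option autoImplicit false

namespace Pool.Agent.H924.Daff

open AddMonoidAlgebra Pool.Agent.H835R3 DirectSum

/-- natural exponents -/
abbrev NN : Type := Fin 4 →₀ ℕ

/-- polynomials in four variables -/
abbrev SP (k : Type) [Field k] : Type := AddMonoidAlgebra k NN

/-- natural exponents as integral exponents -/
def gm : NN →+ GG where
  toFun m := fun i => (m i : ℤ)
  map_zero' := by funext i; simp
  map_add' m m' := by funext i; simp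

lemma gm_apply (m : NN) (i : Fin 4) : gm m i = (m i : ℤ) := rfl

lemma gm_injective : Function.Injective gm := by
  intro m m' h
  ext i
  have := congrFun h i
  rw [gm_apply, gm_apply] at this
  exact_mod_cast this

/-- the degree of a natural exponent -/
def dn (m : NN) : ℕ := m 0 + m 1 + m 2 + m 3

lemma dg_gm (m : NN) : dg (gm m) = dn m := by
  unfold dg dn
  simp only [gm_apply]
  push_cast
  ring

variable {k : Type} [Field k]

/-- polynomials as Laurent polynomials -/
noncomputable def th (k : Type) [Field k] : SP k →ₐ[k] AL k :=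
  AddMonoidAlgebra.mapDomainAlgHom k k gm

lemma th_coeff (f : SP k) : (th k f).coeff = Finsupp.mapDomain gm f.coeff := rfl

lemma th_single (m : NN) (c : k) : th k (single m c) = single (gm m) c :=
  AddMonoidAlgebra.mapDomain_single

lemma th_injective : Function.Injective (th k) := by
  intro f g h
  apply AddMonoidAlgebra.ext
  apply Finsupp.mapDomain_injective gm_injective
  rw [← th_coeff, ← th_coeff, h]

/-- nonnegative exponents -/
def pos : Set GG := {u | ∀ i, 0 ≤ u i}

lemma th_range (l : AL k) : (∃ f, th k f = l) ↔ l ∈ supp k pos := by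
  constructor
  · rintro ⟨f, rfl⟩ w hw
    rw [th_coeff] at hw
    classical
    have h1 := Finsupp.mapDomain_support (f := gm) (s := f.coeff) (Finsupp.mem_support_iff.2 hw)
    rw [Finset.mem_image] at h1
    obtain ⟨m, -, rfl⟩ := h1
    intro i
    rw [gm_apply]
    exact Int.natCast_nonneg _
  · intro hl
    refine supp_induction (P := fun l => ∃ f, th k f = l) ⟨0, map_zero _⟩ ?_ ?_ l hl
    · rintro a b ⟨f, rfl⟩ ⟨g, rfl⟩
      exact ⟨f + g, map_add _ _ _⟩
    · intro u hu c
      refine ⟨single (Finsupp.equivFunOnFinite.symm fun i => (u i).toNat) c, ?_⟩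
      rw [th_single]
      congr 1
      funext i
      rw [gm_apply]
      simp only [Finsupp.equivFunOnFinite_symm_apply_apply]
      exact Int.toNat_of_nonneg (hu i)

/-- the quadratic form -/
noncomputable def QP (k : Type) [Field k] : SP k :=
  single (Finsupp.single 0 1 + Finsupp.single 1 1) 1 +
    single (Finsupp.single 2 1 + Finsupp.single 3 1) 1

lemma gm_single (i : Fin 4) : gm (Finsupp.single i 1) = ei i := by
  funext j
  rw [gm_apply, ei, Finsupp.single_apply, Pi.single_apply]
  by_cases h : i = j
  · rw [if_pos h, if_pos h.symm]; rfl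
  · rw [if_neg h, if_neg (fun h' => h h'.symm)]; rfl

lemma th_QP : th k (QP k) = QL k := by
  unfold QP QL
  rw [map_add, th_single, th_single, map_add, map_add, gm_single, gm_single, gm_single, gm_single]

/-- the homogeneous coordinate ring of the quadric -/
abbrev SS (k : Type) [Field k] : Type := QuadraticAlgebra (SP k) (QP k) 0

lemma SS.mul_re (v w : SS k) : (v * w).re = v.re * w.re + QP k * v.im * w.im := rfl

lemma SS.mul_im (v w : SS k) : (v * w).im = v.re * w.im + v.im * w.re := by
  have h : (v * w).im = v.re * w.im + v.im * w.re + 0 * v.im * w.im := rfl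
  rw [h, zero_mul, zero_mul, add_zero]

/-- the inclusion of the coordinate ring in its localization -/
noncomputable def pi (k : Type) [Field k] : SS k →+* LL k where
  toFun w := ⟨th k w.re, th k w.im⟩
  map_one' := by
    apply QuadraticAlgebra.ext
    · exact map_one _
    · exact map_zero _
  map_zero' := by
    apply QuadraticAlgebra.ext
    · exact map_zero _
    · exact map_zero _
  map_add' v w := by
    apply QuadraticAlgebra.ext
    · exact map_add _ _ _
    · exact map_add _ _ _
  map_mul' v w := by
    apply QuadraticAlgebra.ext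
    · rw [LL.mul_re, SS.mul_re, map_add, map_mul, map_mul, map_mul, th_QP]
    · rw [LL.mul_im, SS.mul_im, map_add, map_mul, map_mul]

lemma pi_re (w : SS k) : (pi k w).re = th k w.re := rfl
lemma pi_im (w : SS k) : (pi k w).im = th k w.im := rfl

lemma pi_injective : Function.Injective (pi k) := by
  intro v w h
  apply QuadraticAlgebra.ext
  · exact th_injective (congrArg QuadraticAlgebra.re h)
  · exact th_injective (congrArg QuadraticAlgebra.im h)

lemma pi_smul (c : k) (w : SS k) : pi k (c • w) = c • pi k w := by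
  apply QuadraticAlgebra.ext
  · exact map_smul (th k) c w.re
  · exact map_smul (th k) c w.im

instance instIsDomainSS [CharP k 2] : IsDomain (SS k) :=
  pi_injective.isDomain (pi k)

/-- elements of degree `d` -/
def Ld (k : Type) [Field k] (d : ℤ) : AddSubgroup (LL k) where
  carrier := {w | w.re ∈ supp k {u | dg u = d} ∧ w.im ∈ supp k {u | dg u + 1 = d}}
  zero_mem' := ⟨zero_mem (supp k _), zero_mem (supp k _)⟩
  add_mem' := fun h h' => ⟨add_mem h.1 h'.1, add_mem h.2 h'.2⟩
  neg_mem' := fun h => ⟨neg_mem h.1, neg_mem h.2⟩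

lemma mem_Ld {d : ℤ} {w : LL k} : w ∈ Ld k d ↔
    w.re ∈ supp k {u | dg u = d} ∧ w.im ∈ supp k {u | dg u + 1 = d} := Iff.rfl

lemma QL_mem : QL k ∈ supp k {u | dg u = 2} := by
  unfold QL
  refine add_mem (single_mem_supp ?_ _) (single_mem_supp ?_ _)
  · show dg _ = 2
    rw [dg_add, dg_ei, dg_ei]; rfl
  · show dg _ = 2
    rw [dg_add, dg_ei, dg_ei]; rfl

lemma mul_mem_Ld {d d' : ℤ} {v w : LL k} (hv : v ∈ Ld k d) (hw : w ∈ Ld k d') :
    v * w ∈ Ld k (d + d') := by
  refine ⟨?_, ?_⟩
  · rw [LL.mul_re, mul_assoc]
    refine add_mem (mul_mem_supp ?_ _ _ hv.1 hw.1)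
      (mul_mem_supp (C' := {u | dg u + 2 = d + d'}) ?_ _ _ QL_mem
        (mul_mem_supp ?_ _ _ hv.2 hw.2))
    · intro u hu v hv
      show dg _ = _
      rw [dg_add, show dg u = d from hu, show dg v = d' from hv]
    · intro u hu v hv
      show dg _ = _
      have h1 : dg u = 2 := hu
      have h2 : dg v + 2 = d + d' := hv
      rw [dg_add]; omega
    · intro u hu v hv
      show dg _ + 2 = _
      have h1 : dg u + 1 = d := hu
      have h2 : dg v + 1 = d' := hv
      rw [dg_add]; omega
  · rw [LL.mul_im]
    refine add_mem (mul_mem_supp ?_ _ _ hv.1 hw.2) (mul_mem_supp ?_ _ _ hv.2 hw.1)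
    · intro u hu v hv
      show dg _ + 1 = _
      have h1 : dg u = d := hu
      have h2 : dg v + 1 = d' := hv
      rw [dg_add]; omega
    · intro u hu v hv
      show dg _ + 1 = _
      have h1 : dg u + 1 = d := hu
      have h2 : dg v = d' := hv
      rw [dg_add]; omega

lemma one_mem_Ld : (1 : LL k) ∈ Ld k 0 := by
  refine ⟨?_, zero_mem _⟩
  exact single_mem_supp (show dg 0 = 0 by simp [dg]) 1

/-- the grading of the coordinate ring -/
noncomputable def gr (k : Type) [Field k] (d : ℕ) : Submodule k (SS k) where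
  carrier := {w | pi k w ∈ Ld k d}
  zero_mem' := by
    show pi k 0 ∈ Ld k d
    rw [map_zero]; exact zero_mem _
  add_mem' := by
    intro v w hv hw
    show pi k (v + w) ∈ Ld k d
    rw [map_add]; exact add_mem hv hw
  smul_mem' := by
    intro c w hw
    show pi k (c • w) ∈ Ld k d
    rw [pi_smul]
    refine ⟨?_, ?_⟩
    · intro u hu
      apply hw.1 u
      intro h
      apply hu
      show (c • (pi k w).re).coeff u = 0
      rw [coeff_smul, Finsupp.smul_apply, h, smul_zero]
    · intro u hu
      apply hw.2 u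
      intro h
      apply hu
      show (c • (pi k w).im).coeff u = 0
      rw [coeff_smul, Finsupp.smul_apply, h, smul_zero]

lemma mem_gr {d : ℕ} {w : SS k} : w ∈ gr k d ↔ pi k w ∈ Ld k d := Iff.rfl

lemma re_mem_gr {m : NN} {c : k} : (⟨single m c, 0⟩ : SS k) ∈ gr k (dn m) := by
  refine ⟨?_, ?_⟩
  · rw [pi_re]
    show th k (single m c) ∈ _
    rw [th_single]
    exact single_mem_supp (dg_gm m) c
  · rw [pi_im]
    show th k 0 ∈ _
    rw [map_zero]
    exact zero_mem _

lemma im_mem_gr {m : NN} {c : k} : (⟨0, single m c⟩ : SS k) ∈ gr k (dn m + 1) := by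
  refine ⟨?_, ?_⟩
  · rw [pi_re]
    show th k 0 ∈ _
    rw [map_zero]
    exact zero_mem _
  · rw [pi_im]
    show th k (single m c) ∈ _
    rw [th_single]
    refine single_mem_supp ?_ c
    show dg (gm m) + 1 = _
    rw [dg_gm]
    push_cast
    ring

/-- decomposition of the real part -/
noncomputable def decRe (k : Type) [Field k] : SP k →+ ⨁ d, gr k d :=
  (Finsupp.liftAddHom (fun m => (DirectSum.of (fun d => gr k d) (dn m)).comp
    (AddMonoidHom.mk' (fun c : k => (⟨⟨single m c, 0⟩, re_mem_gr⟩ : gr k (dn m))) (by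
      intro a b
      apply Subtype.ext
      apply QuadraticAlgebra.ext
      · exact single_add m a b
      · exact (add_zero _).symm)))).comp
    (AddMonoidAlgebra.coeffAddEquiv (R := k) (M := NN)).toAddMonoidHom

/-- decomposition of the imaginary part -/
noncomputable def decIm (k : Type) [Field k] : SP k →+ ⨁ d, gr k d :=
  (Finsupp.liftAddHom (fun m => (DirectSum.of (fun d => gr k d) (dn m + 1)).comp
    (AddMonoidHom.mk' (fun c : k => (⟨⟨0, single m c⟩, im_mem_gr⟩ : gr k (dn m + 1))) (by
      intro a b
      apply Subtype.ext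
      apply QuadraticAlgebra.ext
      · exact (add_zero _).symm
      · exact single_add m a b)))).comp
    (AddMonoidAlgebra.coeffAddEquiv (R := k) (M := NN)).toAddMonoidHom

lemma decRe_single (m : NN) (c : k) : decRe k (single m c) =
    DirectSum.of (fun d => gr k d) (dn m) ⟨⟨single m c, 0⟩, re_mem_gr⟩ := by
  unfold decRe
  show Finsupp.liftAddHom _ (AddMonoidAlgebra.coeff (single m c)) = _
  rw [coeff_single, Finsupp.liftAddHom_apply_single]
  rfl

lemma decIm_single (m : NN) (c : k) : decIm k (single m c) =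
    DirectSum.of (fun d => gr k d) (dn m + 1) ⟨⟨0, single m c⟩, im_mem_gr⟩ := by
  unfold decIm
  show Finsupp.liftAddHom _ (AddMonoidAlgebra.coeff (single m c)) = _
  rw [coeff_single, Finsupp.liftAddHom_apply_single]
  rfl

lemma of_congr {d d' : ℕ} (h : d = d') (w : SS k) (hw : w ∈ gr k d) (hw' : w ∈ gr k d') :
    DirectSum.of (fun d => gr k d) d ⟨w, hw⟩ = DirectSum.of (fun d => gr k d) d' ⟨w, hw'⟩ := by
  subst h
  rfl

lemma re_gr {d : ℕ} {a : SP k} (h : th k a ∈ supp k {u | dg u = d}) :
    (⟨a, 0⟩ : SS k) ∈ gr k d := by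
  refine ⟨h, ?_⟩
  rw [pi_im]
  show th k 0 ∈ _
  rw [map_zero]
  exact zero_mem _

lemma im_gr {d : ℕ} {a : SP k} (h : th k a ∈ supp k {u | dg u + 1 = d}) :
    (⟨0, a⟩ : SS k) ∈ gr k d := by
  refine ⟨?_, h⟩
  rw [pi_re]
  show th k 0 ∈ _
  rw [map_zero]
  exact zero_mem _

/-- induction for polynomials whose exponents satisfy a condition -/
lemma th_induction {C : Set GG} {P : SP k → Prop} (h0 : P 0)
    (hadd : ∀ a b, th k a ∈ supp k C → th k b ∈ supp k C → P a → P b → P (a + b))
    (hs : ∀ m : NN, gm m ∈ C → ∀ c : k, P (single m c))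
    (a : SP k) (ha : th k a ∈ supp k C) : P a := by
  have h2 : a = a.coeff.sum (fun u c => (single u c : SP k)) := (sum_coeff_single a).symm
  have h3 : ∀ m ∈ a.coeff.support, gm m ∈ C := by
    intro m hm
    apply ha
    rw [th_coeff, Finsupp.mapDomain_apply gm_injective]
    exact Finsupp.mem_support_iff.1 hm
  have key : ∀ t : Finset NN, t ⊆ a.coeff.support →
      th k (∑ m ∈ t, single m (a.coeff m)) ∈ supp k C ∧ P (∑ m ∈ t, single m (a.coeff m)) := by
    classical
    intro t
    induction t using Finset.induction_on with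
    | empty =>
      intro _
      rw [Finset.sum_empty, map_zero]
      exact ⟨zero_mem _, h0⟩
    | insert m t hm ih =>
      intro ht
      obtain ⟨ih1, ih2⟩ := ih ((Finset.subset_insert _ _).trans ht)
      have hm' := h3 m (ht (Finset.mem_insert_self _ _))
      have h4 : th k (single m (a.coeff m)) ∈ supp k C := by
        rw [th_single]
        exact single_mem_supp hm' _
      rw [Finset.sum_insert hm, map_add]
      exact ⟨add_mem h4 ih1, hadd _ _ h4 ih1 (hs m hm' _) ih2⟩
  rw [h2]
  exact (key a.coeff.support (Finset.Subset.refl _)).2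

lemma decRe_of {d : ℕ} (a : SP k) (ha : th k a ∈ supp k {u | dg u = d}) :
    decRe k a = DirectSum.of (fun d => gr k d) d ⟨⟨a, 0⟩, re_gr ha⟩ := by
  refine th_induction (C := {u | dg u = d})
    (P := fun a => ∀ h : th k a ∈ supp k {u | dg u = d},
      decRe k a = DirectSum.of (fun d => gr k d) d ⟨⟨a, 0⟩, re_gr h⟩) ?_ ?_ ?_ a ha ha
  · intro h
    rw [map_zero]
    exact (map_zero (DirectSum.of (fun d => gr k d) d)).symm
  · intro a b ha hb iha ihb h
    rw [map_add, iha ha, ihb hb, ← map_add]
    congr 1
    apply Subtype.ext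
    apply QuadraticAlgebra.ext
    · rfl
    · exact add_zero _
  · intro m hm c h
    rw [decRe_single]
    refine of_congr ?_ _ _ _
    have h1 : dg (gm m) = d := hm
    rw [dg_gm] at h1
    exact_mod_cast h1

lemma decIm_of {d : ℕ} (a : SP k) (ha : th k a ∈ supp k {u | dg u + 1 = d}) :
    decIm k a = DirectSum.of (fun d => gr k d) d ⟨⟨0, a⟩, im_gr ha⟩ := by
  refine th_induction (C := {u | dg u + 1 = d})
    (P := fun a => ∀ h : th k a ∈ supp k {u | dg u + 1 = d},
      decIm k a = DirectSum.of (fun d => gr k d) d ⟨⟨0, a⟩, im_gr h⟩) ?_ ?_ ?_ a ha ha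
  · intro h
    rw [map_zero]
    exact (map_zero (DirectSum.of (fun d => gr k d) d)).symm
  · intro a b ha hb iha ihb h
    rw [map_add, iha ha, ihb hb, ← map_add]
    congr 1
    apply Subtype.ext
    apply QuadraticAlgebra.ext
    · exact add_zero _
    · rfl
  · intro m hm c h
    rw [decIm_single]
    refine of_congr ?_ _ _ _
    have h1 : dg (gm m) + 1 = d := hm
    rw [dg_gm] at h1
    exact_mod_cast h1

/-- the decomposition -/
noncomputable def dec (k : Type) [Field k] : SS k →+ ⨁ d, gr k d where
  toFun w := decRe k w.re + decIm k w.im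
  map_zero' := by
    show decRe k 0 + decIm k 0 = 0
    rw [map_zero, map_zero, add_zero]
  map_add' v w := by
    show decRe k (v.re + w.re) + decIm k (v.im + w.im) = _
    rw [map_add, map_add]
    abel

instance instGradedMonoidSS : SetLike.GradedMonoid (gr k) where
  one_mem := by
    show pi k 1 ∈ Ld k ((0 : ℕ) : ℤ)
    rw [map_one]
    exact one_mem_Ld
  mul_mem i j v w hv hw := by
    show pi k (v * w) ∈ Ld k ((i + j : ℕ) : ℤ)
    rw [map_mul]
    push_cast
    exact mul_mem_Ld hv hw

lemma coe_decRe (a : SP k) : DirectSum.coeAddMonoidHom (gr k) (decRe k a) = ⟨a, 0⟩ := by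
  refine th_induction (C := Set.univ)
    (P := fun a => DirectSum.coeAddMonoidHom (gr k) (decRe k a) = ⟨a, 0⟩) ?_ ?_ ?_ a
    (fun u _ => Set.mem_univ u)
  · rw [map_zero, map_zero]; rfl
  · intro a b _ _ ha hb
    rw [map_add, map_add, ha, hb]
    apply QuadraticAlgebra.ext
    · rfl
    · exact add_zero _
  · intro m _ c
    rw [decRe_single]
    exact DirectSum.coeAddMonoidHom_of _ _ _

lemma coe_decIm (a : SP k) : DirectSum.coeAddMonoidHom (gr k) (decIm k a) = ⟨0, a⟩ := by
  refine th_induction (C := Set.univ)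
    (P := fun a => DirectSum.coeAddMonoidHom (gr k) (decIm k a) = ⟨0, a⟩) ?_ ?_ ?_ a
    (fun u _ => Set.mem_univ u)
  · rw [map_zero, map_zero]; rfl
  · intro a b _ _ ha hb
    rw [map_add, map_add, ha, hb]
    apply QuadraticAlgebra.ext
    · exact add_zero _
    · rfl
  · intro m _ c
    rw [decIm_single]
    exact DirectSum.coeAddMonoidHom_of _ _ _

noncomputable instance instDecSS : DirectSum.Decomposition (gr k) where
  decompose' := dec k
  left_inv w := by
    show DirectSum.coeAddMonoidHom (gr k) (decRe k w.re + decIm k w.im) = w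
    rw [map_add, coe_decRe, coe_decIm]
    apply QuadraticAlgebra.ext
    · exact add_zero _
    · exact zero_add _
  right_inv x := by
    induction x using DirectSum.induction_on with
    | zero =>
      rw [map_zero]
      exact map_zero (dec k)
    | of d x =>
      rw [DirectSum.coeAddMonoidHom_of]
      obtain ⟨⟨a, b⟩, hab⟩ := x
      show decRe k a + decIm k b = _
      rw [decRe_of a hab.1, decIm_of b hab.2, ← map_add]
      congr 1
      apply Subtype.ext
      apply QuadraticAlgebra.ext
      · exact add_zero _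
      · exact zero_add _
    | add x y hx hy =>
      rw [map_add]
      refine Eq.trans (map_add (dec k) _ _) ?_
      exact congrArg₂ (· + ·) hx hy

noncomputable instance instGASS : GradedAlgebra (gr k) where

end Pool.Agent.H924.Daff
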