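import Pool.Agent.H924.Daff.QT

/-!
Sections of `End_{O^q}(O)` are given by operators on Laurent polynomials.
-/

set_option autoImplicit false

namespace Pool.Agent.H924.Daff

open AddMonoidAlgebra AlgebraicGeometry HomogeneousLocalization CategoryTheory TopologicalSpace
open Pool.Agent.H835R3 (res res_res res_self gam gam_res gam_injective genericPoint_mem eq_of_gam
  IsSemi)
open Pool.Agent.H835R3.Stmt Stmt

variable {k : Type} [Field k]

lemma PowEnd.at_add {X : Scheme.{0}} {q : ℕ} {U : X.Opens} (ψ : PowEnd q U) (V : X.Opens)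
    (h : V ≤ U) (s t : Sec V) :
    PowEnd.at ψ V h (s + t) = PowEnd.at ψ V h s + PowEnd.at ψ V h t :=
  map_add (show AddMonoid.End (Sec V) from ψ.fam ⟨V, h⟩) s t

lemma PowEnd.at_pow_mul {X : Scheme.{0}} {q : ℕ} {U : X.Opens} (ψ : PowEnd q U) (V : X.Opens)
    (h : V ≤ U) (s t : Sec V) :
    PowEnd.at ψ V h (s ^ q * t) = s ^ q * PowEnd.at ψ V h t :=
  ψ.prop.2 ⟨V, h⟩ s t

lemma PowEnd.at_rho {X : Scheme.{0}} {q : ℕ} {U : X.Opens} (ψ : PowEnd q U) {V W : X.Opens}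
    (h : V ≤ U) (h' : W ≤ V) (s : Sec V) :
    rho h' (PowEnd.at ψ V h s) = PowEnd.at ψ W (h'.trans h) (rho h' s) :=
  ψ.prop.1 ⟨V, h⟩ ⟨W, h'.trans h⟩ h' s

lemma regm_add_et (m : NN) : regm (m + et) = Set.univ := by
  apply Set.eq_univ_of_forall
  intro u i hi
  have h1 := gm_et_apply i
  rw [gm_apply] at h1
  have h2 : (m + et) i = m i + et i := rfl
  rw [h2] at hi
  have h3 : et i = 0 := by omega
  rw [h3] at h1
  exact absurd h1 (by norm_num)

lemma mem_Cm_et (m : NN) (w : L0 k) : (w : LL k) ∈ Cm k (m + et) := by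
  rw [mem_Cm]
  refine ⟨w.2, ?_, ?_⟩ <;>
  · rw [regm_add_et]
    intro u _
    trivial

variable [CharP k 2]

lemma exists_op {q : ℕ} (hq : 0 < q) (m : NN) (hm : 0 < dn m) {V : (XX k).Opens}
    (hV : V = UU k m) (ψ : PowEnd q V) :
    ∃ φ : L0 k →+ L0 k, Rep ψ φ ∧
      ∀ w : L0 k, (w : LL k) ∈ Cm k m → (φ w : LL k) ∈ Cm k m := by
  subst hV
  have hm' : 0 < dn (m + et) := by rw [dn_add]; omega
  let W : (XX k).Opens := UU k (m + et)
  have hW : W ≤ UU k m := UU_mono rfl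
  have hη : genericPoint (XX k) ∈ W := generic_mem k _
  have h1 : ∀ w : L0 k, ∃ w' : L0 k, ∀ f : Γ(XX k, W), gam W hη f = iota k w →
      iota k w' = gam W hη (PowEnd.at ψ W hW f) := by
    intro w
    obtain ⟨f₀, hf₀⟩ := exists_chart (m + et) w (mem_Cm_et m w)
    obtain ⟨w', -, hw'⟩ := gam_chart (m + et) hm' (PowEnd.at ψ W hW f₀)
    refine ⟨w', fun f hf => ?_⟩
    have h2 : f = f₀ := gam_injective W hη (hf.trans hf₀.symm)
    rw [h2]
    exact hw'.symm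
  choose φ0 h0 using h1
  have hex : ∀ w : L0 k, ∃ f : Γ(XX k, W), gam W hη f = iota k w := fun w =>
    exists_chart (m + et) w (mem_Cm_et m w)
  let φ : L0 k →+ L0 k := AddMonoidHom.mk' φ0 (by
    intro v w
    obtain ⟨f, hf⟩ := hex v
    obtain ⟨g, hg⟩ := hex w
    apply iota_injective
    rw [map_add, h0 v f hf, h0 w g hg, h0 (v + w) (f + g) (by rw [map_add, map_add, hf, hg]),
      ← map_add]
    exact congrArg (gam W hη) (PowEnd.at_add ψ W hW f g))
  have hφ : IsSemi q q φ := by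
    intro v w
    obtain ⟨f, hf⟩ := hex v
    obtain ⟨g, hg⟩ := hex w
    apply iota_injective
    show iota k (φ0 _) = iota k (_ * φ0 _)
    rw [map_mul, map_pow, h0 w g hg, h0 (v ^ q * w) (f ^ q * g)
      (by rw [map_mul, map_pow, map_mul, map_pow, hf, hg]), ← hf, ← map_pow, ← map_mul]
    exact congrArg (gam W hη) (PowEnd.at_pow_mul ψ W hW f g)
  obtain ⟨Φ, hΦ, hΦφ⟩ := exists_extL hq φ hφ
  have hΦW : ∀ f : Γ(XX k, W), gam W hη (PowEnd.at ψ W hW f) = Φ (gam W hη f) := by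
    intro f
    obtain ⟨w, -, hw⟩ := gam_chart (m + et) hm' f
    rw [hw, hΦφ]
    exact (h0 w f hw).symm
  have hrep : ∀ (V' : (XX k).Opens) (h : V' ≤ UU k m) (hη' : genericPoint (XX k) ∈ V')
      (s : Γ(XX k, V')), gam V' hη' (PowEnd.at ψ V' h s) = Φ (gam V' hη' s) := by
    intro V' h hη' s
    have hW' : genericPoint (XX k) ∈ V' ⊓ W := ⟨hη', hη⟩
    have : Nonempty W := ⟨⟨_, hη⟩⟩
    have : IsFractionRing Γ(XX k, W) (XX k).functionField :=
      functionField_isFractionRing_of_isAffineOpen (XX k) W (isAffineOpen_UU _ hm')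
    obtain ⟨⟨c, b⟩, hz⟩ := IsLocalization.surj (nonZeroDivisors Γ(XX k, W)) (gam V' hη' s)
    have hz' : gam V' hη' s * gam W hη b = gam W hη c := hz
    have hs : gam W hη b ≠ 0 := by
      intro h0
      have h1 : (b : Γ(XX k, W)) = 0 := gam_injective W hη (by rw [h0, map_zero])
      exact nonZeroDivisors.ne_zero b.2 h1
    have e1 : gam W hη ((b : Γ(XX k, W)) ^ (q - 1) * c) = gam W hη b ^ q * gam V' hη' s := by
      rw [map_mul, map_pow, ← hz']
      obtain ⟨r, rfl⟩ : ∃ r, q = r + 1 := ⟨q - 1, by omega⟩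
      simp only [Nat.add_sub_cancel, pow_succ]
      ring
    have e2 : (res (inf_le_right : V' ⊓ W ≤ W) ((b : Γ(XX k, W)) ^ (q - 1) * c) :
        Γ(XX k, V' ⊓ W)) =
        (res (inf_le_right : V' ⊓ W ≤ W) (b : Γ(XX k, W))) ^ q *
          res (inf_le_left : V' ⊓ W ≤ V') s := by
      apply gam_injective _ hW'
      rw [map_mul, map_pow, gam_res, gam_res, gam_res, e1]
    have e3 : gam W hη (PowEnd.at ψ W hW ((b : Γ(XX k, W)) ^ (q - 1) * c)) =
        gam W hη b ^ q * gam V' hη' (PowEnd.at ψ V' h s) := by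
      have a1 := PowEnd.at_rho ψ hW (inf_le_right : V' ⊓ W ≤ W) ((b : Γ(XX k, W)) ^ (q - 1) * c)
      have a2 := PowEnd.at_rho ψ h (inf_le_left : V' ⊓ W ≤ V') s
      have a3 : PowEnd.at ψ (V' ⊓ W) (inf_le_right.trans hW)
          (rho (inf_le_right : V' ⊓ W ≤ W) ((b : Γ(XX k, W)) ^ (q - 1) * c)) =
          (rho (inf_le_right : V' ⊓ W ≤ W) (b : Γ(XX k, W)) : Sec (V' ⊓ W)) ^ q *
          PowEnd.at ψ (V' ⊓ W) (inf_le_right.trans hW) (rho (inf_le_left : V' ⊓ W ≤ V') s) := by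
        rw [← PowEnd.at_pow_mul]
        exact congrArg (PowEnd.at ψ (V' ⊓ W) (inf_le_right.trans hW)) e2
      have a4 : gam (V' ⊓ W) hW' (rho (inf_le_right : V' ⊓ W ≤ W)
          (PowEnd.at ψ W hW ((b : Γ(XX k, W)) ^ (q - 1) * c))) =
          gam (V' ⊓ W) hW' (rho (inf_le_right : V' ⊓ W ≤ W) (b : Γ(XX k, W)) : Sec (V' ⊓ W)) ^ q *
          gam (V' ⊓ W) hW' (rho (inf_le_left : V' ⊓ W ≤ V') (PowEnd.at ψ V' h s)) := by
        rw [a1, a3, ← a2, ← map_pow, ← map_mul]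
        rfl
      have a5 : ∀ (f : Γ(XX k, W)), gam (V' ⊓ W) hW' (rho (inf_le_right : V' ⊓ W ≤ W) f) =
          gam W hη f := fun f => gam_res _ _ f
      have a6 : ∀ (f : Γ(XX k, V')), gam (V' ⊓ W) hW' (rho (inf_le_left : V' ⊓ W ≤ V') f) =
          gam V' hη' f := fun f => gam_res _ _ f
      exact (a5 _).symm.trans (a4.trans (congrArg₂ (fun x y => x ^ q * y) (a5 _) (a6 _)))
    rw [hΦW, e1, hΦ] at e3
    exact (mul_left_cancel₀ (pow_ne_zero q hs) e3).symm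
  refine ⟨φ, ⟨Φ, hΦ, hΦφ, hrep⟩, fun w hw => ?_⟩
  obtain ⟨f, hf⟩ := exists_chart m w hw
  obtain ⟨w'', h2, h3⟩ := gam_chart m hm (PowEnd.at ψ (UU k m) le_rfl f)
  have h4 : φ w = w'' := by
    apply iota_injective
    rw [← h3, hrep _ _ _ f, hf, hΦφ]
  rw [h4]
  exact h2

/-- uniqueness of the operator -/
lemma Rep.unique {q : ℕ} {U : (XX k).Opens} {ψ : PowEnd q U} {φ φ' : L0 k →+ L0 k}
    (m : NN) (hm : 0 < dn m) (hU : UU k m ≤ U) (h : Rep ψ φ) (h' : Rep ψ φ') : φ = φ' := by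
  obtain ⟨Φ, h1, h2, h3⟩ := h
  obtain ⟨Φ', h1', h2', h3'⟩ := h'
  have hm' : 0 < dn (m + et) := by rw [dn_add]; omega
  apply AddMonoidHom.ext
  intro w
  obtain ⟨f, hf⟩ := exists_chart (m + et) w (mem_Cm_et m w)
  have hW : UU k (m + et) ≤ U := (UU_mono rfl).trans hU
  have e1 := h3 _ hW (generic_mem k _) f
  have e2 := h3' _ hW (generic_mem k _) f
  apply iota_injective
  rw [← h2, ← h2', ← hf]
  exact e1.symm.trans e2

end Pool.Agent.H924.Daff
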