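import Pool.Agent.H924.Daff.QGop
import Pool.Agent.H924.Daff.QRep
import Pool.Agent.H924.Daff.QDpart

/-!
The first cohomology of `D^(e)` on the quadric threefold does not vanish for `e ≥ 2`.
-/

set_option autoImplicit false

namespace Pool.Agent.H924.Daff

open AddMonoidAlgebra AlgebraicGeometry HomogeneousLocalization CategoryTheory TopologicalSpace
open Pool.Agent.H835R3 (res res_res res_self gam gam_res gam_injective genericPoint_mem eq_of_gam
  IsSemi)
open Pool.Agent.H835R3.Stmt Stmt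

variable {k : Type} [Field k]

/-- the element `z / x₀` -/
noncomputable def vz (k : Type) [Field k] : L0 k :=
  ⟨⟨0, single (-ei 0) 1⟩, zero_mem _, single_mem_supp (show dg (-ei 0) + 1 = 0 by decide) 1⟩

lemma coeff_single_mul (l : AL k) (w u : GG) :
    (single w (1 : k) * l).coeff u = l.coeff (u - w) := by
  rw [mul_comm, coeff_mul_singleG]

lemma gop_single_mul_pow (n : ℕ) [CharP k 2] (a : Fin 4) (u : GG) (l : AL k) :
    gop k (2 ^ n) a (single ((2 ^ (n + 2) : ℕ) • u) 1 * l) =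
      single ((2 ^ (n + 2) : ℕ) • u) 1 * gop k (2 ^ n) a l := by
  have h := gop_isSemi (k := k) n a (single u 1) l
  rwa [single_one_pow] at h

variable [CharP k 2]

lemma vz_pow (n : ℕ) : ((vz k ^ 2 ^ (n + 2) : L0 k) : LL k) =
    inA (PL k (2 ^ n) * single ((2 ^ (n + 2) : ℕ) • (-ei 0)) 1) := by
  show (⟨0, single (-ei 0) 1⟩ : LL k) ^ 2 ^ (n + 2) = _
  rw [LL.pow_eq, single_one_pow]
  congr 1
  show (0 : AL k) ^ 2 ^ (n + 2) + _ = _
  rw [zero_pow (pow_pos two_pos _).ne', zero_add]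

/-- the target exponent -/
def ustar (r : ℕ) : GG := fun i => ![-5, 1, 3, 1] i * (r : ℤ)

lemma dg_f12 (r : ℕ) : dg ((2 * r : ℕ) • (rr 0 1 + rr 0 2)) = 0 := by
  rw [dg_nsmul, dg_add, dg_rr, dg_rr]
  simp

/-- the contradiction -/
lemma contradiction (n : ℕ) (φ₀ φ₁ : L0 k →+ L0 k)
    (hs : IsSemi (2 ^ (n + 2)) (2 ^ (n + 2)) φ₀)
    (h0 : ∀ w : L0 k, (w : LL k) ∈ Cm k (ea 0) → (φ₀ w : LL k) ∈ Cm k (ea 0))
    (h1 : ∀ w : L0 k, (w : LL k) ∈ Cm k (ea 1) → (φ₁ w : LL k) ∈ Cm k (ea 1))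
    (h : ∀ w, φ₀ w + Gop k (2 ^ n) 0 w = φ₁ w + Gop k (2 ^ n) 1 w) : False := by
  set r : ℕ := 2 ^ n with hr
  have hr0 : 0 < r := pow_pos two_pos n
  have hrz : (0 : ℤ) < r := by exact_mod_cast hr0
  set q : ℕ := 2 ^ (n + 2) with hq
  have hqr : q = 4 * r := by rw [hq, hr]; ring
  let E : L0 k →+ L0 k := φ₀ + Gop k r 0
  have hE : ∀ w, E w = φ₀ w + Gop k r 0 w := fun w => rfl
  have hE0 : ∀ w : L0 k, (w : LL k) ∈ Cm k (ea 0) → (E w : LL k) ∈ Cm k (ea 0) := by
    intro w hw
    exact add_mem (h0 w hw) (Gop_pres r hr0 _ 0 (by rw [ea_apply]; simp) w hw)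
  have hE1 : ∀ w : L0 k, (w : LL k) ∈ Cm k (ea 1) → (E w : LL k) ∈ Cm k (ea 1) := by
    intro w hw
    have : E w = φ₁ w + Gop k r 1 w := h w
    rw [this]
    exact add_mem (h1 w hw) (Gop_pres r hr0 _ 1 (by rw [ea_apply]; simp) w hw)
  -- linearity over powers of monomials
  have hElin : ∀ (u : GG) (hu : dg u = 0) (w : L0 k),
      E (m0 k u hu ^ q * w) = m0 k u hu ^ q * E w := by
    intro u hu w
    rw [hE, hE, hs, mul_add]
    congr 1
    apply Subtype.ext
    have e1 : ∀ x : L0 k, ((m0 k u hu ^ q * x : L0 k) : LL k) =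
        inA (single (q • u) 1) * (x : LL k) := by
      intro x
      show (mL k u) ^ q * (x : LL k) = _
      rw [mL_pow]
      rfl
    rw [e1]
    have e2 : ∀ x : L0 k, ((Gop k r 0 x : L0 k) : LL k) = ⟨gop k r 0 (x : LL k).re, 0⟩ := by
      intro x
      apply QuadraticAlgebra.ext
      · show _ + 0 = _
        rw [add_zero]
      · show (0 : AL k) + 0 = 0
        rw [add_zero]
    rw [e2, e2, e1, inA_mul, inA_mul, mul_zero]
    apply QuadraticAlgebra.ext
    · exact gop_single_mul_pow n 0 u _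
    · rfl
  -- the elements
  let y : L0 k := m0 k ((2 * r : ℕ) • rr 0 2) (dg_nrr _ _ _)
  let f12 : L0 k := m0 k ((2 * r : ℕ) • (rr 0 1 + rr 0 2)) (dg_f12 r)
  let f03 : L0 k := m0 k ((2 * r : ℕ) • rr 0 3) (dg_nrr _ _ _)
  have hy : vz k ^ q * y = f12 + m0 k (rr 0 2) (dg_rr _ _) ^ q * f03 := by
    apply Subtype.ext
    show ((vz k ^ q : L0 k) : LL k) * mL k ((2 * r : ℕ) • rr 0 2) =
      mL k ((2 * r : ℕ) • (rr 0 1 + rr 0 2)) + mL k (rr 0 2) ^ q * mL k ((2 * r : ℕ) • rr 0 3)
    rw [vz_pow, mL_pow, ← mL_add]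
    unfold mL PL
    rw [← map_mul, ← map_add]
    congr 1
    rw [add_mul, add_mul, single_mul_single, single_mul_single, single_mul_single,
      single_mul_single, one_mul, one_mul]
    have i1 : (2 * 2 ^ n : ℕ) • e01 + (2 ^ (n + 2) : ℕ) • (-ei 0) + (2 * r : ℕ) • rr 0 2 =
        (2 * r : ℕ) • (rr 0 1 + rr 0 2) := by
      rw [← hr, ← hq, hqr]
      funext i
      simp only [Pi.add_apply, nsmul_ap, Pi.neg_apply, e01, rr, Pi.sub_apply]
      push_cast
      ring
    have i2 : (2 * 2 ^ n : ℕ) • e23 + (2 ^ (n + 2) : ℕ) • (-ei 0) + (2 * r : ℕ) • rr 0 2 =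
        q • rr 0 2 + (2 * r : ℕ) • rr 0 3 := by
      rw [← hr, ← hq, hqr]
      funext i
      simp only [Pi.add_apply, nsmul_ap, Pi.neg_apply, e23, rr, Pi.sub_apply]
      push_cast
      ring
    rw [i1, i2]
  have hkey : E (vz k ^ q * y) = E f12 + m0 k (rr 0 2) (dg_rr _ _) ^ q * E f03 := by
    rw [hy, map_add, hElin]
  have hkey2 : E (vz k ^ q * y) = vz k ^ q * φ₀ y + Gop k r 0 (vz k ^ q * y) := by
    rw [hE, hs]
  -- values of the operator `G`
  have g1 : ∀ x : L0 k, ((Gop k r 0 x : L0 k) : LL k).re = gop k r 0 (x : LL k).re := by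
    intro x
    show _ + 0 = _
    rw [add_zero]
  have hsh1 : sh1 r 0 = 0 := if_pos (Or.inl rfl)
  have hsh2 : sh2 r 0 = r • dd := if_pos (Or.inl rfl)
  have hQeval : ∀ w : GG, QG r 1 ((2 * r : ℕ) • w) ↔
      ((w 0 + w 1) % 2 = 1 ∧ (w 2 + w 3) % 2 = 1) ∧ w 1 % 2 = 1 := by
    intro w
    unfold QG QK
    have a1 : ∀ i, ((2 * r : ℕ) • w) i = 2 * r * w i := by
      intro i
      rw [nsmul_ap]; push_cast; ring
    have a2 : ∀ i, (2 * (r : ℤ) * w i) / (2 * r) = w i := fun i =>
      Int.mul_ediv_cancel_left _ (by positivity)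
    simp only [a1, a2]
    constructor
    · rintro ⟨⟨-, b, c⟩, d⟩
      exact ⟨⟨b, c⟩, d⟩
    · rintro ⟨⟨b, c⟩, d⟩
      exact ⟨⟨fun i => Dvd.intro _ rfl, b, c⟩, d⟩
  have hGy : Gop k r 0 y = 0 := by
    apply Subtype.ext
    apply QuadraticAlgebra.ext
    · rw [g1]
      show gop k r 0 (single ((2 * r : ℕ) • rr 0 2) 1) = 0
      rw [gop_single, if_neg]
      show ¬ QG r 1 _
      rw [hQeval]
      decide
    · show (0 : AL k) + 0 = 0
      rw [add_zero]
  have hre1 : ((vz k ^ q * y : L0 k) : LL k).re = single ((2 * r : ℕ) • (rr 0 1 + rr 0 2)) 1 +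
      single ((2 * r : ℕ) • ((2 : ℕ) • rr 0 2 + rr 0 3)) 1 := by
    rw [hy]
    show (mL k ((2 * r : ℕ) • (rr 0 1 + rr 0 2))).re +
      ((mL k (rr 0 2)) ^ q * mL k ((2 * r : ℕ) • rr 0 3)).re = _
    rw [mL_pow, ← mL_add]
    show single _ 1 + single _ 1 = _
    congr 2
    rw [hqr, smul_add, smul_smul]
    congr 2
    ring
  have hGvy : ((Gop k r 0 (vz k ^ q * y) : L0 k) : LL k).re =
      single ((2 * r : ℕ) • (rr 0 1 + rr 0 2)) 1 + single (ustar r) 1 := by
    rw [g1, hre1, map_add, gop_single, gop_single, if_pos, if_neg, hsh1, hsh2, add_zero, add_zero]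
    · congr 2
      funext i
      unfold ustar
      rw [Pi.add_apply, nsmul_ap, nsmul_ap]
      have c1 : (rr 0 1 + rr 0 2) i = ![-2, 1, 1, 0] i := by
        fin_cases i <;> decide
      have c2 : dd i = ![-1, -1, 1, 1] i := by
        fin_cases i <;> decide
      have c3 : (![-5, 1, 3, 1] i : ℤ) = 2 * ![-2, 1, 1, 0] i + ![-1, -1, 1, 1] i := by
        fin_cases i <;> decide
      rw [c1, c2, c3]
      push_cast
      ring
    · show ¬ QG r 1 _
      rw [hQeval]
      decide
    · show QG r 1 _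
      rw [hQeval]
      decide
  -- the relation between real parts
  have hEy : φ₀ y = E y := by rw [hE, hGy, add_zero]
  have hrel : (PL k r * single (q • (-ei 0)) 1) * (E y : LL k).re +
      (single ((2 * r : ℕ) • (rr 0 1 + rr 0 2)) 1 + single (ustar r) 1) =
      (E f12 : LL k).re + single (q • rr 0 2) 1 * (E f03 : LL k).re := by
    have e1 := congrArg (fun x : L0 k => (x : LL k).re) (hkey2.symm.trans hkey)
    have e2 : ((vz k ^ q * φ₀ y + Gop k r 0 (vz k ^ q * y) : L0 k) : LL k).re =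
        (PL k r * single (q • (-ei 0)) 1) * (E y : LL k).re +
        ((Gop k r 0 (vz k ^ q * y) : L0 k) : LL k).re := by
      rw [hEy]
      show (((vz k ^ q : L0 k) : LL k) * (E y : LL k)).re + _ = _
      rw [vz_pow, inA_mul]
    have e3 : ((E f12 + m0 k (rr 0 2) (dg_rr _ _) ^ q * E f03 : L0 k) : LL k).re =
        (E f12 : LL k).re + single (q • rr 0 2) 1 * (E f03 : LL k).re := by
      show _ + ((mL k (rr 0 2)) ^ q * (E f03 : LL k)).re = _
      rw [mL_pow]
      unfold mL
      rw [inA_mul]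
    rw [← hGvy, ← e2, ← e3]
    exact e1
  -- coefficients
  have hc := congrArg (fun l : AL k => l.coeff (ustar r)) hrel
  simp only [coeff_add, Finsupp.add_apply] at hc
  have hregE0 : ∀ (w : L0 k), (w : LL k) ∈ Cm k (ea 0) → ∀ (u : GG) (i : Fin 4), i ≠ 0 →
      u i < 0 → (E w : LL k).re.coeff u = 0 := by
    intro w hw u i hi hui
    by_contra hne
    have h2 := (hE0 w hw).2.1 u hne i (by
      rw [ea_apply, if_neg (fun h => hi h.symm)])
    omega
  have hmem : ∀ (u : GG) (hu : dg u = 0) (a : Fin 4), (∀ i, i ≠ a → 0 ≤ u i) →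
      (m0 k u hu : LL k) ∈ Cm k (ea a) := by
    intro u hu a hpos
    refine ⟨(m0 k u hu).2, single_mem_supp ?_ 1, zero_mem (supp k _)⟩
    intro i hi
    have := ne_of_ea hi
    exact hpos i (fun h => this h.symm)
  have hyC : (y : LL k) ∈ Cm k (ea 0) := by
    apply hmem
    intro i hi
    rw [nsmul_ap]
    have : 0 ≤ rr 0 2 i := by
      fin_cases i
      · exact absurd rfl hi
      · decide
      · decide
      · decide
    positivity
  have hf03C : (f03 : LL k) ∈ Cm k (ea 0) := by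
    apply hmem
    intro i hi
    rw [nsmul_ap]
    have : 0 ≤ rr 0 3 i := by
      fin_cases i
      · exact absurd rfl hi
      · decide
      · decide
      · decide
    positivity
  have us0 : ustar r 0 = -5 * r := rfl
  have us1 : ustar r 1 = 1 * r := rfl
  have us2 : ustar r 2 = 3 * r := rfl
  have us3 : ustar r 3 = 1 * r := rfl
  -- the first term
  have t1 : ((PL k r * single (q • (-ei 0)) 1) * (E y : LL k).re).coeff (ustar r) = 0 := by
    unfold PL
    rw [add_mul, add_mul, single_mul_single, single_mul_single, one_mul, coeff_add,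
      Finsupp.add_apply, coeff_single_mul, coeff_single_mul,
      hregE0 y hyC _ 1 (by decide), hregE0 y hyC _ 3 (by decide), add_zero]
    · rw [Pi.sub_apply, Pi.add_apply, nsmul_ap, nsmul_ap, us3, e23_3, Pi.neg_apply,
        show ei 0 3 = 0 by decide]
      push_cast
      linarith
    · rw [Pi.sub_apply, Pi.add_apply, nsmul_ap, nsmul_ap, us1, e01_1, Pi.neg_apply,
        show ei 0 1 = 0 by decide]
      push_cast
      linarith
  have t2 : (single ((2 * r : ℕ) • (rr 0 1 + rr 0 2)) (1 : k) : AL k).coeff (ustar r) = 0 := by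
    rw [coeff_single, Finsupp.single_apply, if_neg]
    intro heq
    have := congrFun heq 3
    rw [nsmul_ap, us3, show (rr 0 1 + rr 0 2) 3 = 0 by decide] at this
    linarith
  have t3 : (single (ustar r) (1 : k) : AL k).coeff (ustar r) = 1 := by
    rw [coeff_single, Finsupp.single_eq_same]
  have t4 : (single (q • rr 0 2) 1 * (E f03 : LL k).re).coeff (ustar r) = 0 := by
    rw [coeff_single_mul, hregE0 f03 hf03C _ 2 (by decide)]
    rw [Pi.sub_apply, nsmul_ap, us2, show rr 0 2 2 = 1 by decide, hqr]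
    push_cast
    linarith
  have t5 : (E f12 : LL k).re.coeff (ustar r) = 0 := by
    let y2 : L0 k := m0 k ((2 * r : ℕ) • rr 1 2) (dg_nrr _ _ _)
    have hy2 : f12 = m0 k (rr 0 1) (dg_rr _ _) ^ q * y2 := by
      apply Subtype.ext
      show mL k _ = mL k (rr 0 1) ^ q * mL k _
      rw [mL_pow, ← mL_add]
      congr 1
      rw [hqr]
      funext i
      simp only [Pi.add_apply, nsmul_ap, rr, Pi.sub_apply]
      push_cast
      ring
    have hy2C : (y2 : LL k) ∈ Cm k (ea 1) := by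
      apply hmem
      intro i hi
      rw [nsmul_ap]
      have : 0 ≤ rr 1 2 i := by
        fin_cases i
        · decide
        · exact absurd rfl hi
        · decide
        · decide
      positivity
    rw [hy2, hElin]
    have e3 : ((m0 k (rr 0 1) (dg_rr _ _) ^ q * E y2 : L0 k) : LL k).re =
        single (q • rr 0 1) 1 * (E y2 : LL k).re := by
      show ((mL k (rr 0 1)) ^ q * (E y2 : LL k)).re = _
      rw [mL_pow]
      unfold mL
      rw [inA_mul]
    rw [e3, coeff_single_mul]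
    by_contra hne
    have h2 := (hE1 y2 hy2C).2.1 _ hne 0 (by rw [ea_apply, if_neg (by decide)])
    rw [Pi.sub_apply, nsmul_ap, us0, show rr 0 1 0 = -1 by decide, hqr] at h2
    push_cast at h2
    linarith
  rw [t1, t2, t3, t4, t5] at hc
  simp at hc

end Pool.Agent.H924.Daff
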