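import Pool.Agent.H924.Daff.QNon

/-!
The first cohomology of `D^(e)` on the quadric threefold does not vanish for `e ≥ 2`: the cocycle.
-/

set_option autoImplicit false

namespace Pool.Agent.H924.Daff

open AddMonoidAlgebra AlgebraicGeometry HomogeneousLocalization CategoryTheory TopologicalSpace
open Pool.Agent.H835R3 (res res_res res_self gam gam_res gam_injective genericPoint_mem eq_of_gam
  IsSemi)
open Pool.Agent.H835R3.Stmt Stmt

variable {k : Type} [Field k] [CharP k 2]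

lemma Rep.neg {q : ℕ} {U : (XX k).Opens} {ψ : PowEnd q U} {φ : L0 k →+ L0 k}
    (h : Rep ψ φ) : Rep (-ψ) (-φ) := by
  obtain ⟨Φ, h1, h2, h3⟩ := h
  refine ⟨-Φ, ?_, ?_, ?_⟩
  · intro a b
    rw [AddMonoidHom.neg_apply, h1 a b, AddMonoidHom.neg_apply, mul_neg]
  · intro l
    rw [AddMonoidHom.neg_apply, h2, AddMonoidHom.neg_apply, map_neg]
  · intro V hV hη s
    rw [AddMonoidHom.neg_apply, ← h3 V hV hη s]
    exact map_neg (gam V hη) _

/-- a section of the sheaf `D^(e)` as a section of endomorphisms -/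
noncomputable def asPow {X : Scheme.{0}} {e : ℕ} {V : X.Opens}
    (x : (toLSh (diffOp X 2 e)).obj V) : PowEnd (2 ^ e) V := x

/-- a section of endomorphisms as a section of the sheaf `D^(e)` -/
noncomputable def ofPow {X : Scheme.{0}} {e : ℕ} {V : X.Opens}
    (x : PowEnd (2 ^ e) V) : (toLSh (diffOp X 2 e)).obj V := x

lemma asPow_ofPow {X : Scheme.{0}} {e : ℕ} {V : X.Opens}
    (x : PowEnd (2 ^ e) V) : asPow (ofPow x) = x := rfl

lemma asPow_injective {X : Scheme.{0}} {e : ℕ} {V : X.Opens}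
    (x y : (toLSh (diffOp X 2 e)).obj V) (h : asPow x = asPow y) : x = y := h

lemma asPow_res {X : Scheme.{0}} {e : ℕ} {V W : X.Opens} (h : W ≤ V)
    (x : (toLSh (diffOp X 2 e)).obj V) :
    asPow ((toLSh (diffOp X 2 e)).res h x) = powRes (2 ^ e) h (asPow x) := rfl

lemma asPow_add {X : Scheme.{0}} {e : ℕ} {V : X.Opens}
    (x y : (toLSh (diffOp X 2 e)).obj V) : asPow (x + y) = asPow x + asPow y := rfl

lemma asPow_neg {X : Scheme.{0}} {e : ℕ} {V : X.Opens}
    (x : (toLSh (diffOp X 2 e)).obj V) : asPow (-x) = -asPow x := rfl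

lemma asPow_zero {X : Scheme.{0}} {e : ℕ} {V : X.Opens} :
    asPow (0 : (toLSh (diffOp X 2 e)).obj V) = 0 := rfl

/-- the charts -/
noncomputable abbrev UC (k : Type) [Field k] (a : Fin 4) : (XX k).Opens := UU k (ea a)

/-- values of coboundaries -/
lemma d_one {X : Scheme.{0}} {e : ℕ} {U : Fin 4 → X.Opens} {Y : X.Opens}
    (g : Coch U (toLSh (diffOp X 2 e)) 1 Y) (s : Fin 2 → Fin 4) :
    asPow (g.d s) = asPow (g.val (s ∘ (0 : Fin 2).succAbove) (inf_inter_le U Y s _)) -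
      asPow (g.val (s ∘ (1 : Fin 2).succAbove) (inf_inter_le U Y s _)) := by
  unfold Coch.d
  rw [Fin.sum_univ_two]
  simp only [Fin.val_zero, Fin.val_one, pow_zero, pow_one, one_smul, neg_smul]
  rw [asPow_add, asPow_neg, sub_eq_add_neg]

lemma d_two {X : Scheme.{0}} {e : ℕ} {U : Fin 4 → X.Opens} {Y : X.Opens}
    (g : Coch U (toLSh (diffOp X 2 e)) 2 Y) (s : Fin 3 → Fin 4) :
    asPow (g.d s) = asPow (g.val (s ∘ (0 : Fin 3).succAbove) (inf_inter_le U Y s _)) -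
      asPow (g.val (s ∘ (1 : Fin 3).succAbove) (inf_inter_le U Y s _)) +
      asPow (g.val (s ∘ (2 : Fin 3).succAbove) (inf_inter_le U Y s _)) := by
  unfold Coch.d
  rw [Fin.sum_univ_three]
  have h2 : ((2 : Fin 3) : ℕ) = 2 := rfl
  simp only [Fin.val_zero, Fin.val_one, h2, pow_zero, pow_one, one_smul, neg_smul, neg_sq,
    one_pow]
  rw [asPow_add, asPow_add, asPow_neg, sub_eq_add_neg]

omit [CharP k 2] in
lemma top_inter_exs {n : ℕ} (s : Fin (n + 1) → Fin 4) :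
    (⊤ ⊓ inter (UC k) s : (XX k).Opens) = UU k (exs s) := by
  rw [top_inf_eq]
  exact inter_exs s

/-- The first cohomology group of `D^(e)` on the quadric threefold is nonzero for `e ≥ 2`. -/
theorem H_one_ne (n : ℕ) : ¬ Subsingleton (Sheaf.H (diffOp (XX k) 2 (n + 2)) 1) := by
  intro hsub
  have hr0 : 0 < 2 ^ n := pow_pos two_pos n
  have hex : ∀ s : Fin 2 → Fin 4, ∃ ψ : PowEnd (2 ^ (n + 2)) (⊤ ⊓ inter (UC k) s),
      Rep ψ (Gop k (2 ^ n) (s 0) - Gop k (2 ^ n) (s 1)) := by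
    intro s
    refine exists_rep (pow_pos two_pos _) (exs s) (dn_exs s) _ (Gop_diff_semi n _ _) ?_ _
      (top_inter_exs s)
    intro w hw
    have e1 : exs s = ea (s 0) + ea (s 1) := rfl
    have e2 : (exs s) (s 0) ≠ 0 := by
      rw [e1, Finsupp.add_apply, ea_apply, ea_apply, if_pos rfl]
      omega
    have e3 : (exs s) (s 1) ≠ 0 := by
      rw [e1, Finsupp.add_apply, ea_apply, ea_apply, if_pos rfl]
      omega
    exact sub_mem (Gop_pres _ hr0 _ _ e2 w hw) (Gop_pres _ hr0 _ _ e3 w hw)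
  choose f0 hf0 using hex
  let f : Coch (UC k) (toLSh (diffOp (XX k) 2 (n + 2))) 2 ⊤ := fun s => ofPow (f0 s)
  have hf : ∀ s, Rep (asPow (f s)) (Gop k (2 ^ n) (s 0) - Gop k (2 ^ n) (s 1)) := hf0
  have hcyc : f.d = 0 := by
    apply Coch.ext
    intro s
    apply asPow_injective
    rw [d_two, Coch.zero_apply, asPow_zero]
    refine Rep.ext (pow_pos two_pos _) ?_ Rep.zero
    have a0 : Rep (asPow (f.val (s ∘ (0 : Fin 3).succAbove) (inf_inter_le (UC k) ⊤ s _)))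
        (Gop k (2 ^ n) (s 1) - Gop k (2 ^ n) (s 2)) := (hf (s ∘ (0 : Fin 3).succAbove)).res _
    have a1 : Rep (asPow (f.val (s ∘ (1 : Fin 3).succAbove) (inf_inter_le (UC k) ⊤ s _)))
        (Gop k (2 ^ n) (s 0) - Gop k (2 ^ n) (s 2)) := (hf (s ∘ (1 : Fin 3).succAbove)).res _
    have a2 : Rep (asPow (f.val (s ∘ (2 : Fin 3).succAbove) (inf_inter_le (UC k) ⊤ s _)))
        (Gop k (2 ^ n) (s 0) - Gop k (2 ^ n) (s 1)) := (hf (s ∘ (2 : Fin 3).succAbove)).res _
    have a3 := (a0.add a1.neg).add a2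
    have a4 : Gop k (2 ^ n) (s 1) - Gop k (2 ^ n) (s 2) +
        -(Gop k (2 ^ n) (s 0) - Gop k (2 ^ n) (s 2)) +
        (Gop k (2 ^ n) (s 0) - Gop k (2 ^ n) (s 1)) = 0 := by abel
    rw [a4] at a3
    rw [sub_eq_add_neg]
    exact a3
  have hcov : iSup (UC k) = ⊤ := by
    apply top_le_iff.1
    intro x _
    obtain ⟨a, ha⟩ := exists_mem_UU (k := k) x
    exact Opens.mem_iSup.2 ⟨a, ha⟩
  obtain ⟨g, hg⟩ := cech_one_of_H (τ := Fin 4) (U := UC k) hcov (diffOp (XX k) 2 (n + 2)) f hcyc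
  -- operators of the cochain
  have hop : ∀ a : Fin 4, ∃ φ : L0 k →+ L0 k, Rep (asPow (g (fun _ => a))) φ ∧
      ∀ w : L0 k, (w : LL k) ∈ Cm k (ea a) → (φ w : LL k) ∈ Cm k (ea a) := fun a =>
    exists_op (pow_pos two_pos _) (ea a) (dn_ea_pos a) (top_inter_exs (fun _ => a))
      (asPow (g (fun _ => a)))
  choose φ hφ1 hφ2 using hop
  have hsemi : ∀ a, IsSemi (2 ^ (n + 2)) (2 ^ (n + 2)) (φ a) := by
    intro a v w
    obtain ⟨Φ, h1, h2, h3⟩ := hφ1 a
    apply iota_injective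
    have h4 : iota k (v ^ 2 ^ (n + 2) * w) = iota k v ^ 2 ^ (n + 2) * iota k w := by
      rw [map_mul, map_pow]
    have h5 : iota k (v ^ 2 ^ (n + 2) * φ a w) = iota k v ^ 2 ^ (n + 2) * iota k (φ a w) := by
      rw [map_mul, map_pow]
    rw [← h2, h4, h5, h1, ← h2]
  have hrel : φ 1 - φ 0 = Gop k (2 ^ n) 0 - Gop k (2 ^ n) 1 := by
    have b1 := d_one g ![0, 1]
    rw [hg] at b1
    have c0 : (![0, 1] : Fin 2 → Fin 4) ∘ (0 : Fin 2).succAbove = fun _ => 1 := by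
      funext i
      fin_cases i
      rfl
    have c1 : (![0, 1] : Fin 2 → Fin 4) ∘ (1 : Fin 2).succAbove = fun _ => 0 := by
      funext i
      fin_cases i
      rfl
    have hle : (⊤ ⊓ inter (UC k) ![0, 1] : (XX k).Opens) ≤ ⊤ ⊓ inter (UC k) (fun _ : Fin 1 => 1) := by
      rw [← c0]
      exact inf_inter_le (UC k) ⊤ _ _
    have hle' : (⊤ ⊓ inter (UC k) ![0, 1] : (XX k).Opens) ≤
        ⊤ ⊓ inter (UC k) (fun _ : Fin 1 => 0) := by
      rw [← c1]
      exact inf_inter_le (UC k) ⊤ _ _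
    rw [Coch.val_congr g c0 _ hle, Coch.val_congr g c1 _ hle'] at b1
    have b2 : Rep (asPow (f ![0, 1])) (φ 1 - φ 0) := by
      rw [b1, sub_eq_add_neg, sub_eq_add_neg]
      exact ((hφ1 1).res hle).add ((hφ1 0).res hle').neg
    exact Rep.unique (exs ![0, 1]) (dn_exs _) (le_of_eq (top_inter_exs _).symm) b2 (hf ![0, 1])
  refine contradiction n (φ 0) (φ 1) (hsemi 0) (hφ2 0) (hφ2 1) ?_
  intro w
  have h1 := congrArg (fun F => F w) hrel
  simp only [AddMonoidHom.sub_apply] at h1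
  have h2 : φ 1 w = φ 0 w + Gop k (2 ^ n) 0 w - Gop k (2 ^ n) 1 w := by
    rw [add_sub_assoc, ← h1]
    abel
  rw [h2]
  abel

end Pool.Agent.H924.Daff
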