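import Pool.Agent.H924.Daff.QFld

/-!
Block operators on `LL`.
-/

set_option autoImplicit false

namespace Pool.Agent.H924.Daff

open AddMonoidAlgebra
open Pool.Agent.H835R3 (IsSemi)

variable {k : Type} [Field k]

/-- a block operator on `LL` -/
noncomputable def blk (f g h i : AL k →+ AL k) : LL k →+ LL k where
  toFun w := ⟨f w.re + g w.im, h w.re + i w.im⟩
  map_zero' := by
    apply QuadraticAlgebra.ext
    · show f 0 + g 0 = 0
      rw [map_zero, map_zero, add_zero]
    · show h 0 + i 0 = 0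
      rw [map_zero, map_zero, add_zero]
  map_add' v w := by
    apply QuadraticAlgebra.ext
    · show f (v.re + w.re) + g (v.im + w.im) = (f v.re + g v.im) + (f w.re + g w.im)
      rw [map_add, map_add]
      abel
    · show h (v.re + w.re) + i (v.im + w.im) = (h v.re + i v.im) + (h w.re + i w.im)
      rw [map_add, map_add]
      abel

lemma blk_re (f g h i : AL k →+ AL k) (w : LL k) : (blk f g h i w).re = f w.re + g w.im := rfl
lemma blk_im (f g h i : AL k →+ AL k) (w : LL k) : (blk f g h i w).im = h w.re + i w.im := rfl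

lemma zero_isSemi (q : ℕ) : IsSemi q q (0 : AL k →+ AL k) := by
  intro a b
  rw [AddMonoidHom.zero_apply, AddMonoidHom.zero_apply, mul_zero]

lemma mul_isSemi (q : ℕ) (c : AL k) : IsSemi q q (AddMonoidHom.mulLeft c) := by
  intro a b
  exact mul_left_comm _ _ _

variable [CharP k 2]

lemma blk_semi (n : ℕ) {f g h i : AL k →+ AL k} (hf : IsSemi (2 ^ n) (2 ^ n) f)
    (hg : IsSemi (2 ^ n) (2 ^ n) g) (hh : IsSemi (2 ^ n) (2 ^ n) h)
    (hi : IsSemi (2 ^ n) (2 ^ n) i) (v w : LL k) :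
    blk f g h i (v ^ 2 ^ (n + 1) * w) = v ^ 2 ^ (n + 1) * blk f g h i w := by
  have h1 : v ^ 2 ^ (n + 1) = inA ((v.re ^ 2 + QL k * v.im ^ 2) ^ 2 ^ n) := by
    rw [pow_succ', pow_mul, LL.sq_eq, ← map_pow]
  rw [h1, inA_mul, inA_mul]
  apply QuadraticAlgebra.ext
  · rw [blk_re]
    show f (_ * w.re) + g (_ * w.im) = _ * (f w.re + g w.im)
    rw [hf, hg, mul_add]
  · rw [blk_im]
    show h (_ * w.re) + i (_ * w.im) = _ * (h w.re + i w.im)
    rw [hh, hi, mul_add]

/-- the block operator preserves the degree -/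
def DegOK (f g h i : AL k →+ AL k) : Prop :=
  (∀ a ∈ supp k {u | dg u = 0}, f a ∈ supp k {u | dg u = 0} ∧ h a ∈ supp k {u | dg u + 1 = 0}) ∧
  (∀ b ∈ supp k {u | dg u + 1 = 0}, g b ∈ supp k {u | dg u = 0} ∧ i b ∈ supp k {u | dg u + 1 = 0})

omit [CharP k 2] in
lemma blk_mem {f g h i : AL k →+ AL k} (H : DegOK f g h i) {w : LL k} (hw : w ∈ Ld k 0) :
    blk f g h i w ∈ Ld k 0 :=
  ⟨add_mem (H.1 _ hw.1).1 (H.2 _ hw.2).1, add_mem (H.1 _ hw.1).2 (H.2 _ hw.2).2⟩

/-- the block operator in degree zero -/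
noncomputable def blk0 (f g h i : AL k →+ AL k) (H : DegOK f g h i) : L0 k →+ L0 k :=
  AddMonoidHom.mk' (fun w => ⟨blk f g h i w, blk_mem H w.2⟩)
    (fun v w => Subtype.ext (map_add (blk f g h i) _ _))

omit [CharP k 2] in
lemma blk0_coe (f g h i : AL k →+ AL k) (H : DegOK f g h i) (w : L0 k) :
    (blk0 f g h i H w : LL k) = blk f g h i w := rfl

lemma blk0_semi (n : ℕ) {f g h i : AL k →+ AL k} (H : DegOK f g h i)
    (hf : IsSemi (2 ^ n) (2 ^ n) f)
    (hg : IsSemi (2 ^ n) (2 ^ n) g) (hh : IsSemi (2 ^ n) (2 ^ n) h)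
    (hi : IsSemi (2 ^ n) (2 ^ n) i) : IsSemi (2 ^ (n + 1)) (2 ^ (n + 1)) (blk0 f g h i H) := by
  intro v w
  apply Subtype.ext
  exact blk_semi n hf hg hh hi v w

omit [CharP k 2] in
lemma blk0_Cm (m : NN) {f g h i : AL k →+ AL k} (H : DegOK f g h i)
    (h1 : ∀ a ∈ supp k {u | dg u = 0}, a ∈ supp k (regm m) →
      f a ∈ supp k (regm m) ∧ h a ∈ supp k (regm m))
    (h2 : ∀ b ∈ supp k {u | dg u + 1 = 0}, b ∈ supp k (regm m) →
      g b ∈ supp k (regm m) ∧ i b ∈ supp k (regm m))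
    (w : L0 k) (hw : (w : LL k) ∈ Cm k m) : (blk0 f g h i H w : LL k) ∈ Cm k m :=
  ⟨(blk0 f g h i H w).2,
    add_mem (h1 _ hw.1.1 hw.2.1).1 (h2 _ hw.1.2 hw.2.2).1,
    add_mem (h1 _ hw.1.1 hw.2.1).2 (h2 _ hw.1.2 hw.2.2).2⟩

omit [CharP k 2] in
lemma mono_supp {C C' : Set GG} {Q : GG → Prop} [DecidablePred Q] {m : GG}
    (h : ∀ u ∈ C, Q u → u + m ∈ C') {l : AL k} (hl : l ∈ supp k C) :
    mono k Q m l ∈ supp k C' := mono_mem C C' Q m h l hl

/-- the elements `x^u` with `dg u = 0` of `L0` -/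
noncomputable def m0 (k : Type) [Field k] (u : GG) (h : dg u = 0) : L0 k :=
  ⟨mL k u, by
    have := mL_mem_Ld (k := k) u
    rw [h] at this
    exact this⟩

omit [CharP k 2] in
lemma m0_mul_re (u : GG) (h : dg u = 0) (w : L0 k) :
    ((m0 k u h * w : L0 k) : LL k).re = single u 1 * (w : LL k).re := by
  show (mL k u * (w : LL k)).re = _
  unfold mL
  rw [inA_mul]

omit [CharP k 2] in
lemma m0_mul_im (u : GG) (h : dg u = 0) (w : L0 k) :
    ((m0 k u h * w : L0 k) : LL k).im = single u 1 * (w : LL k).im := by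
  show (mL k u * (w : LL k)).im = _
  unfold mL
  rw [inA_mul]

omit [CharP k 2] in
lemma mono_mul_single (Q : GG → Prop) [DecidablePred Q] (m v : GG) (l : AL k) :
    mono k Q m (single v 1 * l) = mono k (fun u => Q (v + u)) (v + m) l := by
  have h : (mono k Q m).comp (AddMonoidHom.mulLeft (single v (1 : k) : AL k)) =
      mono k (fun u => Q (v + u)) (v + m) := by
    apply addHom_ext'
    intro u a
    rw [AddMonoidHom.comp_apply, AddMonoidHom.coe_mulLeft, single_mul_single, one_mul,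
      mono_single, mono_single]
    split_ifs
    · congr 1
      abel
    · rfl
  exact congrArg (fun F => F l) h

omit [CharP k 2] in
lemma mono_congr {Q Q' : GG → Prop} [DecidablePred Q] [DecidablePred Q'] {m m' : GG}
    (hm : m = m') {C : Set GG} (hQ : ∀ u ∈ C, (Q u ↔ Q' u)) {l : AL k} (hl : l ∈ supp k C) :
    mono k Q m l = mono k Q' m' l := by
  subst hm
  refine supp_induction (P := fun l => mono k Q m l = mono k Q' m l) ?_ ?_ ?_ l hl
  · rw [map_zero, map_zero]
  · intro a b ha hb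
    rw [map_add, map_add, ha, hb]
  · intro u hu c
    rw [mono_single, mono_single, if_congr (hQ u hu) rfl rfl]

end Pool.Agent.H924.Daff
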