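import Pool.Agent.H924.Daff.QT
import Pool.Graph.R_seed8.H952R2.UlrichD5
import Pool.Graph.R_seed8.H992R2.U.D4b

/-!
The quadric threefold is projective.
-/

set_option autoImplicit false

namespace Pool.Agent.H924.Daff

open AddMonoidAlgebra AlgebraicGeometry HomogeneousLocalization CategoryTheory TopologicalSpace
  MvPolynomial
open Pool.Agent.H835R3.Stmt Stmt

attribute [local instance] MvPolynomial.gradedAlgebra

variable (k : Type) [Field k]

/-- the generators -/
noncomputable def gens (i : Fin (4 + 1)) : SS k :=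
  ![mo k (ea 0), mo k (ea 1), mo k (ea 2), mo k (ea 3), ⟨0, 1⟩] i

lemma zS_mem : (⟨0, 1⟩ : SS k) ∈ gr k 1 := by
  have h := im_mem_gr (k := k) (m := 0) (c := 1)
  exact h

lemma gens_mem (i : Fin (4 + 1)) : gens k i ∈ gr k 1 := by
  fin_cases i
  · exact mo_mem_one 0
  · exact mo_mem_one 1
  · exact mo_mem_one 2
  · exact mo_mem_one 3
  · exact zS_mem k

/-- the presentation of the coordinate ring -/
noncomputable def phiA : MvPolynomial (Fin (4 + 1)) k →ₐ[k] SS k :=
  MvPolynomial.aeval (gens k)

lemma phiA_mem (d : ℕ) (f : MvPolynomial (Fin (4 + 1)) k)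
    (hf : f ∈ homogeneousSubmodule (Fin (4 + 1)) k d) : phiA k f ∈ gr k d := by
  unfold phiA
  rw [MvPolynomial.aeval_def, MvPolynomial.eval₂_eq']
  refine Submodule.sum_mem _ ?_
  intro m hm
  rw [← Algebra.smul_def]
  refine Submodule.smul_mem _ _ ?_
  have h1 : ∏ i, gens k i ^ m i ∈ gr k (∑ i, m i • 1) := by
    refine SetLike.prod_pow_mem_graded (gr k) _ _ _ ?_
    intro i _
    exact gens_mem k i
  have h2 : ∑ i, m i • 1 = d := by
    have h3 := hf (MvPolynomial.mem_support_iff.1 hm)
    rw [← h3]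
    simp [Finsupp.weight_apply, Finsupp.sum_fintype]
  rwa [h2] at h1

lemma phiA_X (i : Fin (4 + 1)) : phiA k (MvPolynomial.X i) = gens k i := MvPolynomial.aeval_X _ _

lemma mo_mem_range (m : NN) : mo k m ∈ (phiA k).range := by
  have hea : ∀ i : Fin 4, mo k (ea i) ∈ (phiA k).range := by
    intro i
    fin_cases i
    · exact ⟨MvPolynomial.X 0, phiA_X k 0⟩
    · exact ⟨MvPolynomial.X 1, phiA_X k 1⟩
    · exact ⟨MvPolynomial.X 2, phiA_X k 2⟩
    · exact ⟨MvPolynomial.X 3, phiA_X k 3⟩
  induction m using Finsupp.induction_linear with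
  | zero => exact one_mem _
  | add f g hf hg =>
    rw [mo_add]
    exact mul_mem hf hg
  | single i n =>
    induction n with
    | zero =>
      rw [Finsupp.single_zero]
      exact one_mem _
    | succ n ih =>
      rw [Finsupp.single_add, mo_add]
      exact mul_mem ih (hea i)

lemma re_mem_range (f : SP k) : (⟨f, 0⟩ : SS k) ∈ (phiA k).range := by
  have h3 : f = f.coeff.sum (fun u a => (single u a : SP k)) := (sum_coeff_single f).symm
  have h4 : ∀ (s : Finset NN) (g : NN → k),
      (⟨∑ u ∈ s, (single u (g u) : SP k), 0⟩ : SS k) ∈ (phiA k).range := by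
    intro s g
    induction s using Finset.induction_on with
    | empty =>
      rw [Finset.sum_empty]
      exact zero_mem (phiA k).range
    | insert a s ha ih =>
      rw [Finset.sum_insert ha]
      have h5 : (⟨(single a (g a) : SP k) + ∑ u ∈ s, (single u (g u) : SP k), 0⟩ : SS k) =
          g a • mo k a + ⟨∑ u ∈ s, (single u (g u) : SP k), 0⟩ := by
        apply QuadraticAlgebra.ext
        · show _ = g a • single a 1 + _
          rw [smul_single, smul_eq_mul, mul_one]
        · show (0 : SP k) = g a • 0 + 0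
          rw [smul_zero, add_zero]
      rw [h5]
      exact add_mem (Subalgebra.smul_mem _ (mo_mem_range k a) _) ih
  rw [h3]
  exact h4 _ _

lemma phiA_surjective : Function.Surjective (phiA k) := by
  intro x
  have h1 : x = (⟨x.re, 0⟩ : SS k) + (⟨x.im, 0⟩ : SS k) * gens k 4 := by
    apply QuadraticAlgebra.ext
    · show _ = x.re + ((⟨x.im, 0⟩ : SS k) * (⟨0, 1⟩ : SS k)).re
      rw [SS.mul_re]
      show _ = x.re + (x.im * 0 + QP k * 0 * 1)
      ring
    · show _ = 0 + ((⟨x.im, 0⟩ : SS k) * (⟨0, 1⟩ : SS k)).im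
      rw [SS.mul_im]
      show _ = 0 + (x.im * 1 + 0 * 0)
      ring
  obtain ⟨f, hf⟩ := re_mem_range k x.re
  obtain ⟨g, hg⟩ := re_mem_range k x.im
  refine ⟨f + g * MvPolynomial.X 4, ?_⟩
  have hf' : phiA k f = ⟨x.re, 0⟩ := hf
  have hg' : phiA k g = ⟨x.im, 0⟩ := hg
  rw [map_add, map_mul, phiA_X, hf', hg']
  exact h1.symm

/-- the presentation, as a graded ring homomorphism -/
noncomputable def phiG : homogeneousSubmodule (Fin (4 + 1)) k →+*ᵍ gr k :=
  { (phiA k).toRingHom with
    map_mem := fun {i x} hx => phiA_mem k i x hx }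

/-- The quadric threefold is projective. -/
theorem projective_XX : IsProjectiveOver (toSpecK (gr k)) := by
  have hsurj : Function.Surjective (phiG k) := phiA_surjective k
  refine ⟨4, Proj.map (phiG k) (H952UL.D5h (phiG k) hsurj), ?_, ?_⟩
  · exact H952UL.D2a (phiG k) hsurj
  · exact H944U.H992.D2b (phiG k) (H952UL.D5h (phiG k) hsurj)
      (fun c => (phiA k).commutes c)

end Pool.Agent.H924.Daff
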