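import Pool.Agent.H924.Daff.LauG

/-!
The homogeneous coordinate ring of the quadric `z² = x₀x₁ + x₂x₃` and its localization.
-/

set_option autoImplicit false

namespace Pool.Agent.H924.Daff

open AddMonoidAlgebra Pool.Agent.H835R3

section LL

/-- the quadratic form, as a Laurent polynomial -/
noncomputable def QL (k : Type) [Field k] : AL k :=
  single (ei 0 + ei 1) 1 + single (ei 2 + ei 3) 1

/-- the localization of the coordinate ring of the quadric at the coordinates -/
abbrev LL (k : Type) [Field k] : Type := QuadraticAlgebra (AL k) (QL k) 0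

variable {k : Type} [Field k]

lemma LL.mul_re (v w : LL k) : (v * w).re = v.re * w.re + QL k * v.im * w.im := by
  rfl

lemma LL.mul_im (v w : LL k) : (v * w).im = v.re * w.im + v.im * w.re := by
  have h : (v * w).im = v.re * w.im + v.im * w.re + 0 * v.im * w.im := rfl
  rw [h, zero_mul, zero_mul, add_zero]

/-- the inclusion of Laurent polynomials -/
noncomputable def inA : AL k →+* LL k := algebraMap (AL k) (LL k)

lemma inA_eq (a : AL k) : (inA a : LL k) = ⟨a, 0⟩ := rfl

lemma inA_mul (a : AL k) (w : LL k) : inA a * w = ⟨a * w.re, a * w.im⟩ := by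
  apply QuadraticAlgebra.ext
  · rw [LL.mul_re]
    show a * w.re + QL k * 0 * w.im = a * w.re
    rw [mul_zero, zero_mul, add_zero]
  · rw [LL.mul_im]
    show a * w.im + 0 * w.re = a * w.im
    rw [zero_mul, add_zero]

lemma inA_injective : Function.Injective (inA : AL k → LL k) :=
  QuadraticAlgebra.algebraMap_injective

variable [CharP k 2]

instance instCharPAL : CharP (AL k) 2 :=
  charP_of_injective_algebraMap (FaithfulSMul.algebraMap_injective k (AL k)) 2

instance instCharPLL : CharP (LL k) 2 :=
  charP_of_injective_algebraMap (R := AL k) (A := LL k) inA_injective 2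

lemma LL.sq_eq (w : LL k) : w ^ 2 = inA (w.re ^ 2 + QL k * w.im ^ 2) := by
  rw [pow_two, inA_eq]
  apply QuadraticAlgebra.ext
  · rw [LL.mul_re]
    ring
  · rw [LL.mul_im, mul_comm w.im w.re]
    exact CharTwo.add_self_eq_zero _

/-- parity argument -/
lemma sq_add_eq_zero (a b : AL k) (h : a ^ 2 + QL k * b ^ 2 = 0) : a = 0 ∧ b = 0 := by
  have hexp : ∀ (a : AL k), a ^ 2 = a.coeff.sum (fun u c => (single (2 • u) (c ^ 2) : AL k)) := by
    intro a
    have h1 : ExpChar (AL k) 2 := inferInstance
    have h2 : a = a.coeff.sum (fun u c => (single u c : AL k)) := (sum_coeff_single a).symm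
    conv_lhs => rw [h2]
    have h3 : (a.coeff.sum fun u c => (single u c : AL k)) ^ 2 =
      a.coeff.sum fun u c => (single u c : AL k) ^ 2 := by
      unfold Finsupp.sum
      exact sum_pow_char 2 _ _
    rw [h3]
    refine Finsupp.sum_congr fun u _ => ?_
    rw [single_pow]
  -- coefficients of squares
  have hc1 : ∀ (a : AL k) (u : GG), (a ^ 2).coeff (2 • u) = (a.coeff u) ^ 2 := by
    intro a u
    rw [hexp a, Finsupp.sum, AddMonoidAlgebra.coeff_sum, Finsupp.finsetSum_apply]
    rw [Finset.sum_eq_single u]
    · rw [coeff_single, Finsupp.single_eq_same]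
    · intro v _ hv
      rw [coeff_single, Finsupp.single_apply, if_neg]
      intro h'
      apply hv
      funext i
      have := congrFun h' i
      simp only [Pi.smul_apply, nsmul_eq_mul] at this
      push_cast at this
      omega
    · intro hu
      rw [coeff_single, Finsupp.single_eq_same]
      have : a.coeff u = 0 := by simpa using hu
      rw [this]
      ring
  have hc2 : ∀ (a : AL k) (u : GG), (∃ i, ¬ (2 : ℤ) ∣ u i) → (a ^ 2).coeff u = 0 := by
    intro a u ⟨i, hi⟩
    rw [hexp a, Finsupp.sum, AddMonoidAlgebra.coeff_sum, Finsupp.finsetSum_apply]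
    refine Finset.sum_eq_zero fun v _ => ?_
    rw [coeff_single, Finsupp.single_apply, if_neg]
    intro h'
    apply hi
    rw [← h']
    simp
  have hb : b = 0 := by
    by_contra hb
    obtain ⟨u, hu⟩ : ∃ u, b.coeff u ≠ 0 := by
      by_contra hcon
      push Not at hcon
      apply hb
      apply AddMonoidAlgebra.ext
      ext u
      exact hcon u
    have h1 := congrArg (fun l : AL k => l.coeff (2 • u + (ei 0 + ei 1))) h
    simp only [coeff_add, Finsupp.add_apply, QL, add_mul] at h1
    rw [mul_comm (single (ei 0 + ei 1) (1 : k)), mul_comm (single (ei 2 + ei 3) (1 : k)),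
      coeff_mul_singleG, coeff_mul_singleG, add_sub_cancel_right, hc1, hc2 a, hc2 b] at h1
    · simp only [zero_add, add_zero, coeff_zero, Finsupp.coe_zero, Pi.zero_apply] at h1
      exact hu (pow_eq_zero_iff (two_ne_zero)|>.1 h1)
    · exact ⟨0, by simp [ei]⟩
    · exact ⟨0, by simp [ei]⟩
  refine ⟨?_, hb⟩
  rw [hb] at h
  have h1 : a ^ 2 = 0 := by
    rw [← h]
    ring
  exact pow_eq_zero_iff (two_ne_zero) |>.1 h1

instance instIsDomainLL : IsDomain (LL k) := by
  have : NoZeroDivisors (LL k) := by
    refine ⟨fun {v w} hvw => ?_⟩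
    have h1 : v ^ 2 * w ^ 2 = 0 := by rw [← mul_pow, hvw]; ring
    rw [LL.sq_eq, LL.sq_eq, ← map_mul] at h1
    have h2 := inA_injective (h1.trans (map_zero inA).symm)
    rcases mul_eq_zero.1 h2 with h3 | h3
    · left
      obtain ⟨h4, h5⟩ := sq_add_eq_zero _ _ h3
      exact QuadraticAlgebra.ext h4 h5
    · right
      obtain ⟨h4, h5⟩ := sq_add_eq_zero _ _ h3
      exact QuadraticAlgebra.ext h4 h5
  exact NoZeroDivisors.to_isDomain _

end LL

end Pool.Agent.H924.Daff
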