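import Pool.Agent.H924.Daff.QGop
import Pool.Graph.R_seed8.Helper165.StdSmooth
import Pool.Graph.R_seed8.H835R3.Smooth

/-!
The quadric threefold is smooth of relative dimension three: its charts are affine spaces.
-/

set_option autoImplicit false

namespace Pool.Agent.H924.Daff

open AddMonoidAlgebra AlgebraicGeometry HomogeneousLocalization CategoryTheory TopologicalSpace
  RingHom
open Pool.Agent.H835R3.Stmt Stmt

/-- smoothness of `Proj` from charts -/
theorem smooth_of_charts {k : Type} [Field k] {R : Type} [CommRing R] [Algebra k R] (n : ℕ)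
    (ℬ : ℕ → Submodule k R) [GradedAlgebra ℬ] (B : Type) [CommRing B] [Algebra k B]
    (hB : RingHom.Locally (IsStandardSmoothOfRelativeDimension n) (algebraMap k B))
    (hcov : ∀ P : Ideal R, P.IsPrime → P.IsHomogeneous ℬ →
      ¬ (HomogeneousIdeal.irrelevant ℬ).toIdeal ≤ P →
        ∃ t ∈ ℬ 1, t ∉ P ∧ ∃ e : B ≃+* Away ℬ t, ∀ c : k, e (algebraMap k B c) =
          fromZeroRingHom ℬ (Submonoid.powers t) (algebraMap k (ℬ 0) c)) :
    SmoothOfRelativeDimension n (toSpecK ℬ) := by
  have hcov' : ∀ x : Proj ℬ, ∃ t ∈ ℬ 1, x ∈ Proj.basicOpen ℬ t ∧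
      ∃ e : B ≃+* Away ℬ t, ∀ c : k, e (algebraMap k B c) =
          fromZeroRingHom ℬ (Submonoid.powers t) (algebraMap k (ℬ 0) c) := by
    intro x
    obtain ⟨t, ht, htP, e, he⟩ := hcov x.asHomogeneousIdeal.toIdeal x.isPrime
      x.asHomogeneousIdeal.isHomogeneous x.not_irrelevant_le
    exact ⟨t, ht, htP, e, he⟩
  choose t ht hx e he using hcov'
  let 𝒰 : (Proj ℬ).AffineOpenCover :=
    { I₀ := Proj ℬ
      X := fun x => .of (Away ℬ (t x))
      f := fun x => Proj.awayι ℬ (t x) (ht x) one_pos
      idx := fun x => x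
      covers := fun x => by
        change x ∈ (Proj.awayι ℬ _ _ _).opensRange
        rw [Proj.opensRange_awayι]
        exact hx x }
  have hP : HasRingHomProperty (@SmoothOfRelativeDimension.{0} n)
      (Locally (IsStandardSmoothOfRelativeDimension n)) := inferInstance
  have hS : IsZariskiLocalAtSource (@SmoothOfRelativeDimension.{0} n) :=
    HasRingHomProperty.instIsZariskiLocalAtSource
      (Q := Locally (IsStandardSmoothOfRelativeDimension n))
  refine IsZariskiLocalAtSource.of_openCover (P := @SmoothOfRelativeDimension.{0} n)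
    𝒰.openCover ?_
  have key : ∀ x : Proj ℬ, SmoothOfRelativeDimension n
      (Proj.awayι ℬ (t x) (ht x) one_pos ≫ toSpecK ℬ) := by
    intro x
    have h1 : Proj.awayι ℬ (t x) (ht x) one_pos ≫ toSpecK ℬ =
        Spec.map (CommRingCat.ofHom ((fromZeroRingHom ℬ (Submonoid.powers (t x))).comp
          (algebraMap k (ℬ 0)))) := by
      rw [toSpecK, Proj.awayι_toSpecZero_assoc, ← Spec.map_comp]
      rfl
    rw [h1]
    rw [HasRingHomProperty.Spec_iff (P := @SmoothOfRelativeDimension.{0} n)]
    have h2 : (fromZeroRingHom ℬ (Submonoid.powers (t x))).comp (algebraMap k (ℬ 0)) =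
        (e x).toRingHom.comp (algebraMap k B) := by
      ext1 c
      exact (he x c).symm
    rw [h2]
    exact (locally_respectsIso (isStandardSmoothOfRelativeDimension_respectsIso)).1 _ _ hB
  exact fun x => key x

variable {k : Type} [Field k]

lemma smooth_space (n : ℕ) : RingHom.Locally (RingHom.IsStandardSmoothOfRelativeDimension n)
    (algebraMap k (MvPolynomial (Fin n) k)) := by
  refine RingHom.locally_of RingHom.isStandardSmoothOfRelativeDimension_respectsIso _ ?_
  rw [RingHom.isStandardSmoothOfRelativeDimension_algebraMap]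
  have h := Pool.Agent.Helper165.isStandardSmooth_of_bijective (R := k)
    (S := MvPolynomial (Fin n) k) (ι := Fin n) (fun i => MvPolynomial.X i) (by
      rw [show MvPolynomial.aeval (fun i => (MvPolynomial.X i : MvPolynomial (Fin n) k)) =
        AlgHom.id k _ from MvPolynomial.aeval_X_left]
      exact Function.bijective_id)
  rwa [Nat.card_fin] at h

/-- first remaining index -/
def nb (a : Fin 4) : Fin 4 := ![2, 2, 0, 0] a
/-- second remaining index -/
def nc (a : Fin 4) : Fin 4 := ![3, 3, 1, 1] a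

lemma QL_eq (a : Fin 4) : QL k = single (ei a + ei (bar a)) 1 + single (ei (nb a) + ei (nc a)) 1 := by
  unfold QL
  fin_cases a
  · rfl
  · show _ = single (ei 1 + ei 0) 1 + single (ei 2 + ei 3) 1
    rw [add_comm (ei 1)]
  · show _ = single (ei 2 + ei 3) 1 + single (ei 0 + ei 1) 1
    rw [add_comm (single (ei 2 + ei 3) (1 : k))]
  · show _ = single (ei 3 + ei 2) 1 + single (ei 0 + ei 1) 1
    rw [add_comm (single (ei 3 + ei 2) (1 : k)), add_comm (ei 3)]

/-- the element `z / x_a` -/
noncomputable def zx (k : Type) [Field k] (a : Fin 4) : LL k := ⟨0, single (-ei a) 1⟩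

lemma zx_sq (a : Fin 4) : zx k a * zx k a =
    mL k (rr a (bar a)) + mL k (rr a (nb a)) * mL k (rr a (nc a)) := by
  apply QuadraticAlgebra.ext
  · rw [LL.mul_re]
    show (0 : AL k) * 0 + QL k * single (-ei a) 1 * single (-ei a) 1 =
      single (rr a (bar a)) 1 + ((mL k (rr a (nb a)) * mL k (rr a (nc a)) : LL k)).re
    rw [← mL_add]
    show _ = _ + single (rr a (nb a) + rr a (nc a)) 1
    rw [QL_eq a, mul_zero, zero_add, mul_assoc, single_mul_single, add_mul, single_mul_single,
      single_mul_single]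
    simp only [mul_one]
    have e1 : ei a + ei (bar a) + (-ei a + -ei a) = rr a (bar a) := by unfold rr; abel
    have e2 : ei (nb a) + ei (nc a) + (-ei a + -ei a) = rr a (nb a) + rr a (nc a) := by
      unfold rr; abel
    rw [e1, e2]
  · rw [LL.mul_im]
    show (0 : AL k) * _ + _ * 0 = 0 + ((mL k (rr a (nb a)) * mL k (rr a (nc a)) : LL k)).im
    rw [← mL_add]
    show _ = 0 + 0
    rw [zero_mul, mul_zero]

/-- the coordinates on the chart -/
noncomputable def cx (k : Type) [Field k] (a : Fin 4) (i : Fin 3) : LL k :=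
  ![zx k a, mL k (rr a (nb a)), mL k (rr a (nc a))] i

/-- the map from the coordinate ring of affine space -/
noncomputable def thA (k : Type) [Field k] (a : Fin 4) : MvPolynomial (Fin 3) k →ₐ[k] LL k :=
  MvPolynomial.aeval (cx k a)

/-- the field of rational functions -/
abbrev KK (k : Type) [Field k] : Type := FractionRing (MvPolynomial (Fin 3) k)

/-- the value of `x_ā/x_a` -/
noncomputable def pbar (k : Type) [Field k] : MvPolynomial (Fin 3) k :=
  MvPolynomial.X 0 * MvPolynomial.X 0 - MvPolynomial.X 1 * MvPolynomial.X 2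

lemma pbar_ne_zero : pbar k ≠ 0 := by
  intro h
  have h1 := congrArg (MvPolynomial.eval (![1, 0, 0] : Fin 3 → k)) h
  unfold pbar at h1
  simp at h1

/-- the values of the coordinates -/
noncomputable def rv (k : Type) [Field k] (a i : Fin 4) : MvPolynomial (Fin 3) k :=
  if i = a then 1 else if i = nb a then MvPolynomial.X 1 else if i = nc a then MvPolynomial.X 2
    else pbar k

lemma rv_ne_zero (a i : Fin 4) : rv k a i ≠ 0 := by
  unfold rv
  split_ifs
  · exact one_ne_zero
  · exact MvPolynomial.X_ne_zero _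
  · exact MvPolynomial.X_ne_zero _
  · exact pbar_ne_zero

/-- the values of the coordinates in the field -/
noncomputable def rvK (k : Type) [Field k] (a i : Fin 4) : KK k :=
  algebraMap (MvPolynomial (Fin 3) k) (KK k) (rv k a i)

lemma rvK_ne_zero (a i : Fin 4) : rvK k a i ≠ 0 := by
  unfold rvK
  intro h
  exact rv_ne_zero a i (IsFractionRing.injective (MvPolynomial (Fin 3) k) (KK k)
    (h.trans (map_zero _).symm))

/-- values on monomials -/
noncomputable def monV (k : Type) [Field k] (a : Fin 4) : Multiplicative GG →* KK k where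
  toFun u := ∏ i, rvK k a i ^ (u.toAdd i)
  map_one' := by
    refine Finset.prod_eq_one fun i _ => ?_
    exact zpow_zero _
  map_mul' u v := by
    rw [← Finset.prod_mul_distrib]
    refine Finset.prod_congr rfl fun i _ => ?_
    exact zpow_add₀ (rvK_ne_zero a i) _ _

/-- evaluation of Laurent polynomials -/
noncomputable def evA (k : Type) [Field k] (a : Fin 4) : AL k →ₐ[k] KK k :=
  AddMonoidAlgebra.lift k (KK k) GG (monV k a)

lemma evA_single (a : Fin 4) (u : GG) : evA k a (single u 1) = ∏ i, rvK k a i ^ (u i) := by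
  unfold evA
  rw [AddMonoidAlgebra.lift_single, one_smul]
  rfl

lemma evA_ei (a i : Fin 4) : evA k a (single (ei i) 1) = rvK k a i := by
  rw [evA_single, Finset.prod_eq_single i]
  · have h : ei i i = 1 := by
      unfold ei
      rw [Pi.single_eq_same]
    rw [h, zpow_one]
  · intro j _ hj
    rw [ei_apply_ne (fun h => hj h.symm), zpow_zero]
  · intro h
    exact absurd (Finset.mem_univ _) h

lemma rv_a (a : Fin 4) : rv k a a = 1 := if_pos rfl

lemma rv_b (a : Fin 4) : rv k a (nb a) = MvPolynomial.X 1 := by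
  unfold rv
  rw [if_neg (by fin_cases a <;> decide), if_pos rfl]

lemma rv_c (a : Fin 4) : rv k a (nc a) = MvPolynomial.X 2 := by
  unfold rv
  rw [if_neg (by fin_cases a <;> decide), if_neg (by fin_cases a <;> decide), if_pos rfl]

lemma rv_bar (a : Fin 4) : rv k a (bar a) = pbar k := by
  unfold rv
  rw [if_neg (by fin_cases a <;> decide), if_neg (by fin_cases a <;> decide),
    if_neg (by fin_cases a <;> decide)]

/-- the value of `z` -/
noncomputable def zv (k : Type) [Field k] : KK k :=
  algebraMap (MvPolynomial (Fin 3) k) (KK k) (MvPolynomial.X 0)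

lemma evA_QL (a : Fin 4) : evA k a (QL k) = zv k * zv k := by
  rw [QL_eq a, map_add, single_add_one, single_add_one, map_mul, map_mul, evA_ei, evA_ei, evA_ei,
    evA_ei]
  unfold rvK zv
  rw [rv_a, rv_b, rv_c, rv_bar, ← map_mul, ← map_mul, ← map_mul, ← map_add]
  congr 1
  unfold pbar
  ring

/-- evaluation -/
noncomputable def evL (k : Type) [Field k] (a : Fin 4) : LL k →+* KK k where
  toFun w := evA k a w.re + evA k a w.im * zv k
  map_one' := by
    show evA k a 1 + evA k a 0 * zv k = 1
    rw [map_one, map_zero, zero_mul, add_zero]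
  map_zero' := by
    show evA k a 0 + evA k a 0 * zv k = 0
    rw [map_zero, zero_mul, add_zero]
  map_add' v w := by
    show evA k a (v.re + w.re) + evA k a (v.im + w.im) * zv k = _
    rw [map_add, map_add]
    ring
  map_mul' v w := by
    rw [LL.mul_re, LL.mul_im, map_add, map_mul, map_mul, map_mul, evA_QL, map_add, map_mul, map_mul]
    ring

lemma evL_mL (a : Fin 4) (u : GG) : evL k a (mL k u) = evA k a (single u 1) := by
  show evA k a (single u 1) + evA k a 0 * zv k = _
  rw [map_zero, zero_mul, add_zero]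

lemma evA_rr (a i : Fin 4) : evA k a (single (rr a i) 1) = rvK k a i := by
  have h : (single (rr a i) (1 : k) : AL k) * single (ei a) 1 = single (ei i) 1 := by
    rw [single_mul_single, one_mul]
    congr 1
    unfold rr
    abel
  have h2 := congrArg (evA k a) h
  rw [map_mul, evA_ei, evA_ei] at h2
  have h3 : rvK k a a = 1 := by
    unfold rvK
    rw [rv_a, map_one]
  rwa [h3, mul_one] at h2

lemma evL_zx (a : Fin 4) : evL k a (zx k a) = zv k := by
  show evA k a 0 + evA k a (single (-ei a) 1) * zv k = _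
  have h : (single (-ei a) (1 : k) : AL k) * single (ei a) 1 = 1 := by
    rw [single_mul_single, one_mul, neg_add_cancel]
    rfl
  have h2 := congrArg (evA k a) h
  have h3 : rvK k a a = 1 := by
    unfold rvK
    rw [rv_a, map_one]
  rw [map_mul, evA_ei, h3, mul_one, map_one] at h2
  rw [h2, map_zero, zero_add, one_mul]

lemma evL_thA (a : Fin 4) (f : MvPolynomial (Fin 3) k) :
    evL k a (thA k a f) = algebraMap (MvPolynomial (Fin 3) k) (KK k) f := by
  have h : (evL k a).comp (thA k a).toRingHom = algebraMap (MvPolynomial (Fin 3) k) (KK k) := by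
    apply MvPolynomial.ringHom_ext
    · intro c
      show evL k a (thA k a (MvPolynomial.C c)) = _
      have e1 : thA k a (MvPolynomial.C c) = algebraMap k (LL k) c := (thA k a).commutes c
      have e2 : (algebraMap k (LL k) c).re = algebraMap k (AL k) c := rfl
      have e3 : (algebraMap k (LL k) c).im = 0 := rfl
      rw [e1]
      show evA k a (algebraMap k (LL k) c).re + evA k a (algebraMap k (LL k) c).im * zv k = _
      rw [e2, e3, map_zero, zero_mul, add_zero, (evA k a).commutes]
      rfl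
    · intro i
      show evL k a (thA k a (MvPolynomial.X i)) = _
      unfold thA
      rw [MvPolynomial.aeval_X]
      fin_cases i
      · exact evL_zx a
      · show evL k a (mL k (rr a (nb a))) = _
        rw [evL_mL, evA_rr]
        unfold rvK
        rw [rv_b]
        rfl
      · show evL k a (mL k (rr a (nc a))) = _
        rw [evL_mL, evA_rr]
        unfold rvK
        rw [rv_c]
        rfl
  exact congrArg (fun F => F f) h

lemma thA_injective (a : Fin 4) : Function.Injective (thA k a) := by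
  intro f g h
  apply IsFractionRing.injective (MvPolynomial (Fin 3) k) (KK k)
  rw [← evL_thA a f, ← evL_thA a g, h]

lemma mL_rr_mem (a c : Fin 4) : mL k (rr a c) ∈ Cm k (ea a) := by
  have h := m0_rr_mem (k := k) 1 a c
  simp only [one_smul] at h
  exact h

lemma zx_mem (a : Fin 4) : zx k a ∈ Cm k (ea a) := by
  refine ⟨⟨zero_mem _, single_mem_supp ?_ 1⟩, zero_mem (supp k _), single_mem_supp ?_ 1⟩
  · show dg (-ei a) + 1 = 0
    rw [dg_neg, dg_ei]
    rfl
  · intro i hi
    rw [Pi.neg_apply, ei_apply_ne (ne_of_ea hi), neg_zero]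

lemma thA_mem (a : Fin 4) (f : MvPolynomial (Fin 3) k) : thA k a f ∈ Cm k (ea a) := by
  rw [← alpha_range_gen]
  show thA k a f ∈ (alpha k (ea a)).range
  induction f using MvPolynomial.induction_on with
  | C c =>
    have e1 : thA k a (MvPolynomial.C c) = algebraMap k (LL k) c := (thA k a).commutes c
    rw [e1]
    refine (alpha_range_gen (ea a) _).2 ?_
    have h0 : (0 : GG) ∈ regm (ea a) := fun i _ => le_rfl
    exact ⟨⟨single_mem_supp (u := 0) (show dg 0 = 0 by decide) c, zero_mem _⟩,
      single_mem_supp h0 c, zero_mem (supp k _)⟩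
  | add f g hf hg =>
    rw [map_add]
    exact add_mem hf hg
  | mul_X f i hf =>
    rw [map_mul]
    refine mul_mem hf ?_
    unfold thA
    rw [MvPolynomial.aeval_X]
    refine (alpha_range_gen (ea a) _).2 ?_
    fin_cases i
    · exact zx_mem a
    · exact mL_rr_mem a _
    · exact mL_rr_mem a _

lemma thA_rr (a i : Fin 4) : ∃ f, thA k a f = mL k (rr a i) := by
  refine ⟨rv k a i, ?_⟩
  have h0 : i = a ∨ i = nb a ∨ i = nc a ∨ i = bar a := by
    fin_cases a <;> fin_cases i <;> decide
  have hX : ∀ j, thA k a (MvPolynomial.X j) = cx k a j := fun j => MvPolynomial.aeval_X _ _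
  rcases h0 with rfl | rfl | rfl | rfl
  · rw [rv_a, map_one]
    unfold rr
    rw [sub_self, mL_zero]
  · rw [rv_b, hX]
    rfl
  · rw [rv_c, hX]
    rfl
  · rw [rv_bar]
    unfold pbar
    rw [map_sub, map_mul, map_mul, hX, hX, hX]
    show zx k a * zx k a - mL k (rr a (nb a)) * mL k (rr a (nc a)) = _
    rw [zx_sq, add_sub_cancel_right]

lemma mL_eq_prod (a : Fin 4) (u : GG) (hu : dg u = 0) :
    u = u (nb a) • rr a (nb a) + u (nc a) • rr a (nc a) + u (bar a) • rr a (bar a) := by
  have h : u a = -(u (nb a) + u (nc a) + u (bar a)) := by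
    unfold dg at hu
    fin_cases a
    · show u 0 = -(u 2 + u 3 + u 1); linarith
    · show u 1 = -(u 2 + u 3 + u 0); linarith
    · show u 2 = -(u 0 + u 1 + u 3); linarith
    · show u 3 = -(u 0 + u 1 + u 2); linarith
  have hv : ∀ (x : ℤ) (v : GG) (i : Fin 4), (x • v) i = x * v i := fun x v i => rfl
  funext i
  rw [Pi.add_apply, Pi.add_apply, hv, hv, hv]
  unfold rr
  rw [Pi.sub_apply, Pi.sub_apply, Pi.sub_apply]
  unfold dg at hu
  fin_cases a <;> fin_cases i
  · show u 0 = u 2 * (ei 2 0 - ei 0 0) + u 3 * (ei 3 0 - ei 0 0) + u 1 * (ei 1 0 - ei 0 0)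
    rw [show ei 2 0 = 0 by decide, show ei 0 0 = 1 by decide, show ei 3 0 = 0 by decide,
      show ei 1 0 = 0 by decide]
    linarith
  · show u 1 = u 2 * (ei 2 1 - ei 0 1) + u 3 * (ei 3 1 - ei 0 1) + u 1 * (ei 1 1 - ei 0 1)
    rw [show ei 2 1 = 0 by decide, show ei 0 1 = 0 by decide, show ei 3 1 = 0 by decide,
      show ei 1 1 = 1 by decide]
    linarith
  · show u 2 = u 2 * (ei 2 2 - ei 0 2) + u 3 * (ei 3 2 - ei 0 2) + u 1 * (ei 1 2 - ei 0 2)
    rw [show ei 2 2 = 1 by decide, show ei 0 2 = 0 by decide, show ei 3 2 = 0 by decide,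
      show ei 1 2 = 0 by decide]
    linarith
  · show u 3 = u 2 * (ei 2 3 - ei 0 3) + u 3 * (ei 3 3 - ei 0 3) + u 1 * (ei 1 3 - ei 0 3)
    rw [show ei 2 3 = 0 by decide, show ei 0 3 = 0 by decide, show ei 3 3 = 1 by decide,
      show ei 1 3 = 0 by decide]
    linarith
  · show u 0 = u 2 * (ei 2 0 - ei 1 0) + u 3 * (ei 3 0 - ei 1 0) + u 0 * (ei 0 0 - ei 1 0)
    rw [show ei 2 0 = 0 by decide, show ei 0 0 = 1 by decide, show ei 3 0 = 0 by decide,
      show ei 1 0 = 0 by decide]
    linarith
  · show u 1 = u 2 * (ei 2 1 - ei 1 1) + u 3 * (ei 3 1 - ei 1 1) + u 0 * (ei 0 1 - ei 1 1)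
    rw [show ei 2 1 = 0 by decide, show ei 0 1 = 0 by decide, show ei 3 1 = 0 by decide,
      show ei 1 1 = 1 by decide]
    linarith
  · show u 2 = u 2 * (ei 2 2 - ei 1 2) + u 3 * (ei 3 2 - ei 1 2) + u 0 * (ei 0 2 - ei 1 2)
    rw [show ei 2 2 = 1 by decide, show ei 0 2 = 0 by decide, show ei 3 2 = 0 by decide,
      show ei 1 2 = 0 by decide]
    linarith
  · show u 3 = u 2 * (ei 2 3 - ei 1 3) + u 3 * (ei 3 3 - ei 1 3) + u 0 * (ei 0 3 - ei 1 3)
    rw [show ei 2 3 = 0 by decide, show ei 0 3 = 0 by decide, show ei 3 3 = 1 by decide,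
      show ei 1 3 = 0 by decide]
    linarith
  · show u 0 = u 0 * (ei 0 0 - ei 2 0) + u 1 * (ei 1 0 - ei 2 0) + u 3 * (ei 3 0 - ei 2 0)
    rw [show ei 2 0 = 0 by decide, show ei 0 0 = 1 by decide, show ei 3 0 = 0 by decide,
      show ei 1 0 = 0 by decide]
    linarith
  · show u 1 = u 0 * (ei 0 1 - ei 2 1) + u 1 * (ei 1 1 - ei 2 1) + u 3 * (ei 3 1 - ei 2 1)
    rw [show ei 2 1 = 0 by decide, show ei 0 1 = 0 by decide, show ei 3 1 = 0 by decide,
      show ei 1 1 = 1 by decide]
    linarith
  · show u 2 = u 0 * (ei 0 2 - ei 2 2) + u 1 * (ei 1 2 - ei 2 2) + u 3 * (ei 3 2 - ei 2 2)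
    rw [show ei 2 2 = 1 by decide, show ei 0 2 = 0 by decide, show ei 3 2 = 0 by decide,
      show ei 1 2 = 0 by decide]
    linarith
  · show u 3 = u 0 * (ei 0 3 - ei 2 3) + u 1 * (ei 1 3 - ei 2 3) + u 3 * (ei 3 3 - ei 2 3)
    rw [show ei 2 3 = 0 by decide, show ei 0 3 = 0 by decide, show ei 3 3 = 1 by decide,
      show ei 1 3 = 0 by decide]
    linarith
  · show u 0 = u 0 * (ei 0 0 - ei 3 0) + u 1 * (ei 1 0 - ei 3 0) + u 2 * (ei 2 0 - ei 3 0)
    rw [show ei 2 0 = 0 by decide, show ei 0 0 = 1 by decide, show ei 3 0 = 0 by decide,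
      show ei 1 0 = 0 by decide]
    linarith
  · show u 1 = u 0 * (ei 0 1 - ei 3 1) + u 1 * (ei 1 1 - ei 3 1) + u 2 * (ei 2 1 - ei 3 1)
    rw [show ei 2 1 = 0 by decide, show ei 0 1 = 0 by decide, show ei 3 1 = 0 by decide,
      show ei 1 1 = 1 by decide]
    linarith
  · show u 2 = u 0 * (ei 0 2 - ei 3 2) + u 1 * (ei 1 2 - ei 3 2) + u 2 * (ei 2 2 - ei 3 2)
    rw [show ei 2 2 = 1 by decide, show ei 0 2 = 0 by decide, show ei 3 2 = 0 by decide,
      show ei 1 2 = 0 by decide]
    linarith
  · show u 3 = u 0 * (ei 0 3 - ei 3 3) + u 1 * (ei 1 3 - ei 3 3) + u 2 * (ei 2 3 - ei 3 3)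
    rw [show ei 2 3 = 0 by decide, show ei 0 3 = 0 by decide, show ei 3 3 = 1 by decide,
      show ei 1 3 = 0 by decide]
    linarith

lemma thA_mono (a : Fin 4) (u : GG) (hu : dg u = 0) (hreg : ∀ i, i ≠ a → 0 ≤ u i) :
    ∃ f, thA k a f = mL k u := by
  obtain ⟨f1, h1⟩ := thA_rr (k := k) a (nb a)
  obtain ⟨f2, h2⟩ := thA_rr (k := k) a (nc a)
  obtain ⟨f3, h3⟩ := thA_rr (k := k) a (bar a)
  obtain ⟨n1, e1⟩ := Int.eq_ofNat_of_zero_le (hreg (nb a) (by fin_cases a <;> decide))
  obtain ⟨n2, e2⟩ := Int.eq_ofNat_of_zero_le (hreg (nc a) (by fin_cases a <;> decide))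
  obtain ⟨n3, e3⟩ := Int.eq_ofNat_of_zero_le (hreg (bar a) (by fin_cases a <;> decide))
  refine ⟨f1 ^ n1 * f2 ^ n2 * f3 ^ n3, ?_⟩
  rw [map_mul, map_mul, map_pow, map_pow, map_pow, h1, h2, h3, mL_pow, mL_pow, mL_pow, ← mL_add,
    ← mL_add]
  congr 1
  have h4 := mL_eq_prod a u hu
  rw [e1, e2, e3] at h4
  rw [h4]
  simp only [natCast_zsmul]

lemma thA_range (a : Fin 4) (w : LL k) : (∃ f, thA k a f = w) ↔ w ∈ Cm k (ea a) := by
  constructor
  · rintro ⟨f, rfl⟩
    exact thA_mem a f
  · intro hw
    have hreg : ∀ u ∈ regm (ea a), ∀ i, i ≠ a → 0 ≤ u i := by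
      intro u hu i hi
      exact hu i (by rw [ea_apply, if_neg (fun h => hi h.symm)])
    have h1 : ∀ l ∈ supp k ({u | dg u = 0} ∩ regm (ea a)), ∃ f, thA k a f = inA l := by
      intro l hl
      refine supp_induction (P := fun l => ∃ f, thA k a f = inA l) ?_ ?_ ?_ l hl
      · exact ⟨0, by rw [map_zero, map_zero]⟩
      · rintro x y ⟨f, hf⟩ ⟨g, hg⟩
        exact ⟨f + g, by rw [map_add, map_add, hf, hg]⟩
      · rintro u ⟨hu, hu'⟩ c
        obtain ⟨f, hf⟩ := thA_mono (k := k) a u hu (hreg u hu')
        refine ⟨MvPolynomial.C c * f, ?_⟩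
        have e1 : thA k a (MvPolynomial.C c) = algebraMap k (LL k) c := (thA k a).commutes c
        have e2 : algebraMap k (LL k) c = inA (single 0 c) := rfl
        rw [map_mul, hf, e1, e2]
        unfold mL
        rw [← map_mul, single_mul_single, zero_add, mul_one]
    have h2 : ∀ l ∈ supp k ({u | dg u + 1 = 0} ∩ regm (ea a)),
        ∃ f, thA k a f = (⟨0, l⟩ : LL k) := by
      intro l hl
      refine supp_induction (P := fun l => ∃ f, thA k a f = (⟨0, l⟩ : LL k)) ?_ ?_ ?_ l hl
      · exact ⟨0, by rw [map_zero]; rfl⟩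
      · rintro x y ⟨f, hf⟩ ⟨g, hg⟩
        refine ⟨f + g, ?_⟩
        rw [map_add, hf, hg]
        apply QuadraticAlgebra.ext
        · show (0 : AL k) + 0 = 0
          rw [add_zero]
        · rfl
      · rintro u ⟨hu, hu'⟩ c
        have hu0 : dg u + 1 = 0 := hu
        have hmem : u + ei a ∈ ({u | dg u = 0} ∩ regm (ea a) : Set GG) := by
          constructor
          · show dg _ = 0
            rw [dg_add, dg_ei]
            exact hu0
          · intro i hi
            rw [Pi.add_apply, ei_apply_ne (ne_of_ea hi), add_zero]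
            exact hu' i hi
        obtain ⟨f, hf⟩ := h1 (single (u + ei a) c) (single_mem_supp hmem c)
        refine ⟨f * MvPolynomial.X 0, ?_⟩
        have hX : thA k a (MvPolynomial.X 0) = zx k a := MvPolynomial.aeval_X _ _
        rw [map_mul, hf, hX, inA_mul]
        apply QuadraticAlgebra.ext
        · show _ * (0 : AL k) = 0
          rw [mul_zero]
        · show single (u + ei a) c * single (-ei a) 1 = single u c
          rw [single_mul_single, mul_one, add_neg_cancel_right]
    obtain ⟨f, hf⟩ := h1 w.re (supp_inter hw.1.1 hw.2.1)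
    obtain ⟨g, hg⟩ := h2 w.im (supp_inter hw.1.2 hw.2.2)
    refine ⟨f + g, ?_⟩
    rw [map_add, hf, hg]
    apply QuadraticAlgebra.ext
    · show w.re + 0 = w.re
      rw [add_zero]
    · show 0 + w.im = w.im
      rw [zero_add]

lemma alpha_fromZero (m : NN) (c : k) :
    alpha k m (fromZeroRingHom (gr k) (Submonoid.powers (mo k m))
      (algebraMap k (gr k 0) c)) = algebraMap k (LL k) c := by
  have hmem : (algebraMap k (SS k) c) ∈ gr k (0 • dn m) := by
    rw [zero_smul]
    exact (algebraMap k (gr k 0) c).2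
  have h1 : fromZeroRingHom (gr k) (Submonoid.powers (mo k m)) (algebraMap k (gr k 0) c) =
      Away.mk (gr k) (mo_mem m) 0 (algebraMap k (SS k) c) hmem := by
    apply HomogeneousLocalization.val_injective
    rw [Away.val_mk]
    have : (fromZeroRingHom (gr k) (Submonoid.powers (mo k m))
      (algebraMap k (gr k 0) c)).val = Localization.mk (algebraMap k (SS k) c) 1 := rfl
    rw [this]
    have h0 : (1 : Submonoid.powers (mo k m)) = ⟨mo k m ^ 0, 0, rfl⟩ := by
      apply Subtype.ext
      show (1 : SS k) = mo k m ^ 0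
      rw [pow_zero]
    rw [h0]
  have h2 := alpha_mk (k := k) m (mo_mem m) 0 (algebraMap k (SS k) c) hmem
  rw [← h1, zero_smul, neg_zero, mL_zero, mul_one] at h2
  rw [h2]
  apply QuadraticAlgebra.ext
  · exact (th k).commutes c
  · exact map_zero (th k)

/-- The quadric threefold is smooth of relative dimension three over `k`. -/
theorem smooth_XX (k : Type) [Field k] [CharP k 2] :
    SmoothOfRelativeDimension 3 (toSpecK (gr k)) := by
  refine smooth_of_charts 3 (gr k) (MvPolynomial (Fin 3) k) (smooth_space 3) ?_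
  intro P hP hhom hirr
  by_contra hcon
  apply hirr
  have : P.IsPrime := hP
  apply irrelevant_le
  intro a
  by_contra hst
  apply hcon
  refine ⟨mo k (ea a), mo_mem_one a, hst, ?_⟩
  obtain ⟨e, he⟩ := Pool.Agent.H835R3.exists_equiv (thA k a).toRingHom (alpha k (ea a))
    (thA_injective a) (alpha_injective _) (fun c => by
      refine (thA_range a c).trans ?_
      exact (alpha_range_gen (ea a) c).symm)
  refine ⟨e, fun c => ?_⟩
  apply alpha_injective
  rw [he, alpha_fromZero]
  exact (thA k a).commutes c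

end Pool.Agent.H924.Daff
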