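import Pool.Agent.H924.Daff.QChart
import Pool.Graph.R_seed8.H835R3.Fld
import Pool.Graph.R_seed8.H342R2.U.D2c

/-!
The quadric `z² = x₀x₁ + x₂x₃` as `Proj`: cover by the four charts, sections over the charts.
-/

set_option autoImplicit false

namespace Pool.Agent.H924.Daff

open AddMonoidAlgebra AlgebraicGeometry HomogeneousLocalization CategoryTheory TopologicalSpace
open Pool.Agent.H835R3 (res res_res res_self gam gam_res gam_injective genericPoint_mem eq_of_gam
  IsSemi exists_ext ext_unique exists_sections)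

variable (k : Type) [Field k] [CharP k 2]

/-- the quadric -/
noncomputable abbrev XX : Scheme.{0} := Proj (gr k)

/-- the last coordinate -/
noncomputable def zS : SS k := ⟨0, 1⟩

omit [CharP k 2] in
lemma zS_sq : zS k * zS k = mo k (ea 0 + ea 1) + mo k (ea 2 + ea 3) := by
  apply QuadraticAlgebra.ext
  · rw [SS.mul_re]
    show (0 : SP k) * 0 + QP k * 1 * 1 = single (ea 0 + ea 1) 1 + single (ea 2 + ea 3) 1
    rw [mul_zero, zero_add, mul_one, mul_one]
    rfl
  · rw [SS.mul_im]
    show (0 : SP k) * 1 + 1 * 0 = 0 + 0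
    rw [zero_mul, mul_zero]

instance instIsIntegralXX : IsIntegral (XX k) :=
  H342U.D2c ⟨mo k (ea 0), by
    have h := mo_mem (k := k) (ea 0)
    have h2 : dn (ea 0) = 1 := by simp [dn, ea]
    rwa [h2] at h, mo_ne_zero _⟩

lemma dn_ea (a : Fin 4) : dn (ea a) = 1 := by
  unfold dn ea
  fin_cases a <;> simp

lemma dn_add (m m' : NN) : dn (m + m') = dn m + dn m' := by
  unfold dn
  simp only [Finsupp.add_apply]
  ring

lemma dn_et : dn et = 4 := by
  unfold et
  rw [dn_add, dn_add, dn_add, dn_ea, dn_ea, dn_ea, dn_ea]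

omit [CharP k 2] in
/-- a prime containing the four coordinates `x_i` contains the irrelevant ideal -/
lemma irrelevant_le (P : Ideal (SS k)) [hP : P.IsPrime]
    (h : ∀ a, mo k (ea a) ∈ P) : (HomogeneousIdeal.irrelevant (gr k)).toIdeal ≤ P := by
  have hz : zS k ∈ P := by
    have h1 : zS k * zS k ∈ P := by
      rw [zS_sq, mo_add, mo_add]
      exact add_mem (Ideal.mul_mem_right _ _ (h 0)) (Ideal.mul_mem_right _ _ (h 2))
    exact (hP.mem_or_mem h1).elim id id
  have h2 : ∀ m : NN, 0 < dn m → mo k m ∈ P := by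
    intro m hm
    obtain ⟨i, hi⟩ : ∃ i, 0 < m i := by
      by_contra hcon
      push Not at hcon
      have h0 := hcon 0
      have h1 := hcon 1
      have h2 := hcon 2
      have h3 := hcon 3
      unfold dn at hm
      omega
    have h3 : m = ea i + (m - ea i) := by
      ext j
      simp only [Finsupp.add_apply, Finsupp.tsub_apply, ea, Finsupp.single_apply]
      split_ifs with hij
      · subst hij; omega
      · omega
    rw [h3, mo_add]
    exact Ideal.mul_mem_right _ _ (h i)
  rw [HomogeneousIdeal.toIdeal_irrelevant_le]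
  intro i hi w hw
  have hw' : w = ⟨w.re, 0⟩ + ⟨w.im, 0⟩ * zS k := by
    apply QuadraticAlgebra.ext
    · show w.re = w.re + (w.im * 0 + QP k * 0 * 1)
      simp
    · show w.im = 0 + (w.im * 1 + 0 * 0 + 0 * 0 * 1)
      simp
  rw [hw']
  refine add_mem ?_ (Ideal.mul_mem_left _ _ hz)
  refine th_induction (C := {u | dg u = i}) (P := fun a => (⟨a, 0⟩ : SS k) ∈ P) ?_ ?_ ?_ w.re hw.1
  · exact zero_mem P
  · intro a b _ _ ha hb
    have h4 : (⟨a + b, 0⟩ : SS k) = ⟨a, 0⟩ + ⟨b, 0⟩ := by
      apply QuadraticAlgebra.ext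
      · rfl
      · exact (add_zero _).symm
    rw [h4]
    exact add_mem ha hb
  · intro m hm c
    have h4 : (⟨single m c, 0⟩ : SS k) = c • mo k m := by
      apply QuadraticAlgebra.ext
      · show single m c = c • single m 1
        rw [smul_single, smul_eq_mul, mul_one]
      · exact (smul_zero c).symm
    rw [h4, Algebra.smul_def]
    refine Ideal.mul_mem_left _ _ (h2 m ?_)
    have h5 : dg (gm m) = i := hm
    rw [dg_gm] at h5
    have h6 : dn m = i := by exact_mod_cast h5
    omega

/-- the open chart -/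
noncomputable abbrev UU (m : NN) : (XX k).Opens := Proj.basicOpen (gr k) (mo k m)

omit [CharP k 2] in
lemma exists_mem_UU (x : XX k) : ∃ a, x ∈ UU k (ea a) := by
  by_contra hcon
  push Not at hcon
  have hP : (x.asHomogeneousIdeal.toIdeal).IsPrime := x.isPrime
  refine x.not_irrelevant_le (irrelevant_le k x.asHomogeneousIdeal.toIdeal ?_)
  intro a
  have h1 := hcon a
  rw [Proj.mem_basicOpen] at h1
  simpa using h1

lemma generic_mem (m : NN) : genericPoint (XX k) ∈ UU k m := by
  have hnot : ¬ HomogeneousIdeal.irrelevant (gr k) ≤ (⊥ : HomogeneousIdeal (gr k)) := by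
    intro hle
    apply mo_ne_zero (k := k) (ea 0)
    have h1 : mo k (ea 0) ∈ HomogeneousIdeal.irrelevant (gr k) := by
      rw [HomogeneousIdeal.mem_irrelevant_iff]
      have : GradedRing.proj (gr k) 0 (mo k (ea 0)) =
        (DirectSum.decompose (gr k) (mo k (ea 0)) 0 : SS k) := rfl
      rw [this, DirectSum.decompose_of_mem_ne (gr k) (mo_mem _) (by rw [dn_ea]; norm_num)]
    have h2 := hle h1
    have h3 : mo k (ea 0) ∈ (⊥ : HomogeneousIdeal (gr k)).toIdeal := h2
    have h4 : (⊥ : HomogeneousIdeal (gr k)).toIdeal = ⊥ := rfl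
    rw [h4] at h3
    exact (Submodule.mem_bot _).1 h3
  let η : XX k := (⟨⊥, by
    have : (⊥ : HomogeneousIdeal (gr k)).toIdeal = ⊥ := rfl
    rw [this]
    exact Ideal.isPrime_bot, hnot⟩ : ProjectiveSpectrum (gr k))
  refine genericPoint_mem _ η ?_
  rw [Proj.mem_basicOpen]
  intro h
  have h3 : mo k m ∈ (⊥ : HomogeneousIdeal (gr k)).toIdeal := h
  have h4 : (⊥ : HomogeneousIdeal (gr k)).toIdeal = ⊥ := rfl
  rw [h4] at h3
  exact mo_ne_zero m ((Submodule.mem_bot _).1 h3)

variable {k}

omit [CharP k 2] in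
lemma isAffineOpen_UU (m : NN) (hm : 0 < dn m) : IsAffineOpen (UU k m) :=
  Proj.isAffineOpen_basicOpen (gr k) (mo k m) (mo_mem m) hm

/-- sections over a chart -/
noncomputable def beta (m : NN) : Away (gr k) (mo k m) →+* Γ(XX k, UU k m) :=
  (Proj.awayToSection (gr k) (mo k m)).hom

omit [CharP k 2] in
lemma beta_bijective (m : NN) (hm : 0 < dn m) :
    Function.Bijective (beta (k := k) m) := by
  have h3 : IsIso (Proj.awayToSection (gr k) (mo k m)) := by
    have := (Proj.basicOpenIsoAway (gr k) (mo k m) (mo_mem m) hm).isIso_hom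
    rwa [Proj.basicOpenIsoAway_hom] at this
  exact ConcreteCategory.bijective_of_isIso (Proj.awayToSection (gr k) (mo k m))

omit [CharP k 2] in
lemma UU_mono {m m' t : NN} (h : t = m + m') : UU k t ≤ UU k m :=
  Proj.basicOpen_mono (gr k) _ _ ⟨mo k m', by rw [h, mo_add]⟩

omit [CharP k 2] in
lemma beta_compat {m m' t : NN} (h : t = m + m') (z : Away (gr k) (mo k m)) :
    ∃ z' : Away (gr k) (mo k t), alpha k t z' = alpha k m z ∧
      res (UU_mono h) (beta m z) = beta t z' := by
  subst h
  refine ⟨awayMap (gr k) (mo_mem m') (mo_add m m') z,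
    alpha_awayMap m m' (mo_mem m') (mo_add m m') z, ?_⟩
  have h1 := Proj.awayMap_awayToSection (gr k) (f := mo k m) (mo_mem m') (mo_add m m')
  have h2 := ConcreteCategory.congr_hom h1 z
  exact h2.symm

omit [CharP k 2] in
lemma UU_inf (m m' : NN) : UU k m ⊓ UU k m' = UU k (m + m') := by
  rw [UU, UU, UU, mo_add, Proj.basicOpen_mul]

end Pool.Agent.H924.Daff
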