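import Pool.Agent.H924.Daff.QOps
import Pool.Agent.H924.Daff.ProjOpen

/-!
The coordinate ratios and the operators `T` of the partition of unity.
-/

set_option autoImplicit false

namespace Pool.Agent.H924.Daff

open AddMonoidAlgebra AlgebraicGeometry HomogeneousLocalization CategoryTheory TopologicalSpace
open Pool.Agent.H835R3 (res res_res res_self gam gam_res gam_injective genericPoint_mem eq_of_gam
  IsSemi)
open Pool.Agent.H835R3.Stmt Stmt

variable {k : Type} [Field k]

/-- the exponent of `x_c / x_a` -/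
def rr (a c : Fin 4) : GG := ei c - ei a

lemma dg_rr (a c : Fin 4) : dg (rr a c) = 0 := by
  unfold rr
  rw [sub_eq_add_neg, dg_add, dg_neg, dg_ei, dg_ei]
  rfl

lemma dg_nrr (N : ℕ) (a c : Fin 4) : dg (N • rr a c) = 0 := by
  rw [dg_nsmul, dg_rr, mul_zero]

lemma dn_ea_pos (a : Fin 4) : 0 < dn (ea a) := by rw [dn_ea]; norm_num

lemma ea_apply (a i : Fin 4) : ea a i = if a = i then 1 else 0 := by
  unfold ea
  rw [Finsupp.single_apply]

lemma m0_rr_mem (N : ℕ) (a c : Fin 4) : (m0 k (N • rr a c) (dg_nrr N a c) : LL k) ∈ Cm k (ea a) := by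
  refine ⟨(m0 k (N • rr a c) (dg_nrr N a c)).2, ?_, zero_mem (supp k _)⟩
  refine single_mem_supp ?_ 1
  intro i hi
  rw [ea_apply] at hi
  have hia : a ≠ i := by
    intro h
    rw [if_pos h] at hi
    exact one_ne_zero hi
  rw [nsmul_ap]
  unfold rr ei
  have hia' : ¬ i = a := fun h => hia h.symm
  rw [Pi.sub_apply, Pi.single_apply, Pi.single_apply]
  simp only [hia', if_false, sub_zero]
  split_ifs <;> simp

lemma m0_pow (u : GG) (h : dg u = 0) (N : ℕ) (h' : dg (N • u) = 0) :
    m0 k u h ^ N = m0 k (N • u) h' := by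
  apply Subtype.ext
  exact mL_pow u N

lemma m0_mul (u v : GG) (h : dg u = 0) (h' : dg v = 0) (h'' : dg (u + v) = 0) :
    m0 k u h * m0 k v h' = m0 k (u + v) h'' := by
  apply Subtype.ext
  exact (mL_add u v).symm

lemma m0_congr {u v : GG} (h : u = v) (hu : dg u = 0) (hv : dg v = 0) : m0 k u hu = m0 k v hv := by
  subst h
  rfl

variable [CharP k 2]

lemma exists_mEl (a c : Fin 4) : ∃ f : Γ(XX k, UU k (ea a)),
    gam (UU k (ea a)) (generic_mem k _) f = iota k (m0 k (rr a c) (dg_rr a c)) := by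
  apply exists_chart
  have h := m0_rr_mem (k := k) 1 a c
  simp only [one_smul] at h
  exact h

/-- the function `x_c / x_a` on the chart `U_a` -/
noncomputable def mEl (k : Type) [Field k] [CharP k 2] (a c : Fin 4) : Γ(XX k, UU k (ea a)) :=
  (exists_mEl a c).choose

lemma gam_mEl (a c : Fin 4) {V : (XX k).Opens} (hV : V ≤ UU k (ea a))
    (hη : genericPoint (XX k) ∈ V) :
    gam V hη (res hV (mEl k a c)) = iota k (m0 k (rr a c) (dg_rr a c)) := by
  rw [gam_res]
  exact (exists_mEl a c).choose_spec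

omit [CharP k 2] in
lemma mo_mem_one (a : Fin 4) : mo k (ea a) ∈ gr k 1 := by
  have h := mo_mem (k := k) (ea a)
  rwa [dn_ea] at h

lemma mEl_eq (a c : Fin 4) : mEl k a c =
    beta (ea a) (Away.isLocalizationElem (mo_mem_one a) (mo_mem_one c)) := by
  apply gam_injective _ (generic_mem k _)
  have h1 := gam_mEl a c (V := UU k (ea a)) le_rfl (generic_mem k _)
  rw [res_self] at h1
  rw [h1]
  symm
  apply gam_beta
  rw [alpha_mk]
  show pi k (mo k (ea c) ^ 1) * mL k (-(1 • gm (ea a))) = mL k (rr a c)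
  rw [pow_one, pi_mo, ← mL_add, one_smul, gm_ea, gm_ea, ← sub_eq_add_neg]
  rfl

lemma basicOpen_mEl (a c : Fin 4) (V : (XX k).Opens) (hV : V ≤ UU k (ea a)) :
    V ⊓ UU k (ea c) = (XX k).basicOpen (res hV (mEl k a c)) := by
  have h1 := basicOpen_sec (gr k) (mo k (ea a)) (mo k (ea c)) (mo_mem_one a) (mo_mem_one c)
  have h2 : (XX k).basicOpen (mEl k a c) = UU k (ea a) ⊓ UU k (ea c) := by
    rw [mEl_eq]
    exact h1.symm
  have h3 := (XX k).basicOpen_res (mEl k a c) (homOfLE hV).op
  have h4 : (XX k).basicOpen (res hV (mEl k a c)) = V ⊓ (XX k).basicOpen (mEl k a c) := h3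
  rw [h4, h2, ← inf_assoc, inf_eq_left.2 hV]

lemma mEl_self (a : Fin 4) : mEl k a a = 1 := by
  apply gam_injective _ (generic_mem k _)
  have h1 := gam_mEl a a (V := UU k (ea a)) le_rfl (generic_mem k _)
  rw [res_self] at h1
  rw [h1, map_one]
  have h2 : m0 k (rr a a) (dg_rr a a) = 1 := by
    apply Subtype.ext
    show mL k (rr a a) = 1
    unfold rr
    rw [sub_self, mL_zero]
  rw [h2, map_one]

lemma mEl_rel (a b c : Fin 4) :
    res (inf_le_left : UU k (ea a) ⊓ UU k (ea b) ≤ UU k (ea a)) (mEl k a c) =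
      res inf_le_left (mEl k a b) *
      res (inf_le_right : UU k (ea a) ⊓ UU k (ea b) ≤ UU k (ea b)) (mEl k b c) := by
  have hη : genericPoint (XX k) ∈ UU k (ea a) ⊓ UU k (ea b) := ⟨generic_mem k _, generic_mem k _⟩
  apply gam_injective _ hη
  rw [map_mul, gam_mEl, gam_mEl, gam_mEl, ← map_mul]
  congr 1
  rw [m0_mul _ _ _ _ (by rw [dg_add, dg_rr, dg_rr]; rfl)]
  apply m0_congr
  unfold rr
  abel

/-- representation of the multiplication by a power of a ratio -/
lemma rep_mul {q : ℕ} (N : ℕ) (a c : Fin 4) {V : (XX k).Opens} (hV : V ≤ UU k (ea a))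
    (hη : genericPoint (XX k) ∈ V) (f : Γ(XX k, V)) (hf : f = res hV (mEl k a c) ^ N) :
    Rep (mulEnd q f) (AddMonoidHom.mulLeft (m0 k (N • rr a c) (dg_nrr N a c))) := by
  refine Rep.mul hη f _ ?_
  rw [hf, map_pow, gam_mEl, ← map_pow]
  congr 1
  exact m0_pow _ _ _ _

/-- the modulus -/
def tq (N : ℕ) : ℤ := ((2 ^ (4 * N) : ℕ) : ℤ)

lemma tq_pos (N : ℕ) : 4 * (N : ℤ) < tq N := by
  unfold tq
  have : 4 * N < 2 ^ (4 * N) := Nat.lt_two_pow_self
  exact_mod_cast this

/-- the condition -/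
def cond (N : ℕ) (c : Fin 4) (v : GG) : Prop :=
  v c % tq N + N < tq N ∧ ∀ c' < c, ¬ (v c' % tq N + N < tq N)

instance (N : ℕ) (c : Fin 4) : DecidablePred (cond N c) := fun v => by
  unfold cond
  infer_instance

/-- the condition for `T` -/
def QT (N : ℕ) (a c : Fin 4) (u : GG) : Prop := cond N c (u + N • rr c a)

instance (N : ℕ) (a c : Fin 4) : DecidablePred (QT N a c) := fun v => by
  unfold QT
  infer_instance

lemma cond_periodic (N : ℕ) (c : Fin 4) (w u : GG) :
    cond N c ((2 ^ (4 * N) : ℕ) • w + u) ↔ cond N c u := by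
  have h : ∀ i, ((2 ^ (4 * N) : ℕ) • w + u) i % tq N = u i % tq N := by
    intro i
    rw [Pi.add_apply, nsmul_ap]
    unfold tq
    rw [add_comm, Int.add_mul_emod_self_left]
  unfold cond
  simp only [h]

lemma QT_periodic (N : ℕ) (a c : Fin 4) (w u : GG) :
    QT N a c ((2 ^ (4 * N) : ℕ) • w + u) ↔ QT N a c u := by
  unfold QT
  rw [add_assoc, cond_periodic]

omit [CharP k 2] in
lemma T_deg (N : ℕ) (a c : Fin 4) : DegOK (mono k (QT N a c) (N • rr c a)) 0 0
    (mono k (QT N a c) (N • rr c a)) := by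
  refine ⟨fun l hl => ⟨?_, zero_mem _⟩, fun l hl => ⟨zero_mem _, ?_⟩⟩
  · refine mono_supp ?_ hl
    intro u hu _
    show dg _ = 0
    rw [dg_add, dg_nrr, show dg u = 0 from hu, add_zero]
  · refine mono_supp ?_ hl
    intro u hu _
    show dg _ + 1 = 0
    rw [dg_add, dg_nrr, add_zero]
    exact hu

/-- the operator `T` on Laurent polynomials -/
noncomputable def TL (k : Type) [Field k] (N : ℕ) (a c : Fin 4) : L0 k →+ L0 k :=
  blk0 (mono k (QT N a c) (N • rr c a)) 0 0 (mono k (QT N a c) (N • rr c a)) (T_deg N a c)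

lemma T_semi (N : ℕ) (a c : Fin 4) :
    IsSemi (2 ^ (4 * N + 1)) (2 ^ (4 * N + 1)) (TL k N a c) := by
  have h := mono_isSemi (k := k) 2 (4 * N) (QT N a c) (N • rr c a) (QT_periodic N a c)
  exact blk0_semi (4 * N) _ h (zero_isSemi _) (zero_isSemi _) h

lemma T_reg (N : ℕ) (a c : Fin 4) (u : GG) (hu : u ∈ regm (ea a)) (hQ : QT N a c u) :
    u + N • rr c a ∈ regm (ea a) := by
  intro i hi
  have hia : a ≠ i := by
    intro h
    rw [ea_apply, if_pos h] at hi
    exact one_ne_zero hi
  have h0 := hu i hi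
  obtain ⟨h1, -⟩ := hQ
  have h2 : (N • rr c a) i = if i = c then -(N : ℤ) else 0 := by
    rw [nsmul_ap]
    unfold rr ei
    rw [Pi.sub_apply, Pi.single_apply, Pi.single_apply, if_neg (fun h => hia h.symm)]
    split_ifs <;> simp
  rw [Pi.add_apply, h2]
  split_ifs with hic
  · subst hic
    rw [Pi.add_apply, h2, if_pos rfl] at h1
    have hq : 0 < tq N := by
      have := tq_pos N
      have h3 : (0 : ℤ) ≤ N := Int.natCast_nonneg N
      linarith
    have h3 := Int.emod_nonneg (u i + -(N : ℤ)) hq.ne'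
    have h4 := Int.emod_add_mul_ediv (u i + -(N : ℤ)) (tq N)
    by_contra hcon
    push Not at hcon
    have h5 : (u i + -(N : ℤ)) / tq N < 0 := Int.ediv_neg_of_neg_of_pos hcon hq
    have h6 : (u i + -(N : ℤ)) / tq N ≤ -1 := by omega
    nlinarith
  · rw [add_zero]
    exact h0

omit [CharP k 2] in
lemma T_pres (N : ℕ) (a c : Fin 4) (w : L0 k) (hw : (w : LL k) ∈ Cm k (ea a)) :
    (TL k N a c w : LL k) ∈ Cm k (ea a) := by
  refine blk0_Cm (ea a) _ ?_ ?_ w hw
  · intro l _ hl
    exact ⟨mono_supp (fun u hu hQ => T_reg N a c u hu hQ) hl, zero_mem _⟩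
  · intro l _ hl
    exact ⟨zero_mem _, mono_supp (fun u hu hQ => T_reg N a c u hu hQ) hl⟩

lemma exists_T (N : ℕ) (a c : Fin 4) :
    ∃ ψ : PowEnd (2 ^ (4 * N + 1)) (UU k (ea a)), Rep ψ (TL k N a c) :=
  exists_rep (pow_pos two_pos _) (ea a) (dn_ea_pos a) _ (T_semi N a c) (T_pres N a c) _ rfl

omit [CharP k 2] in
lemma TL_rel (N : ℕ) (a b c : Fin 4) : TL k N b c =
    (TL k N a c).comp (AddMonoidHom.mulLeft (m0 k (N • rr a b) (dg_nrr N a b))) := by
  have h1 : ∀ u, QT N a c (N • rr a b + u) ↔ QT N b c u := by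
    intro u
    unfold QT
    have : N • rr a b + u + N • rr c a = u + N • rr c b := by
      unfold rr
      rw [smul_sub, smul_sub, smul_sub]
      abel
    rw [this]
  have h2 : N • rr a b + N • rr c a = N • rr c b := by
    unfold rr
    rw [smul_sub, smul_sub, smul_sub]
    abel
  apply AddMonoidHom.ext
  intro w
  apply Subtype.ext
  rw [AddMonoidHom.comp_apply, AddMonoidHom.coe_mulLeft]
  unfold TL
  rw [blk0_coe, blk0_coe]
  apply QuadraticAlgebra.ext
  · rw [blk_re, blk_re, m0_mul_re, AddMonoidHom.zero_apply, AddMonoidHom.zero_apply,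
      mono_mul_single]
    congr 1
    exact (mono_congr h2 (fun u _ => h1 u) w.2.1).symm
  · rw [blk_im, blk_im, m0_mul_im, AddMonoidHom.zero_apply, AddMonoidHom.zero_apply,
      mono_mul_single]
    congr 1
    exact (mono_congr h2 (fun u _ => h1 u) w.2.2).symm

/-- arithmetic: the condition holds for exactly one index -/
lemma exists_small (N : ℕ) (u : GG) (hu : dg u = 0 ∨ dg u + 1 = 0) :
    ∃ c, u c % tq N + N < tq N := by
  by_contra hcon
  push Not at hcon
  have hq := tq_pos N
  have hN : (0 : ℤ) ≤ N := Int.natCast_nonneg N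
  have hq0 : 0 < tq N := by linarith
  have h0 := hcon 0
  have h1 := hcon 1
  have h2 := hcon 2
  have h3 := hcon 3
  have e0 := Int.emod_add_mul_ediv (u 0) (tq N)
  have e1 := Int.emod_add_mul_ediv (u 1) (tq N)
  have e2 := Int.emod_add_mul_ediv (u 2) (tq N)
  have e3 := Int.emod_add_mul_ediv (u 3) (tq N)
  have l0 := Int.emod_lt_of_pos (u 0) hq0
  have l1 := Int.emod_lt_of_pos (u 1) hq0
  have l2 := Int.emod_lt_of_pos (u 2) hq0
  have l3 := Int.emod_lt_of_pos (u 3) hq0
  set d := u 0 / tq N + u 1 / tq N + u 2 / tq N + u 3 / tq N with hd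
  set s := u 0 % tq N + u 1 % tq N + u 2 % tq N + u 3 % tq N with hs
  have hsum : dg u = s + tq N * d := by
    unfold dg
    rw [hd, hs, ← e0, ← e1, ← e2, ← e3]
    simp only [Int.emod_emod_of_dvd, dvd_refl, Int.add_mul_emod_self_left]
    rw [e0, e1, e2, e3]
    linarith
  have hs1 : 4 * tq N - 4 * N ≤ s := by linarith
  have hs2 : s ≤ 4 * tq N - 4 := by omega
  rcases hu with hu | hu
  · have h5 : tq N * (-d) = s := by linarith
    have h6 : 3 < -d := by
      by_contra hc
      push Not at hc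
      nlinarith
    have h7 : -d < 4 := by
      by_contra hc
      push Not at hc
      nlinarith
    omega
  · have h5 : tq N * (-d) = s + 1 := by linarith
    have h6 : 3 < -d := by
      by_contra hc
      push Not at hc
      nlinarith
    have h7 : -d < 4 := by
      by_contra hc
      push Not at hc
      nlinarith
    omega

omit [CharP k 2] in
lemma sum_mono_cond (N : ℕ) (l : AL k) (hl : l ∈ supp k {u | dg u = 0 ∨ dg u + 1 = 0}) :
    ∑ c, mono k (cond N c) 0 l = l := by
  refine supp_induction (P := fun l => ∑ c, mono k (cond N c) 0 l = l) ?_ ?_ ?_ l hl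
  · simp
  · intro a b ha hb
    simp only [map_add, Finset.sum_add_distrib]
    rw [ha, hb]
  · intro u hu x
    obtain ⟨c, hc⟩ := exists_small N u hu
    have hex : ∃ c : Fin 4, u c % tq N + N < tq N ∧ ∀ c' < c, ¬ (u c' % tq N + N < tq N) := by
      classical
      have hwf := WellFounded.has_min (wellFounded_lt (α := Fin 4))
        {c | u c % tq N + N < tq N} ⟨c, hc⟩
      obtain ⟨c₀, hc₀, hmin⟩ := hwf
      exact ⟨c₀, hc₀, fun c' hc' h' => hmin c' h' hc'⟩
    obtain ⟨c₀, hc₀, hmin⟩ := hex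
    rw [Finset.sum_eq_single c₀]
    · rw [mono_single, if_pos ⟨hc₀, hmin⟩, add_zero]
    · intro c' _ hc'
      rw [mono_single, if_neg]
      rintro ⟨h1, h2⟩
      rcases lt_trichotomy c' c₀ with h | h | h
      · exact hmin c' h h1
      · exact hc' h
      · exact h2 c₀ h hc₀
    · intro h
      exact absurd (Finset.mem_univ _) h

omit [CharP k 2] in
lemma TL_sum (N : ℕ) (a : Fin 4) :
    ∑ c, (TL k N a c).comp (AddMonoidHom.mulLeft (m0 k (N • rr a c) (dg_nrr N a c))) =
      AddMonoidHom.id (L0 k) := by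
  have h1 : ∀ c, (TL k N a c).comp (AddMonoidHom.mulLeft (m0 k (N • rr a c) (dg_nrr N a c))) =
      TL k N c c := fun c => (TL_rel N a c c).symm
  rw [Finset.sum_congr rfl (fun c _ => h1 c)]
  have h2 : ∀ c (w : L0 k), ((TL k N c c w : L0 k) : LL k) =
      blk (mono k (cond N c) 0) 0 0 (mono k (cond N c) 0) w := by
    intro c w
    have h3 : N • rr c c = 0 := by unfold rr; rw [sub_self, smul_zero]
    have h4 : ∀ u, QT N c c u ↔ cond N c u := by
      intro u
      unfold QT
      rw [h3, add_zero]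
    unfold TL
    rw [blk0_coe]
    apply QuadraticAlgebra.ext
    · rw [blk_re, blk_re]
      congr 1
      exact mono_congr h3 (fun u _ => h4 u) w.2.1
    · rw [blk_im, blk_im]
      congr 1
      exact mono_congr h3 (fun u _ => h4 u) w.2.2
  apply AddMonoidHom.ext
  intro w
  apply Subtype.ext
  rw [AddMonoidHom.finsetSum_apply, AddSubmonoidClass.coe_finsetSum]
  rw [Finset.sum_congr rfl (fun c _ => h2 c w)]
  apply QuadraticAlgebra.ext
  · have h5 : (∑ c, blk (mono k (cond N c) 0) 0 0 (mono k (cond N c) 0) (w : LL k)).re =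
      ∑ c, mono k (cond N c) 0 (w : LL k).re := by
      have h6 : ∀ t : Finset (Fin 4), (∑ c ∈ t, blk (mono k (cond N c) 0) 0 0
          (mono k (cond N c) 0) (w : LL k)).re = ∑ c ∈ t, mono k (cond N c) 0 (w : LL k).re := by
        intro t
        induction t using Finset.induction_on with
        | empty => rfl
        | insert c t hc ih =>
          rw [Finset.sum_insert hc, Finset.sum_insert hc, ← ih]
          show _ + 0 + _ = _
          rw [add_zero]
      exact h6 _
    rw [h5]
    exact sum_mono_cond N _ (supp_mono (fun u hu => Or.inl hu) w.2.1)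
  · have h5 : (∑ c, blk (mono k (cond N c) 0) 0 0 (mono k (cond N c) 0) (w : LL k)).im =
      ∑ c, mono k (cond N c) 0 (w : LL k).im := by
      have h6 : ∀ t : Finset (Fin 4), (∑ c ∈ t, blk (mono k (cond N c) 0) 0 0
          (mono k (cond N c) 0) (w : LL k)).im = ∑ c ∈ t, mono k (cond N c) 0 (w : LL k).im := by
        intro t
        induction t using Finset.induction_on with
        | empty => rfl
        | insert c t hc ih =>
          rw [Finset.sum_insert hc, Finset.sum_insert hc, ← ih]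
          show 0 + _ + _ = _
          rw [zero_add]
      exact h6 _
    rw [h5]
    exact sum_mono_cond N _ (supp_mono (fun u hu => Or.inr hu) w.2.2)

end Pool.Agent.H924.Daff
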